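import Pool.Agent.H42.MJ.Local

set_option autoImplicit false
open Set Topology Filter
open scoped Real
open Pool.Agent.H81.Q1

/-! # Corollary A: the components of `δℤ²` in a Jordan domain are approximating sequences -/

namespace Pool.Agent.H42.MJ

open Pool.Agent.H14.Jordan

variable {D : Set ℂ}

/-- Janiszewski's theorem (helper14). -/
theorem jan : Jan := by
  rintro A B hA hB hAB z w ⟨S, hS, hzS, hwS, hSA⟩ ⟨T, hT, hzT, hwT, hTB⟩
  obtain ⟨R, hR, hd, hzR, hwR⟩ := janiszewski_preconnected hA hB hAB hS hT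
    (Set.disjoint_left.2 fun x hx hx' => hSA hx hx') (Set.disjoint_left.2 fun x hx hx' => hTB hx hx')
    hzS hwS hzT hwT
  exact ⟨R, hR, hzR, hwR, fun x hx hx' => Set.disjoint_left.1 hd hx hx'⟩

theorem jTop (h : IsJordanDomain D) : JTop D where
  isOpen := h.1
  conn := h.2.1.isPreconnected
  bdd := h.2.2.1
  ext := (ext_connected h).isPreconnected
  extc := frontier_subset_ext h

/-- A sequence of components with marked corners converging to the ends of two arcs is an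
approximating sequence (positively oriented parametrisation). -/
theorem approx_of_param (hD : JTop D) {ρ : ℝ → ℂ} (hJ : IsJD D ρ) {z0 : ℂ} (hz0 : z0 ∈ D)
    {L : ℝ → ℂ} (hLc : Continuous L) (hL : ∀ t, Complex.exp (L t) = ρ t - z0) {W : ℝ}
    (hW : ∀ t, (L (t + 2 * π)).im = (L t).im + W) (hW0 : 0 ≤ W) {sa sb : ℝ} (hab : sa < sb)
    (hba : sb < sa + 2 * π) (δ : ℕ → ℝ) (X : ℕ → DDomain) (pos : ∀ n, 0 < δ n)
    (lim : Tendsto δ atTop (𝓝 0)) (hX : ∀ n, IsComponent D (δ n) (X n).V (X n).E)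
    (limα : Tendsto (fun n => pt (δ n) (X n).α.1) atTop (𝓝 (ρ sa)))
    (limβ : Tendsto (fun n => pt (δ n) (X n).β.1) atTop (𝓝 (ρ sb))) :
    ∃ A : Approx D (ρ sa) (ρ sb) (ρ '' Icc sa sb) (ρ '' Icc sb (sa + 2 * π)),
      A.δ = δ ∧ A.X = X := by
  have hsmall : ∀ ε > 0, ∀ᶠ n in atTop, δ n < ε := fun ε hε => lim.eventually (gt_mem_nhds hε)
  have hα : ∀ ε > 0, ∀ᶠ n in atTop, ‖pt (δ n) (X n).α.1 - ρ sa‖ < ε := fun ε hε => by
    filter_upwards [Metric.tendsto_nhds.1 limα ε hε] with n hn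
    rwa [dist_eq_norm] at hn
  have hβ : ∀ ε > 0, ∀ᶠ n in atTop, ‖pt (δ n) (X n).β.1 - ρ sb‖ < ε := fun ε hε => by
    filter_upwards [Metric.tendsto_nhds.1 limβ ε hε] with n hn
    rwa [dist_eq_norm] at hn
  have hloc : ∀ ε > 0, ∃ ε' > 0, ∀ᶠ n in atTop,
      (∀ u : ℤ × ℤ, ‖pt (δ n) u - z0‖ < ε' → u ∈ (X n).V) ∧
      (∀ c ∈ (X n).wired, Metric.infDist (pt (δ n) c.1) (ρ '' Icc sa sb) < ε) ∧
      (∀ c ∈ (X n).dual, Metric.infDist (pt (δ n) c.1) (ρ '' Icc sb (sa + 2 * π)) < ε) := by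
    intro ε hε
    obtain ⟨ε', hε', h⟩ := local_main jan hD hJ hz0 hLc hL hW hW0 hab hba hε
    refine ⟨ε', hε', ?_⟩
    filter_upwards [hsmall ε' hε', hα ε' hε', hβ ε' hε'] with n h1 h2 h3
    exact h (δ n) (pos n) h1 (X n) (hX n) h2 h3
  refine ⟨⟨δ, X, pos, lim, ?_, ?_, limα, limβ, ?_, ?_⟩, rfl, rfl⟩
  · intro K hK hKD
    obtain ⟨r, hr, h1⟩ := bulk_compact hD.isOpen hD.conn hz0 hK hKD
    obtain ⟨r', hr', h2⟩ := short_edges hD.isOpen hK hKD
    obtain ⟨ε', hε', h3⟩ := hloc 1 one_pos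
    filter_upwards [hsmall (r / 2) (by positivity), hsmall r' hr', hsmall (ε' / 2) (by positivity),
      h3] with n e1 e2 e3 e4
    obtain ⟨u, hu⟩ := exists_pt (pos n) z0
    have huV : u ∈ (X n).V := e4.1 u (by linarith)
    have hV : ∀ v, pt (δ n) v ∈ K → v ∈ (X n).V := fun v hv =>
      ((hX n).comp u huV v).2 (h1 (δ n) (pos n) (by linarith) u v (by linarith) hv)
    refine ⟨hV, ?_⟩
    intro e he
    induction e using Sym2.ind with
    | _ x y =>
      obtain ⟨h5, h6⟩ := he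
      obtain ⟨q, rfl⟩ := z2_adj_iff.1 (show Z2.Adj x y from h5)
      have hx : pt (δ n) x ∈ K := h6 x (by simp)
      exact ((hX n).edges _ _).2 ⟨hV x hx, adj_dir.2 (h2 (δ n) (pos n) e2 x q hx)⟩
  · intro ε hε
    refine Eventually.of_forall fun n v hv => ?_
    rw [Metric.infDist_zero_of_mem ((hX n).sub v hv)]
    exact hε
  · intro ε hε
    obtain ⟨ε', _, h⟩ := hloc ε hε
    exact h.mono fun n hn => hn.2.1
  · intro ε hε
    obtain ⟨ε', _, h⟩ := hloc ε hε
    exact h.mono fun n hn => hn.2.2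

/-- Reversed parametrisation. -/
lemma isJD_neg {ρ : ℝ → ℂ} (hJ : IsJD D ρ) : IsJD D (fun t => ρ (-t)) where
  loop := ⟨hJ.loop.cont.comp continuous_neg, fun s t => by
    rw [hJ.loop.inj]
    constructor
    · rintro ⟨n, hn⟩; exact ⟨-n, by push_cast; linarith⟩
    · rintro ⟨n, hn⟩; exact ⟨-n, by push_cast; linarith⟩⟩
  isOpen := hJ.isOpen
  conn := hJ.conn
  bdd := hJ.bdd
  fr := by
    rw [hJ.fr]
    ext x
    constructor
    · rintro ⟨t, rfl⟩; exact ⟨-t, by simp⟩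
    · rintro ⟨t, rfl⟩; exact ⟨-t, rfl⟩

/-- A parametrisation for which the marked points are reached in the right order and which does not
turn negatively around `z0`. -/
lemma exists_param (h : IsJordanDomain D) {a b z0 : ℂ} (ha : a ∈ frontier D)
    (hb : b ∈ frontier D) (hne : a ≠ b) (hz0 : z0 ∈ D) :
    ∃ (ρ L : ℝ → ℂ) (W sa sb : ℝ), IsJD D ρ ∧ Continuous L ∧
      (∀ t, Complex.exp (L t) = ρ t - z0) ∧ (∀ t, (L (t + 2 * π)).im = (L t).im + W) ∧ 0 ≤ W ∧
      sa < sb ∧ sb < sa + 2 * π ∧ ρ sa = a ∧ ρ sb = b := by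
  obtain ⟨ρ, hJ⟩ := exists_loop h
  have hcont : Continuous fun t => ρ t - z0 := hJ.loop.cont.sub continuous_const
  obtain ⟨L, hLc, hL⟩ := exists_log_real hcont fun t h0 => by
    have h1 : ρ t = z0 := sub_eq_zero.1 h0
    exact hJ.notMem hz0 ⟨t, h1⟩
  obtain ⟨W, hW⟩ := lift_period hJ.loop hLc hL
  rw [hJ.fr] at ha hb
  obtain ⟨sa, rfl⟩ := ha
  obtain ⟨tb, rfl⟩ := hb
  obtain ⟨sb, ⟨h1, h2⟩, h3⟩ := hJ.loop.exists_mem_Ico sa tb
  have h4 : sa < sb := by
    rcases h1.eq_or_lt with h5 | h5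
    · rw [h5, h3] at hne; exact absurd rfl hne
    · exact h5
  rcases le_total 0 W with hW0 | hW0
  · exact ⟨ρ, L, W, sa, sb, hJ, hLc, hL, hW, hW0, h4, h2, rfl, h3⟩
  · refine ⟨fun t => ρ (-t), fun t => L (-t), -W, -sa, -sb + 2 * π, isJD_neg hJ,
      hLc.comp continuous_neg, fun t => hL (-t), fun t => ?_, by linarith, by linarith,
      by linarith, by simp, ?_⟩
    · have h5 := hW (-(t + 2 * π))
      have h6 : -(t + 2 * π) + 2 * π = -t := by ring
      rw [h6] at h5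
      simp only
      linarith
    · simp only
      rw [← h3]
      have h5 := hJ.loop.add_int sb (-1)
      rw [← h5]
      congr 1
      push_cast; ring

/-- **Corollary A.** For every bounded Jordan domain `D` and distinct boundary points `a`, `b` one of
the two boundary arcs is `A₁` and the other `A₂` so that the following holds: for every sequence of
meshes `δ n → 0`, components `X n` of the part of `δ n ℤ²` in `D` (vertices in `D` and nearest-neighbour
edges contained in `D`) and outer corners of `X n` whose vertices converge to `a` and `b`, the sequence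
is an approximating sequence of `(D; a, b)` with wired arc `A₁` and dual arc `A₂`. -/
theorem corollaryA (h : IsJordanDomain D) {a b : ℂ} (ha : a ∈ frontier D) (hb : b ∈ frontier D)
    (hne : a ≠ b) :
    ∃ A₁ A₂ : Set ℂ, IsArcs D a b A₁ A₂ ∧ ∀ (δ : ℕ → ℝ) (X : ℕ → DDomain), (∀ n, 0 < δ n) →
      Tendsto δ atTop (𝓝 0) → (∀ n, IsComponent D (δ n) (X n).V (X n).E) →
      Tendsto (fun n => pt (δ n) (X n).α.1) atTop (𝓝 a) →
      Tendsto (fun n => pt (δ n) (X n).β.1) atTop (𝓝 b) →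
      ∃ A : Approx D a b A₁ A₂, A.δ = δ ∧ A.X = X := by
  obtain ⟨z0, hz0⟩ := h.2.1.nonempty
  obtain ⟨ρ, L, W, sa, sb, hJ, hLc, hL, hW, hW0, h1, h2, rfl, rfl⟩ :=
    exists_param h ha hb hne hz0
  refine ⟨ρ '' Icc sa sb, ρ '' Icc sb (sa + 2 * π), ?_, ?_⟩
  · exact ⟨(hJ.loop.arc_compact _ _).isClosed, (hJ.loop.arc_compact _ _).isClosed,
      ⟨⟨ρ sa, sa, ⟨le_rfl, h1.le⟩, rfl⟩, hJ.loop.arc_preconnected _ _⟩,
      ⟨⟨ρ sb, sb, ⟨le_rfl, h2.le⟩, rfl⟩, hJ.loop.arc_preconnected _ _⟩,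
      by rw [hJ.fr, hJ.loop.range_eq_union h1.le h2.le], hJ.loop.inter_arcs h1 h2⟩
  · intro δ X pos lim hX limα limβ
    exact approx_of_param (jTop h) hJ hz0 hLc hL hW hW0 h1 h2 δ X pos lim hX limα limβ

end Pool.Agent.H42.MJ
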