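import Pool.Agent.H42.MJ.Orient

set_option autoImplicit false
open Set Topology Filter
open scoped Real
open Pool.Agent.H81.Q1

/-! # The component of the bulk -/

namespace Pool.Agent.H42.MJ

open Pool.Agent.H14.Jordan

variable {D : Set ℂ} {δ : ℝ}

/-- Lattice points in a box contained in `D` are joined. -/
lemma box_reach (hδ : 0 < δ) {x : ℂ} {s : ℝ}
    (hQ : ∀ z : ℂ, |z.re - x.re| ≤ s → |z.im - x.im| ≤ s → z ∈ D) :
    ∀ (n : ℕ) (u v : ℤ × ℤ), (v.1 - u.1).natAbs + (v.2 - u.2).natAbs = n →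
      |(pt δ u).re - x.re| ≤ s → |(pt δ u).im - x.im| ≤ s →
      |(pt δ v).re - x.re| ≤ s → |(pt δ v).im - x.im| ≤ s → (GD D δ).Reachable u v := by
  intro n
  induction n with
  | zero =>
    intro u v h _ _ _ _
    have : u = v := Prod.ext (by omega) (by omega)
    rw [this]
  | succ n ih =>
    intro u v h h1 h2 h3 h4
    simp only [pt] at h1 h2 h3 h4
    rw [abs_le] at h1 h2 h3 h4
    -- one step
    have step : ∀ q : ZMod 4, (∀ σ : ℝ, 0 ≤ σ → σ ≤ 1 → rp δ u q σ 0 ∈ D) →
        (v.1 - (u + dir q).1).natAbs + (v.2 - (u + dir q).2).natAbs = n →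
        |(pt δ (u + dir q)).re - x.re| ≤ s → |(pt δ (u + dir q)).im - x.im| ≤ s →
        (GD D δ).Reachable u v := by
      intro q hq h5 h6 h7
      refine (adj_dir.2 hq).reachable.trans (ih _ _ h5 h6 h7 ?_ ?_)
      · simp only [pt]; exact abs_le.2 h3
      · simp only [pt]; exact abs_le.2 h4
    by_cases c1 : u.1 = v.1
    · rcases lt_or_gt_of_ne (show u.2 ≠ v.2 by omega) with c2 | c2
      · have e1 : (u.2 : ℝ) + 1 ≤ v.2 := by exact_mod_cast c2
        have e2 : δ * ((u.2 : ℝ) + 1) ≤ δ * v.2 := mul_le_mul_of_nonneg_left e1 hδ.le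
        refine step 1 (fun σ h0 h5 => hQ _ ?_ ?_) ?_ ?_ ?_
        · simp only [rp, dir_1, abs_le]; push_cast; constructor <;> nlinarith
        · have e3 : 0 ≤ δ * σ := mul_nonneg hδ.le h0
          have e4 : δ * σ ≤ δ := mul_le_of_le_one_right hδ.le h5
          simp only [rp, dir_1, abs_le]; push_cast; constructor <;> nlinarith
        · simp only [dir_1, Prod.fst_add, Prod.snd_add]; omega
        · simp only [pt, dir_1, abs_le, Prod.fst_add]; push_cast; constructor <;> nlinarith
        · simp only [pt, dir_1, abs_le, Prod.snd_add]; push_cast; constructor <;> nlinarith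
      · have e1 : (v.2 : ℝ) + 1 ≤ u.2 := by exact_mod_cast c2
        have e2 : δ * ((v.2 : ℝ) + 1) ≤ δ * u.2 := mul_le_mul_of_nonneg_left e1 hδ.le
        refine step 3 (fun σ h0 h5 => hQ _ ?_ ?_) ?_ ?_ ?_
        · simp only [rp, dir_3, abs_le]; push_cast; constructor <;> nlinarith
        · have e3 : 0 ≤ δ * σ := mul_nonneg hδ.le h0
          have e4 : δ * σ ≤ δ := mul_le_of_le_one_right hδ.le h5
          simp only [rp, dir_3, abs_le]; push_cast; constructor <;> nlinarith
        · simp only [dir_3, Prod.fst_add, Prod.snd_add]; omega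
        · simp only [pt, dir_3, abs_le, Prod.fst_add]; push_cast; constructor <;> nlinarith
        · simp only [pt, dir_3, abs_le, Prod.snd_add]; push_cast; constructor <;> nlinarith
    · rcases lt_or_gt_of_ne c1 with c2 | c2
      · have e1 : (u.1 : ℝ) + 1 ≤ v.1 := by exact_mod_cast c2
        have e2 : δ * ((u.1 : ℝ) + 1) ≤ δ * v.1 := mul_le_mul_of_nonneg_left e1 hδ.le
        refine step 0 (fun σ h0 h5 => hQ _ ?_ ?_) ?_ ?_ ?_
        · have e3 : 0 ≤ δ * σ := mul_nonneg hδ.le h0
          have e4 : δ * σ ≤ δ := mul_le_of_le_one_right hδ.le h5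
          simp only [rp, dir_0, abs_le]; push_cast; constructor <;> nlinarith
        · simp only [rp, dir_0, abs_le]; push_cast; constructor <;> nlinarith
        · simp only [dir_0, Prod.fst_add, Prod.snd_add]; omega
        · simp only [pt, dir_0, abs_le, Prod.fst_add]; push_cast; constructor <;> nlinarith
        · simp only [pt, dir_0, abs_le, Prod.snd_add]; push_cast; constructor <;> nlinarith
      · have e1 : (v.1 : ℝ) + 1 ≤ u.1 := by exact_mod_cast c2
        have e2 : δ * ((v.1 : ℝ) + 1) ≤ δ * u.1 := mul_le_mul_of_nonneg_left e1 hδ.le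
        refine step 2 (fun σ h0 h5 => hQ _ ?_ ?_) ?_ ?_ ?_
        · have e3 : 0 ≤ δ * σ := mul_nonneg hδ.le h0
          have e4 : δ * σ ≤ δ := mul_le_of_le_one_right hδ.le h5
          simp only [rp, dir_2, abs_le]; push_cast; constructor <;> nlinarith
        · simp only [rp, dir_2, abs_le]; push_cast; constructor <;> nlinarith
        · simp only [dir_2, Prod.fst_add, Prod.snd_add]; omega
        · simp only [pt, dir_2, abs_le, Prod.fst_add]; push_cast; constructor <;> nlinarith
        · simp only [pt, dir_2, abs_le, Prod.snd_add]; push_cast; constructor <;> nlinarith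

/-- Lattice points in a ball whose double is contained in `D` are joined. -/
lemma ball_reach (hδ : 0 < δ) {x : ℂ} {r : ℝ} (hQ : Metric.ball x (2 * r) ⊆ D) {u v : ℤ × ℤ}
    (hu : ‖pt δ u - x‖ < r) (hv : ‖pt δ v - x‖ < r) : (GD D δ).Reachable u v := by
  set s := max ‖pt δ u - x‖ ‖pt δ v - x‖ with hs
  have hsr : s < r := max_lt hu hv
  have key : ∀ w : ℂ, ‖w - x‖ ≤ s → |w.re - x.re| ≤ s ∧ |w.im - x.im| ≤ s := by
    intro w hw
    rw [← Complex.sub_re, ← Complex.sub_im]
    exact ⟨(Complex.abs_re_le_norm _).trans hw, (Complex.abs_im_le_norm _).trans hw⟩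
  refine box_reach hδ (x := x) (s := s) ?_ _ u v rfl (key _ (le_max_left _ _)).1
    (key _ (le_max_left _ _)).2 (key _ (le_max_right _ _)).1 (key _ (le_max_right _ _)).2
  intro z h1 h2
  apply hQ
  rw [Metric.mem_ball, dist_eq_norm]
  refine (Complex.norm_le_abs_re_add_abs_im _).trans_lt ?_
  rw [Complex.sub_re, Complex.sub_im]
  linarith

lemma exists_pt (hδ : 0 < δ) (y : ℂ) : ∃ v : ℤ × ℤ, ‖pt δ v - y‖ ≤ 2 * δ := by
  obtain ⟨f, h1, h2, h3, h4⟩ := exists_sq hδ y
  refine ⟨f, (Complex.norm_le_abs_re_add_abs_im _).trans ?_⟩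
  simp only [Complex.sub_re, Complex.sub_im, pt]
  have e1 : |δ * (f.1 : ℝ) - y.re| ≤ δ := by rw [abs_le]; constructor <;> linarith
  have e2 : |δ * (f.2 : ℝ) - y.im| ≤ δ := by rw [abs_le]; constructor <;> linarith
  linarith

/-- Lattice points near two given points of `D` are joined. -/
theorem bulk_near (hD : IsOpen D) (hc : IsPreconnected D) {x y : ℂ} (hx : x ∈ D) (hy : y ∈ D) :
    ∃ r > 0, ∀ δ, 0 < δ → δ < r → ∀ u v : ℤ × ℤ, ‖pt δ u - x‖ < r → ‖pt δ v - y‖ < r →
      (GD D δ).Reachable u v := by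
  refine hc.induction₂ (fun x y => ∃ r > 0, ∀ δ, 0 < δ → δ < r → ∀ u v : ℤ × ℤ,
    ‖pt δ u - x‖ < r → ‖pt δ v - y‖ < r → (GD D δ).Reachable u v) ?_ ?_ ?_ hx hy
  · intro x hx
    obtain ⟨ρ, hρ, hball⟩ := Metric.isOpen_iff.1 hD x hx
    refine Filter.Eventually.filter_mono nhdsWithin_le_nhds ?_
    filter_upwards [Metric.ball_mem_nhds x (show 0 < ρ / 8 by positivity)] with y hy
    rw [Metric.mem_ball, dist_eq_norm] at hy
    refine ⟨ρ / 8, by positivity, fun δ hδ hδr u v hu hv => ?_⟩
    refine ball_reach hδ (x := x) (r := ρ / 2) (by convert hball using 2; ring) (by linarith) ?_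
    have := norm_add_le (pt δ v - y) (y - x)
    rw [sub_add_sub_cancel] at this
    linarith
  · rintro x y z - - - ⟨r, hr, h1⟩ ⟨r', hr', h2⟩
    refine ⟨min r r' / 3, by positivity, fun δ hδ hδr u v hu hv => ?_⟩
    have e1 := min_le_left r r'
    have e2 := min_le_right r r'
    have e3 : 0 < min r r' := lt_min hr hr'
    obtain ⟨w, hw⟩ := exists_pt hδ y
    exact (h1 δ hδ (by linarith) u w (by linarith) (by linarith)).trans
      (h2 δ hδ (by linarith) w v (by linarith) (by linarith))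
  · rintro x y - - ⟨r, hr, h1⟩
    exact ⟨r, hr, fun δ hδ hδr u v hu hv => (h1 δ hδ hδr v u hv hu).symm⟩

/-- The lattice points in a compact subset of `D` are joined to those near `z0`. -/
theorem bulk_compact (hD : IsOpen D) (hc : IsPreconnected D) {z0 : ℂ} (hz0 : z0 ∈ D) {K : Set ℂ}
    (hK : IsCompact K) (hKD : K ⊆ D) :
    ∃ r > 0, ∀ δ, 0 < δ → δ < r → ∀ u v : ℤ × ℤ, ‖pt δ u - z0‖ < r → pt δ v ∈ K →
      (GD D δ).Reachable u v := by
  refine hK.induction_on (p := fun K => ∃ r > 0, ∀ δ, 0 < δ → δ < r → ∀ u v : ℤ × ℤ,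
    ‖pt δ u - z0‖ < r → pt δ v ∈ K → (GD D δ).Reachable u v) ?_ ?_ ?_ ?_
  · exact ⟨1, one_pos, fun δ _ _ u v _ hv => hv.elim⟩
  · rintro s t hst ⟨r, hr, h⟩
    exact ⟨r, hr, fun δ hδ hδr u v hu hv => h δ hδ hδr u v hu (hst hv)⟩
  · rintro s t ⟨r, hr, h⟩ ⟨r', hr', h'⟩
    refine ⟨min r r', lt_min hr hr', fun δ hδ hδr u v hu hv => ?_⟩
    rcases hv with hv | hv
    · exact h δ hδ (hδr.trans_le (min_le_left _ _)) u v (hu.trans_le (min_le_left _ _)) hv
    · exact h' δ hδ (hδr.trans_le (min_le_right _ _)) u v (hu.trans_le (min_le_right _ _)) hv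
  · intro y hy
    obtain ⟨r, hr, h⟩ := bulk_near hD hc hz0 (hKD hy)
    refine ⟨Metric.ball y r, mem_nhdsWithin_of_mem_nhds (Metric.ball_mem_nhds y hr), r, hr,
      fun δ hδ hδr u v hu hv => h δ hδ hδr u v hu ?_⟩
    rwa [Metric.mem_ball, dist_eq_norm] at hv

/-- Short edges with both ends in a compact subset of `D` are contained in `D`. -/
theorem short_edges (hD : IsOpen D) {K : Set ℂ} (hK : IsCompact K) (hKD : K ⊆ D) :
    ∃ r > 0, ∀ δ, 0 < δ → δ < r → ∀ (v : ℤ × ℤ) (q : ZMod 4), pt δ v ∈ K → op D δ v q := by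
  obtain ⟨r, hr, hth⟩ := hK.exists_thickening_subset_open hD hKD
  refine ⟨r, hr, fun δ hδ hδr v q hv s h0 h1 => hth ?_⟩
  rw [Metric.mem_thickening_iff]
  refine ⟨pt δ v, hv, ?_⟩
  rw [dist_eq_norm, ← rp_zero v q]
  refine (norm_rp_sub v q _ _ _ _).trans_lt ?_
  rw [abs_of_pos hδ, sub_zero, sub_zero, abs_zero, add_zero, abs_of_nonneg h0]
  exact (mul_le_of_le_one_right hδ.le h1).trans_lt hδr

/-- **The bulk comes close to every boundary point.** -/
theorem approach (hD : JTop D) {z0 : ℂ} (hz0 : z0 ∈ D) {m : ℂ} (hm : m ∈ frontier D) {ε : ℝ}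
    (hε : 0 < ε) : ∃ r > 0, ∀ δ, 0 < δ → δ < r → ∀ u : ℤ × ℤ, ‖pt δ u - z0‖ < r →
      ∃ v q, (GD D δ).Reachable u v ∧ ¬op D δ v q ∧ ‖pt δ v - m‖ < ε := by
  have hmD : m ∉ D := by
    rw [hD.isOpen.frontier_eq] at hm; exact hm.2
  obtain ⟨y, hy, hyD⟩ := Metric.mem_closure_iff.1 (frontier_subset_closure hm) (ε / 8)
    (by positivity)
  rw [dist_comm, dist_eq_norm] at hyD
  obtain ⟨r, hr, h⟩ := bulk_near hD.isOpen hD.conn hz0 hy
  refine ⟨min r (ε / 8) / 4, by positivity, fun δ hδ hδr u hu => ?_⟩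
  have e1 := min_le_left r (ε / 8)
  have e2 := min_le_right r (ε / 8)
  have e0 : 0 < min r (ε / 8) := by positivity
  obtain ⟨v0, hv0⟩ := exists_pt hδ y
  have hr0 : (GD D δ).Reachable u v0 := h δ hδ (by linarith) u v0 (by linarith) (by linarith)
  have hv0m : ‖pt δ v0 - m‖ < ε / 4 := by
    have := norm_add_le (pt δ v0 - y) (y - m)
    rw [sub_add_sub_cancel] at this
    linarith
  by_contra hcon
  push Not at hcon
  -- all lattice points in the box around `m` are reachable
  have hall : ∀ (n : ℕ) (v : ℤ × ℤ), (v.1 - v0.1).natAbs + (v.2 - v0.2).natAbs = n →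
      |(pt δ v).re - m.re| ≤ ε / 4 → |(pt δ v).im - m.im| ≤ ε / 4 →
      (GD D δ).Reachable u v := by
    have hb0 : |(pt δ v0).re - m.re| ≤ ε / 4 ∧ |(pt δ v0).im - m.im| ≤ ε / 4 := by
      rw [← Complex.sub_re, ← Complex.sub_im]
      exact ⟨(Complex.abs_re_le_norm _).trans hv0m.le, (Complex.abs_im_le_norm _).trans hv0m.le⟩
    simp only [pt] at hb0
    rw [abs_le, abs_le] at hb0
    intro n
    induction n with
    | zero =>
      intro v hv _ _
      have : v = v0 := Prod.ext (by omega) (by omega)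
      rw [this]; exact hr0
    | succ n ih =>
      intro v hv h1 h2
      simp only [pt] at h1 h2
      rw [abs_le] at h1 h2
      have step : ∀ q : ZMod 4, ((v + dir q).1 - v0.1).natAbs + ((v + dir q).2 - v0.2).natAbs = n →
          |(pt δ (v + dir q)).re - m.re| ≤ ε / 4 → |(pt δ (v + dir q)).im - m.im| ≤ ε / 4 →
          (GD D δ).Reachable u v := by
        intro q h3 h4 h5
        have h6 := ih _ h3 h4 h5
        have h7 : op D δ (v + dir q) (q + 2) := by
          by_contra hno
          refine absurd (hcon _ _ h6 hno) (not_le.2 ?_)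
          refine (Complex.norm_le_abs_re_add_abs_im _).trans_lt ?_
          rw [Complex.sub_re, Complex.sub_im]
          linarith
        exact h6.trans (adj_dir.2 (op_rev.1 h7)).symm.reachable
      by_cases c1 : v.1 = v0.1
      · rcases lt_or_gt_of_ne (show v.2 ≠ v0.2 by omega) with c2 | c2
        · have k1 : (v.2 : ℝ) + 1 ≤ v0.2 := by exact_mod_cast c2
          have k2 : δ * ((v.2 : ℝ) + 1) ≤ δ * v0.2 := mul_le_mul_of_nonneg_left k1 hδ.le
          refine step 1 ?_ ?_ ?_
          · simp only [dir_1, Prod.fst_add, Prod.snd_add]; omega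
          · simp only [pt, dir_1, abs_le, Prod.fst_add]; push_cast; constructor <;> nlinarith
          · simp only [pt, dir_1, abs_le, Prod.snd_add]; push_cast; constructor <;> nlinarith
        · have k1 : (v0.2 : ℝ) + 1 ≤ v.2 := by exact_mod_cast c2
          have k2 : δ * ((v0.2 : ℝ) + 1) ≤ δ * v.2 := mul_le_mul_of_nonneg_left k1 hδ.le
          refine step 3 ?_ ?_ ?_
          · simp only [dir_3, Prod.fst_add, Prod.snd_add]; omega
          · simp only [pt, dir_3, abs_le, Prod.fst_add]; push_cast; constructor <;> nlinarith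
          · simp only [pt, dir_3, abs_le, Prod.snd_add]; push_cast; constructor <;> nlinarith
      · rcases lt_or_gt_of_ne c1 with c2 | c2
        · have k1 : (v.1 : ℝ) + 1 ≤ v0.1 := by exact_mod_cast c2
          have k2 : δ * ((v.1 : ℝ) + 1) ≤ δ * v0.1 := mul_le_mul_of_nonneg_left k1 hδ.le
          refine step 0 ?_ ?_ ?_
          · simp only [dir_0, Prod.fst_add, Prod.snd_add]; omega
          · simp only [pt, dir_0, abs_le, Prod.fst_add]; push_cast; constructor <;> nlinarith
          · simp only [pt, dir_0, abs_le, Prod.snd_add]; push_cast; constructor <;> nlinarith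
        · have k1 : (v0.1 : ℝ) + 1 ≤ v.1 := by exact_mod_cast c2
          have k2 : δ * ((v0.1 : ℝ) + 1) ≤ δ * v.1 := mul_le_mul_of_nonneg_left k1 hδ.le
          refine step 2 ?_ ?_ ?_
          · simp only [dir_2, Prod.fst_add, Prod.snd_add]; omega
          · simp only [pt, dir_2, abs_le, Prod.fst_add]; push_cast; constructor <;> nlinarith
          · simp only [pt, dir_2, abs_le, Prod.snd_add]; push_cast; constructor <;> nlinarith
  -- the square of `m` is inner
  obtain ⟨g, hg⟩ := exists_sq hδ m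
  obtain ⟨g1, g2, g3, g4⟩ := hg
  have hin : ∀ (w : ℤ × ℤ) (q : ZMod 4), (w.1 = g.1 ∨ w.1 = g.1 + 1) →
      (w.2 = g.2 ∨ w.2 = g.2 + 1) → op D δ w q := by
    intro w q hw1 hw2
    have k1 : |(pt δ w).re - m.re| ≤ δ := by
      simp only [pt, abs_le]
      rcases hw1 with h | h <;> rw [h] <;> push_cast <;> constructor <;> linarith
    have k2 : |(pt δ w).im - m.im| ≤ δ := by
      simp only [pt, abs_le]
      rcases hw2 with h | h <;> rw [h] <;> push_cast <;> constructor <;> linarith
    by_contra hno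
    refine absurd (hcon w q (hall _ w rfl (by linarith) (by linarith)) hno) (not_le.2 ?_)
    refine (Complex.norm_le_abs_re_add_abs_im _).trans_lt ?_
    rw [Complex.sub_re, Complex.sub_im]
    linarith
  have hinn : Inn D δ g := by
    refine ⟨hin _ _ (Or.inl rfl) (Or.inl rfl), hin _ _ (Or.inr rfl) (Or.inl ?_),
      hin _ _ (Or.inr rfl) (Or.inr rfl), hin _ _ (Or.inl ?_) (Or.inr rfl)⟩ <;> simp
  -- but it is joined to infinity off the domain
  set E : Set (Sym2 (ℤ × ℤ)) := (GD D δ).edgeSet with hE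
  obtain ⟨f, hf1, hf2⟩ := far_of_mem (E := E) hδ (fun u v h => h) hD.compl hD.bdd hmD
    ⟨g1, g2, g3, g4⟩ (|g.1| + |g.2| + 1)
  rcases hf1.cases_head with h3 | ⟨g', h3, -⟩
  · have h4 : g = f := h3
    rw [← h4] at hf2; omega
  · obtain ⟨o1, o2, o3, o4⟩ := hinn
    rcases h3 with ⟨-, h3⟩ | ⟨-, h3⟩ | ⟨-, h3⟩ | ⟨-, h3⟩
    · apply h3
      have := adj_dir.2 o2
      rw [hE, SimpleGraph.mem_edgeSet]
      convert this using 1 <;> ext <;> simp [dir_1]
    · apply h3
      have := (adj_dir.2 o4).symm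
      rw [hE, SimpleGraph.mem_edgeSet]
      convert this using 1 <;> ext <;> simp [dir_3]
    · apply h3
      have := (adj_dir.2 o3).symm
      rw [hE, SimpleGraph.mem_edgeSet]
      convert this using 1 <;> ext <;> simp [dir_2]
    · apply h3
      have := adj_dir.2 o1
      rw [hE, SimpleGraph.mem_edgeSet]
      convert this using 1; ext <;> simp [dir_0]

end Pool.Agent.H42.MJ
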