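import Mathlib

set_option autoImplicit false
open Set Topology Filter

/-! # Crosscuts by continua, from Janiszewski's theorem -/

namespace Pool.Agent.H42.MJ

/-- Janiszewski's theorem (statement). -/
def Jan : Prop := ∀ A B : Set ℂ, IsCompact A → IsCompact B → IsPreconnected (A ∩ B) →
  ∀ z w : ℂ, (∃ S : Set ℂ, IsPreconnected S ∧ z ∈ S ∧ w ∈ S ∧ S ⊆ Aᶜ) →
    (∃ S : Set ℂ, IsPreconnected S ∧ z ∈ S ∧ w ∈ S ∧ S ⊆ Bᶜ) →
    ∃ S : Set ℂ, IsPreconnected S ∧ z ∈ S ∧ w ∈ S ∧ S ⊆ (A ∪ B)ᶜ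

/-- What is used about a bounded Jordan domain. -/
structure JTop (D : Set ℂ) : Prop where
  isOpen : IsOpen D
  conn : IsPreconnected D
  bdd : Bornology.IsBounded D
  ext : IsPreconnected (closure D)ᶜ
  extc : frontier D ⊆ closure (closure D)ᶜ

variable {D : Set ℂ}

lemma JTop.compl (h : JTop D) : IsPreconnected Dᶜ := by
  have h1 : Dᶜ = closure (closure D)ᶜ := by
    apply Subset.antisymm
    · intro w hw
      by_cases hc : w ∈ closure D
      · exact h.extc ⟨hc, fun h' => hw (interior_subset h')⟩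
      · exact subset_closure hc
    · rw [closure_compl]
      exact compl_subset_compl.2 (interior_maximal subset_closure h.isOpen)
  rw [h1]
  exact h.ext.closure

lemma meet_frontier {S : Set ℂ} (hD : IsOpen D) (hS : IsPreconnected S) {z w : ℂ} (hz : z ∈ S)
    (hzD : z ∈ D) (hw : w ∈ S) (hwD : w ∉ D) : ∃ v ∈ S, v ∈ frontier D := by
  by_contra hcon
  push Not at hcon
  have ho : IsOpen (closure D)ᶜ := isClosed_closure.isOpen_compl
  refine hwD (hS.subset_left_of_subset_union hD ho ?_ ?_ ⟨z, hz, hzD⟩ hw)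
  · exact Set.disjoint_left.2 fun v h1 h2 => h2 (subset_closure h1)
  · intro v hv
    by_cases h : v ∈ closure D
    · left
      by_contra h'
      exact hcon v hv (by rw [hD.frontier_eq]; exact ⟨h, h'⟩)
    · exact Or.inr h

/-- **A continuum in a Jordan domain through two boundary points separates the arcs.** -/
theorem cross_sep (hJ : Jan) (hD : JTop D) {P A B : Set ℂ} {x y : ℂ} (hP : IsCompact P)
    (hPc : IsPreconnected P) (hx : x ∈ P) (hy : y ∈ P) (hPD : P ⊆ D ∪ {x, y}) (hA : IsClosed A)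
    (hB : IsClosed B) (hAB : A ∪ B = frontier D) (hi : A ∩ B = {x, y}) {Z : Set ℂ}
    (hZ : IsPreconnected Z) (hZD : Z ⊆ D) (hZP : ∀ z ∈ Z, z ∉ P) {p q : ℂ}
    (hp : p ∈ closure Z) (hq : q ∈ closure Z) (hpA : p ∈ A) (hpB : p ∉ B) (hqB : q ∈ B)
    (hqA : q ∉ A) : False := by
  have hfc : IsCompact (frontier D) :=
    Metric.isCompact_of_isClosed_isBounded isClosed_frontier
      (hD.bdd.closure.subset frontier_subset_closure)
  have hAf : A ⊆ frontier D := by rw [← hAB]; exact subset_union_left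
  have hBf : B ⊆ frontier D := by rw [← hAB]; exact subset_union_right
  have hAc : IsCompact A := hfc.of_isClosed_subset hA hAf
  have hBc : IsCompact B := hfc.of_isClosed_subset hB hBf
  have hDf : ∀ w ∈ D, w ∉ frontier D := by
    intro w hw hf
    rw [hD.isOpen.frontier_eq] at hf
    exact hf.2 hw
  have hPcl : P ⊆ closure D := by
    intro w hw
    rcases hPD hw with h | h
    · exact subset_closure h
    · have h2 : w ∈ A ∩ B := by rw [hi]; exact h
      exact frontier_subset_closure (hAf h2.1)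
  obtain ⟨z, hz⟩ : Z.Nonempty := by
    rw [← closure_nonempty_iff]; exact ⟨p, hp⟩
  -- one side
  have side : ∀ (C : Set ℂ) (r : ℂ), IsClosed C → C ⊆ frontier D → r ∈ closure Z →
      r ∈ frontier D → r ∉ C → r ∉ ({x, y} : Set ℂ) → ∃ T : Set ℂ, IsPreconnected T ∧ z ∈ T ∧
      (closure D)ᶜ ⊆ T ∧ T ⊆ (P ∪ C)ᶜ := by
    intro C r hC hCf hrZ hrf hrC hrxy
    have hrP : r ∉ P := by
      intro h
      rcases hPD h with h | h
      · exact hDf r h hrf
      · exact hrxy h
    have hcl : IsClosed (P ∪ C) := hP.isClosed.union hC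
    obtain ⟨ρ, hρ, hball⟩ := Metric.isOpen_iff.1 hcl.isOpen_compl r
      (fun h => h.elim hrP hrC)
    have hb : IsPreconnected (Metric.ball r ρ) := (convex_ball r ρ).isPreconnected
    obtain ⟨z1, hz1⟩ : (Z ∩ Metric.ball r ρ).Nonempty := by
      rw [inter_comm]
      exact mem_closure_iff.1 hrZ _ Metric.isOpen_ball (Metric.mem_ball_self hρ)
    obtain ⟨z2, hz2⟩ : (Metric.ball r ρ ∩ (closure D)ᶜ).Nonempty :=
      mem_closure_iff.1 (hD.extc hrf) _ Metric.isOpen_ball (Metric.mem_ball_self hρ)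
    refine ⟨Z ∪ (Metric.ball r ρ ∪ (closure D)ᶜ), ?_, Or.inl hz, ?_, ?_⟩
    · exact hZ.union z1 hz1.1 (Or.inl hz1.2) (hb.union z2 hz2.1 hz2.2 hD.ext)
    · exact fun w hw => Or.inr (Or.inr hw)
    · rintro w (hw | hw | hw) hcon
      · rcases hcon with h | h
        · exact hZP w hw h
        · exact hDf w (hZD hw) (hCf h)
      · exact hball hw hcon
      · rcases hcon with h | h
        · exact hw (hPcl h)
        · exact hw (frontier_subset_closure (hCf h))
  have hpxy : p ∉ ({x, y} : Set ℂ) := by rw [← hi]; exact fun h => hpB h.2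
  have hqxy : q ∉ ({x, y} : Set ℂ) := by rw [← hi]; exact fun h => hqA h.1
  obtain ⟨T1, t1, t2, t3, t4⟩ := side B p hB hBf hp (hAf hpA) hpB hpxy
  obtain ⟨T2, s1, s2, s3, s4⟩ := side A q hA hAf hq (hBf hqB) hqA hqxy
  obtain ⟨w, hw⟩ : ((closure D)ᶜ).Nonempty := by
    rw [← closure_nonempty_iff]; exact ⟨p, hD.extc (hAf hpA)⟩
  have hint : (P ∪ B) ∩ (P ∪ A) = P := by
    rw [← union_inter_distrib_left, inter_comm B A, hi, union_eq_left]
    rintro w (rfl | rfl)
    · exact hx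
    · exact hy
  obtain ⟨S, u1, u2, u3, u4⟩ := hJ (P ∪ B) (P ∪ A) (hP.union hBc) (hP.union hAc)
    (by rw [hint]; exact hPc) z w ⟨T1, t1, t2, t3 hw, t4⟩ ⟨T2, s1, s2, s3 hw, s4⟩
  obtain ⟨v, hv1, hv2⟩ := meet_frontier hD.isOpen u1 u2 (hZD hz) u3
    (fun h => hw (subset_closure h))
  refine u4 hv1 ?_
  rw [← hAB] at hv2
  rcases hv2 with h | h
  · exact Or.inr (Or.inr h)
  · exact Or.inl (Or.inr h)

end Pool.Agent.H42.MJ
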