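import Pool.Agent.H42.MJ.Bulk2

set_option autoImplicit false
open Set Topology Filter
open scoped Real
open Pool.Agent.H81.Q1

/-! # The wired and the dual contour are close to the two arcs -/

namespace Pool.Agent.H42.MJ

open Pool.Agent.H14.Jordan

variable {D : Set ℂ}

lemma near_arc {ρ : ℝ → ℂ} {ε η : ℝ} (hu : ∀ s t, |s - t| < η → dist (ρ s) (ρ t) < ε) {u v u0 v0 : ℝ}
    (h0 : u0 ≤ v0) (h1 : |u - u0| < η) (h2 : |v - v0| < η) {w : ℂ} (hw : w ∈ ρ '' Icc u v) :
    ∃ w' ∈ ρ '' Icc u0 v0, dist w w' < ε := by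
  obtain ⟨τ, hτ, rfl⟩ := hw
  rw [abs_lt] at h1 h2
  refine ⟨_, ⟨max u0 (min τ v0), ⟨le_max_left _ _, max_le h0 (min_le_right _ _)⟩, rfl⟩, hu _ _ ?_⟩
  have h3 := hτ.1
  have h4 := hτ.2
  rw [abs_lt]
  rcases le_total τ v0 with h5 | h5
  · rw [min_eq_left h5]
    rcases le_total τ u0 with h6 | h6
    · rw [max_eq_left h6]; constructor <;> linarith
    · rw [max_eq_right h6]; constructor <;> linarith
  · rw [min_eq_right h5, max_eq_right h0]; constructor <;> linarith

/-- The parameter of a boundary point close to `ρ s0`. -/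
lemma param_near {ρ : ℝ → ℂ} (hJ : IsJD D ρ) {η κ : ℝ}
    (hinv : ∀ s t, dist (ρ s) (ρ t) < κ → ∃ n : ℤ, |s - t - n * (2 * π)| < η) {s0 : ℝ} {x : ℂ}
    (hx : x ∈ frontier D) (hd : dist x (ρ s0) < κ) : ∃ s, |s - s0| < η ∧ x = ρ s := by
  rw [hJ.fr] at hx
  obtain ⟨s', rfl⟩ := hx
  obtain ⟨n, hn⟩ := hinv s' s0 hd
  refine ⟨s' + ((-n : ℤ) : ℝ) * (2 * π), ?_, (hJ.loop.add_int s' (-n)).symm⟩
  convert hn using 2
  push_cast; ring

theorem local_main (hJan : Jan) (hD : JTop D) {ρ : ℝ → ℂ} (hJ : IsJD D ρ) {z0 : ℂ} (hz0 : z0 ∈ D)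
    {L : ℝ → ℂ} (hLc : Continuous L) (hL : ∀ t, Complex.exp (L t) = ρ t - z0) {W : ℝ}
    (hW : ∀ t, (L (t + 2 * π)).im = (L t).im + W) (hW0 : 0 ≤ W) {sa sb : ℝ} (hab : sa < sb)
    (hba : sb < sa + 2 * π) {ε : ℝ} (hε : 0 < ε) :
    ∃ ε' > 0, ∀ δ, 0 < δ → δ < ε' → ∀ X : DDomain, IsComponent D δ X.V X.E →
      ‖pt δ X.α.1 - ρ sa‖ < ε' → ‖pt δ X.β.1 - ρ sb‖ < ε' →
      (∀ u : ℤ × ℤ, ‖pt δ u - z0‖ < ε' → u ∈ X.V) ∧
      (∀ c ∈ X.wired, Metric.infDist (pt δ c.1) (ρ '' Icc sa sb) < ε) ∧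
      (∀ c ∈ X.dual, Metric.infDist (pt δ c.1) (ρ '' Icc sb (sa + 2 * π)) < ε) := by
  have hpi := Real.two_pi_pos
  obtain ⟨ε1, hε1, hbulk⟩ := bulk_mem hJan hD hJ hz0 hab hba
  obtain ⟨ε2, hε2, horient⟩ := orient hJan hD hJ hz0 hLc hL hW hab hba
  obtain ⟨η3, hη3, hunif⟩ := hJ.loop.uniform (ε := ε / 2) (by positivity)
  set η := min (min ε1 ε2) (min η3 (min (sb - sa) (sa + 2 * π - sb) / 4)) with hηd
  have hmin : 0 < min (sb - sa) (sa + 2 * π - sb) := lt_min (by linarith) (by linarith)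
  have hη : 0 < η := by positivity
  have hη1 : η ≤ ε1 := (min_le_left _ _).trans (min_le_left _ _)
  have hη2 : η ≤ ε2 := (min_le_left _ _).trans (min_le_right _ _)
  have hη3' : η ≤ η3 := (min_le_right _ _).trans (min_le_left _ _)
  have hη4 : η ≤ min (sb - sa) (sa + 2 * π - sb) / 4 := (min_le_right _ _).trans (min_le_right _ _)
  have hη5 : 4 * η ≤ sb - sa := by linarith [min_le_left (sb - sa) (sa + 2 * π - sb)]
  have hη6 : 4 * η ≤ sa + 2 * π - sb := by linarith [min_le_right (sb - sa) (sa + 2 * π - sb)]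
  obtain ⟨κ, hκ, hinv⟩ := hJ.loop.uniform_inv hη
  obtain ⟨r3, hr3, hball⟩ := Metric.isOpen_iff.1 hD.isOpen z0 hz0
  obtain ⟨r4, hr4, hshort⟩ := short_edges hD.isOpen (isCompact_closedBall z0 (r3 / 2))
    ((Metric.closedBall_subset_ball (by linarith)).trans hball)
  refine ⟨min (min (ε1 / 3) (ε2 / 3)) (min (κ / 6) (min (ε / 8) (min (r3 / 6) r4))),
    by positivity, ?_⟩
  intro δ hδ hδε X hX hα hβ
  simp only [lt_min_iff] at hδε hα hβ
  obtain ⟨⟨k1, k2⟩, k3, k4, k5, k6⟩ := hδε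
  -- the turns before the marked corners
  obtain ⟨a, aV, aO, acl, r, r1, r2, hra, hropen⟩ := exists_pred hX X.memα X.outα
  obtain ⟨b, bV, bO, bcl, r', r1', r2', hrb, hropen'⟩ := exists_pred hX X.memβ X.outβ
  have near : ∀ (c d : Corner) (j : ℕ), c.1 ∈ X.V → clo D δ c → j ≤ 4 → (next X.E)^[j] c = d →
      ‖xb D δ c.1 c.2 - pt δ d.1‖ ≤ 5 * δ := by
    intro c d j hcV hcl hj hd
    have h1 := norm_iter hX hδ hcV j
    rw [hd] at h1
    have h2 := norm_xb_sub hD.isOpen hδ (hX.sub _ hcV) hcl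
    have h3 : (j : ℝ) ≤ 4 := by exact_mod_cast hj
    have h4 : (j : ℝ) * δ ≤ 4 * δ := mul_le_mul_of_nonneg_right h3 hδ.le
    have h5 := norm_sub_le (xb D δ c.1 c.2 - pt δ c.1) (pt δ d.1 - pt δ c.1)
    rw [sub_sub_sub_cancel_right] at h5
    linarith
  have hna := near a X.α r aV acl r2 hra
  have hnb := near b X.β r' bV bcl r2' hrb
  obtain ⟨s, hs, hxs⟩ := param_near hJ hinv (s0 := sa)
    (xb_mem_frontier hD.isOpen (hX.sub _ aV) acl) (by
      rw [dist_eq_norm]
      have := norm_add_le (xb D δ a.1 a.2 - pt δ X.α.1) (pt δ X.α.1 - ρ sa)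
      rw [sub_add_sub_cancel] at this
      linarith [hα.2.1])
  obtain ⟨t, ht, hxt⟩ := param_near hJ hinv (s0 := sb)
    (xb_mem_frontier hD.isOpen (hX.sub _ bV) bcl) (by
      rw [dist_eq_norm]
      have := norm_add_le (xb D δ b.1 b.2 - pt δ X.β.1) (pt δ X.β.1 - ρ sb)
      rw [sub_add_sub_cancel] at this
      linarith [hβ.2.1])
  have hs' := abs_lt.1 hs
  have ht' := abs_lt.1 ht
  have hst : s < t := by linarith
  have hts : t < s + 2 * π := by linarith
  -- the bulk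
  have hbk : ∀ u : ℤ × ℤ, ‖pt δ u - z0‖ < ε1 → u ∈ X.V :=
    hbulk δ hδ (by linarith) X hX a b aV bV acl bcl s t (hs.trans_le hη1) (ht.trans_le hη1)
      hxs hxt
  -- the time of `b`
  set N := Function.minimalPeriod (next X.E) a with hN
  have hNpos : 0 < N := by
    obtain ⟨i, hi⟩ := orbit_outer X (next_mem hX aV) aV (outer_next aO) aO
    refine Function.IsPeriodicPt.minimalPeriod_pos (n := i + 1) (Nat.succ_pos i) ?_
    unfold Function.IsPeriodicPt Function.IsFixedPt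
    rw [Function.iterate_succ_apply]; exact hi
  have hper : (next X.E)^[N] a = a := Function.isPeriodicPt_minimalPeriod _ _
  obtain ⟨i0, hi0⟩ := orbit_outer X aV bV aO bO
  set m := i0 % N with hm
  have hmN : m < N := Nat.mod_lt _ hNpos
  have hmb : (next X.E)^[m] a = b := by
    rw [hm, hN, Function.iterate_mod_minimalPeriod_eq, hi0]
  have hm0 : 0 < m := by
    rcases Nat.eq_zero_or_pos m with h | h
    · exfalso
      rw [h] at hmb
      have h1 : a = b := hmb
      rw [h1, hxt] at hxs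
      have h2 := hJ.loop.injOn (a := s) (b := t) hts ⟨hst.le, le_rfl⟩ ⟨le_rfl, hst.le⟩ hxs
      linarith
    · exact h
  -- the face
  obtain ⟨g, hg⟩ := exists_sq hδ z0
  obtain ⟨g1, g2, g3, g4⟩ := hg
  have hgpt : ‖pt δ g - z0‖ ≤ 2 * δ := by
    refine (Complex.norm_le_abs_re_add_abs_im _).trans ?_
    simp only [Complex.sub_re, Complex.sub_im, pt]
    have e1 : |δ * (g.1 : ℝ) - z0.re| ≤ δ := by rw [abs_le]; constructor <;> linarith
    have e2 : |δ * (g.2 : ℝ) - z0.im| ≤ δ := by rw [abs_le]; constructor <;> linarith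
    linarith
  have hgc : ‖ctr δ g - z0‖ ≤ 2 * δ := by
    refine (Complex.norm_le_abs_re_add_abs_im _).trans ?_
    simp only [Complex.sub_re, Complex.sub_im, ctr]
    have e1 : |δ * ((g.1 : ℝ) + 1 / 2) - z0.re| ≤ δ := by rw [abs_le]; constructor <;> linarith
    have e2 : |δ * ((g.2 : ℝ) + 1 / 2) - z0.im| ≤ δ := by rw [abs_le]; constructor <;> linarith
    linarith
  have hgV : g ∈ X.V := hbk g (by linarith)
  have hgI : Inn D δ g := by
    have hK : ∀ w : ℤ × ℤ, (w.1 = g.1 ∨ w.1 = g.1 + 1) → (w.2 = g.2 ∨ w.2 = g.2 + 1) →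
        ∀ q, op D δ w q := by
      intro w h1 h2 q
      refine hshort δ hδ k6 w q ?_
      rw [Metric.mem_closedBall, dist_eq_norm]
      refine (Complex.norm_le_abs_re_add_abs_im _).trans ?_
      simp only [Complex.sub_re, Complex.sub_im, pt]
      have e1 : |δ * (w.1 : ℝ) - z0.re| ≤ δ := by
        rcases h1 with h | h <;> rw [h, abs_le] <;> push_cast <;> constructor <;> linarith
      have e2 : |δ * (w.2 : ℝ) - z0.im| ≤ δ := by
        rcases h2 with h | h <;> rw [h, abs_le] <;> push_cast <;> constructor <;> linarith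
      linarith
    refine ⟨hK _ (Or.inl rfl) (Or.inl rfl) _, hK _ (Or.inr rfl) (Or.inl ?_) _,
      hK _ (Or.inr rfl) (Or.inr rfl) _, hK _ (Or.inl ?_) (Or.inr rfl) _⟩ <;> simp
  -- orientation
  have hS : Sees D δ X a 0 m (ρ '' Icc t (s + 2 * π)) ∧ Sees D δ X a m N (ρ '' Icc s t) := by
    rcases horient δ hδ (by linarith) X hX a aV aO acl m hm0 hmN (by rw [hmb]; exact bcl) s t
      (hs.trans_le hη2) (ht.trans_le hη2) hxs (by rw [hmb]; exact hxt) g (by linarith) hgV hgI with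
      ⟨h1, -, -⟩ | ⟨-, h2, h3⟩
    · exfalso; linarith
    · exact ⟨h2, h3⟩
  obtain ⟨S1, S2⟩ := hS
  -- index facts
  have hrm : r ≤ m := by
    by_contra hcon
    push Not at hcon
    refine hropen m hm0 hcon ?_
    rw [hmb]; exact bcl
  have hmr : m + r' ≤ N := by
    by_contra hcon
    push Not at hcon
    refine hropen' (N - m) (by omega) (by omega) ?_
    rw [← hmb, ← Function.iterate_add_apply, show N - m + m = N by omega, hper]
    exact acl
  have hαk : ∀ i, (next X.E)^[i] X.α = (next X.E)^[i + r] a := by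
    intro i; rw [Function.iterate_add_apply, hra]
  have hβk : ∀ i, (next X.E)^[i] X.β = (next X.E)^[i + r' + m] a := by
    intro i; rw [Function.iterate_add_apply, hmb, Function.iterate_add_apply, hrb]
  have dist_lst : ∀ k, 1 ≤ k → ‖pt δ ((next X.E)^[k] a).1 -
      xb D δ (lst D δ X a k).1 (lst D δ X a k).2‖ ≤ 4 * δ := by
    intro k hk
    obtain ⟨k', rfl⟩ : ∃ k', k = k' + 1 := ⟨k - 1, by omega⟩
    exact norm_lst hX hD.isOpen hδ aV aO acl k'
  have fin : ∀ (k : ℕ) (u v u0 v0 : ℝ), 1 ≤ k → u0 ≤ v0 → |u - u0| < η3 → |v - v0| < η3 →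
      xb D δ (lst D δ X a k).1 (lst D δ X a k).2 ∈ ρ '' Icc u v →
      Metric.infDist (pt δ ((next X.E)^[k] a).1) (ρ '' Icc u0 v0) < ε := by
    intro k u v u0 v0 hk h0 h1 h2 hx
    obtain ⟨w', hw', hw⟩ := near_arc hunif h0 h1 h2 hx
    refine (Metric.infDist_le_dist_of_mem hw').trans_lt ?_
    have h3 := dist_triangle (pt δ ((next X.E)^[k] a).1)
      (xb D δ (lst D δ X a k).1 (lst D δ X a k).2) w'
    have h4 := dist_lst k hk
    rw [← dist_eq_norm] at h4
    linarith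
  refine ⟨fun u hu => hbk u (by
    have := lt_min_iff.1 (lt_min_iff.1 hu).1
    linarith [this.1]), ?_, ?_⟩
  · rintro c ⟨i, hi, rfl⟩
    rw [hβk]
    have hiN : i + r' + m ≤ N + r := by
      by_contra hcon
      push Not at hcon
      refine hi (N + r - (m + r')) (by omega) ?_
      rw [hβk, show N + r - (m + r') + r' + m = r + N by omega, Function.iterate_add_apply, hper,
        hra]
    refine fin _ s t sa sb (by omega) hab.le (hs.trans_le hη3') (ht.trans_le hη3') ?_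
    obtain ⟨k', hk'⟩ : ∃ k', i + r' + m = k' + 1 := ⟨i + r' + m - 1, by omega⟩
    rw [hk']
    obtain ⟨j, j1, j2, j3, -, j5⟩ := lst_spec hX aV aO acl k'
    rw [j2]
    refine S2 j ?_ ?_ j3
    · by_contra hcon
      push Not at hcon
      exact j5 m hcon (by omega) (by rw [hmb]; exact bcl)
    · by_contra hcon
      push Not at hcon
      refine hropen (j - N) (by omega) (by omega) ?_
      have h1 : (next X.E)^[j] a = (next X.E)^[j - N] a := by
        conv_lhs => rw [show j = j - N + N by omega, Function.iterate_add_apply, hper]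
      rw [← h1]; exact j3
  · rintro c ⟨i, hi, rfl⟩
    rw [hαk]
    have hiN : i + r ≤ m + r' := by
      by_contra hcon
      push Not at hcon
      refine hi (m + r' - r) (by omega) ?_
      rw [hαk, show m + r' - r + r = r' + m by omega, Function.iterate_add_apply, hmb, hrb]
    refine fin _ t (s + 2 * π) sb (sa + 2 * π) (by omega) hba.le (ht.trans_le hη3') ?_ ?_
    · rw [add_sub_add_right_eq_sub]; exact hs.trans_le hη3'
    obtain ⟨k', hk'⟩ : ∃ k', i + r = k' + 1 := ⟨i + r - 1, by omega⟩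
    rw [hk']
    obtain ⟨j, j1, j2, j3, -, j5⟩ := lst_spec hX aV aO acl k'
    rw [j2]
    refine S1 j (Nat.zero_le j) ?_ j3
    by_contra hcon
    push Not at hcon
    refine hropen' (j - m) (by omega) (by omega) ?_
    rw [← hmb, ← Function.iterate_add_apply, show j - m + m = j by omega]
    exact j3

end Pool.Agent.H42.MJ
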