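import Pool.Agent.H42.MJ.Face
import Pool.Agent.H81.Q1.Term

set_option autoImplicit false
open Set Topology Filter
open Pool.Agent.H81.Q1

/-! # The contour of a component of the part of `δℤ²` in `D` -/

namespace Pool.Agent.H42.MJ

variable {D : Set ℂ} {δ : ℝ} {X : DDomain}

/-- Outer corners are on one orbit. -/
theorem orbit_outer (X : DDomain) {c c' : Corner} (hc : c.1 ∈ X.V) (hc' : c'.1 ∈ X.V)
    (h : IsOuter X.E c) (h' : IsOuter X.E c') : ∃ i, (next X.E)^[i] c = c' := by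
  obtain ⟨i, hi⟩ := inOrb_outer X hc hc' h h'
  refine ⟨i, Pool.Agent.H69.Q1.cor_injective ?_⟩
  rw [cor_contour, hi]

section

variable (hX : IsComponent D δ X.V X.E)
include hX

lemma adjE {u v : ℤ × ℤ} (h : s(u, v) ∈ X.E) : (GD D δ).Adj u v := ((hX.edges u v).1 h).2

lemma mem_of_adj {u v : ℤ × ℤ} (hu : u ∈ X.V) (h : (GD D δ).Adj u v) : v ∈ X.V :=
  (hX.comp u hu v).2 h.reachable

lemma edge_mem {v : ℤ × ℤ} {q : ZMod 4} (hv : v ∈ X.V) :
    Corner.edge (v, q) ∈ X.E ↔ op D δ v q := by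
  unfold Corner.edge
  rw [hX.edges, adj_dir]
  simp [hv]

lemma next_op {v : ℤ × ℤ} {q : ZMod 4} (hv : v ∈ X.V) (h : op D δ v q) :
    next X.E (v, q) = (v + dir q, q + 1) := by
  unfold next
  rw [if_pos ((edge_mem hX hv).2 h)]

lemma next_clo {v : ℤ × ℤ} {q : ZMod 4} (hv : v ∈ X.V) (h : ¬op D δ v q) :
    next X.E (v, q) = (v, q - 1) := by
  unfold next
  rw [if_neg (fun h' => h ((edge_mem hX hv).1 h'))]

lemma mem_dir {v : ℤ × ℤ} {q : ZMod 4} (hv : v ∈ X.V) (h : op D δ v q) : v + dir q ∈ X.V :=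
  mem_of_adj hX hv (adj_dir.2 h)

lemma next_mem {c : Corner} (hc : c.1 ∈ X.V) : (next X.E c).1 ∈ X.V := by
  obtain ⟨v, q⟩ := c
  by_cases h : op D δ v q
  · rw [next_op hX hc h]; exact mem_dir hX hc h
  · rw [next_clo hX hc h]; exact hc

lemma iter_mem {c : Corner} (hc : c.1 ∈ X.V) (i : ℕ) : ((next X.E)^[i] c).1 ∈ X.V := by
  induction i with
  | zero => exact hc
  | succ i ih => rw [Function.iterate_succ_apply']; exact next_mem hX ih

omit hX in
/-- one side of a face -/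
lemma exists_not_mem_of_not_inn (hδ : 0 < δ) {f : ℤ × ℤ} (h : ¬Inn D δ f) :
    ∃ w ∈ Sq δ f, w ∉ D := by
  by_contra hcon
  push Not at hcon
  have key : ∀ s : ℝ, 0 ≤ s → s ≤ 1 → 0 ≤ δ * s ∧ δ * s ≤ δ := fun s h0 h1 =>
    ⟨mul_nonneg hδ.le h0, mul_le_of_le_one_right hδ.le h1⟩
  refine h ⟨fun s h0 h1 => hcon _ ?_, fun s h0 h1 => hcon _ ?_, fun s h0 h1 => hcon _ ?_,
    fun s h0 h1 => hcon _ ?_⟩ <;> obtain ⟨k1, k2⟩ := key s h0 h1 <;>
    simp only [Sq, rp, dir_0, dir_1, dir_2, dir_3, mem_ofPred_eq, Prod.fst_add, Prod.snd_add] <;>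
    push_cast <;> refine ⟨?_, ?_, ?_, ?_⟩ <;> nlinarith

/-- The four vertices of an inner face. -/
lemma inn_vertices {v : ℤ × ℤ} {q : ZMod 4} (hv : v ∈ X.V) (h : Inn D δ (Corner.face (v, q))) :
    Corner.face (v, q) ∈ X.V ∧ Corner.face (v, q) + (1, 0) ∈ X.V ∧
      Corner.face (v, q) + (1, 1) ∈ X.V ∧ Corner.face (v, q) + (0, 1) ∈ X.V := by
  set f := Corner.face (v, q) with hf
  have hd : (f = v ∨ f + (1, 0) = v ∨ f + (1, 1) = v ∨ f + (0, 1) = v) := by
    rw [hf]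
    obtain ⟨a, b⟩ := v
    have d1 : (2 : ZMod 4) ≠ 0 := by decide
    have d2 : (2 : ZMod 4) ≠ 1 := by decide
    have d3 : (3 : ZMod 4) ≠ 0 := by decide
    have d4 : (3 : ZMod 4) ≠ 1 := by decide
    have d5 : (3 : ZMod 4) ≠ 2 := by decide
    rcases zmod4 q with rfl | rfl | rfl | rfl
    · left; simp [Corner.face]
    · right; left
      have d6 : (1 : ZMod 4) ≠ 0 := by decide
      simp [Corner.face, d6]
    · right; right; left; simp [Corner.face, d1, d2]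
    · right; right; right; simp [Corner.face, d3, d4, d5]
  obtain ⟨o1, o2, o3, o4⟩ := h
  rw [← adj_dir] at o1 o2 o3 o4
  have e1 : f + dir 0 = f + (1, 0) := rfl
  have e2 : f + (1, 0) + dir 1 = f + (1, 1) := by rw [dir_1, add_assoc]; rfl
  have e3 : f + (1, 1) + dir 2 = f + (0, 1) := by rw [dir_2, add_assoc]; rfl
  have e4 : f + (0, 1) + dir 3 = f := by
    rw [dir_3, add_assoc]; simp
  rw [e1] at o1
  rw [e2] at o2
  rw [e3] at o3
  rw [e4] at o4
  have m1 := fun h => mem_of_adj hX h o1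
  have m2 := fun h => mem_of_adj hX h o2
  have m3 := fun h => mem_of_adj hX h o3
  have m4 := fun h => mem_of_adj hX h o4
  rcases hd with h | h | h | h
  · have n1 : f ∈ X.V := by rw [h]; exact hv
    exact ⟨n1, m1 n1, m2 (m1 n1), m3 (m2 (m1 n1))⟩
  · have n2 : f + (1, 0) ∈ X.V := by rw [h]; exact hv
    exact ⟨m4 (m3 (m2 n2)), n2, m2 n2, m3 (m2 n2)⟩
  · have n3 : f + (1, 1) ∈ X.V := by rw [h]; exact hv
    exact ⟨m4 (m3 n3), m1 (m4 (m3 n3)), n3, m3 n3⟩
  · have n4 : f + (0, 1) ∈ X.V := by rw [h]; exact hv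
    exact ⟨m4 n4, m1 (m4 n4), m2 (m1 (m4 n4)), n4⟩

lemma not_outer_of_inn {c : Corner} (hc : c.1 ∈ X.V) (h : Inn D δ c.face) :
    ¬IsOuter X.E c := by
  obtain ⟨v, q⟩ := c
  obtain ⟨v1, v2, v3, v4⟩ := inn_vertices hX hc h
  set f := Corner.face (v, q) with hf
  obtain ⟨o1, o2, o3, o4⟩ := h
  have hno : ∀ g, ¬faceStep X.E f g := by
    rintro g (⟨-, h⟩ | ⟨-, h⟩ | ⟨-, h⟩ | ⟨-, h⟩)
    · refine h ((hX.edges _ _).2 ⟨?_, ?_⟩)
      · convert v2 using 1; ext <;> simp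
      · have := adj_dir.2 o2
        convert this using 1 <;> ext <;> simp [dir_1]
    · refine h ((hX.edges _ _).2 ⟨v1, ?_⟩)
      have := (adj_dir.2 o4).symm
      convert this using 1 <;> ext <;> simp [dir_3]
    · refine h ((hX.edges _ _).2 ⟨?_, ?_⟩)
      · convert v4 using 1; ext <;> simp
      · have := (adj_dir.2 o3).symm
        convert this using 1 <;> ext <;> simp [dir_2]
    · refine h ((hX.edges _ _).2 ⟨v1, ?_⟩)
      have := adj_dir.2 o1
      convert this using 1 ; ext <;> simp [dir_0]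
  intro hout
  obtain ⟨g, h1, h2⟩ := hout (|f.1| + |f.2| + 1)
  rcases h1.cases_head with h3 | ⟨g', h3, -⟩
  · have h4 : f = g := h3
    rw [← h4] at h2
    omega
  · exact hno g' h3

lemma outer_iff (hδ : 0 < δ) (hDc : IsPreconnected Dᶜ) (hb : Bornology.IsBounded D)
    {c : Corner} (hc : c.1 ∈ X.V) : IsOuter X.E c ↔ ¬Inn D δ c.face := by
  constructor
  · intro h h'; exact not_outer_of_inn hX hc h' h
  · intro h n
    obtain ⟨w, hw, hwD⟩ := exists_not_mem_of_not_inn hδ h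
    exact far_of_mem hδ (fun u v h => adjE hX h) hDc hb hwD hw n

end

lemma faceStep_symm {E : Set (Sym2 (ℤ × ℤ))} {f g : ℤ × ℤ} (h : faceStep E f g) :
    faceStep E g f := by
  obtain ⟨a, b⟩ := f
  obtain ⟨a', b'⟩ := g
  unfold faceStep at h ⊢
  simp only [Prod.mk.injEq] at h ⊢
  rcases h with ⟨⟨rfl, rfl⟩, h⟩ | ⟨⟨rfl, rfl⟩, h⟩ | ⟨⟨rfl, rfl⟩, h⟩ | ⟨⟨rfl, rfl⟩, h⟩
  · right; left; exact ⟨⟨by ring, rfl⟩, h⟩
  · left; refine ⟨⟨by ring, rfl⟩, ?_⟩; rwa [sub_add_cancel]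
  · right; right; right; exact ⟨⟨rfl, by ring⟩, h⟩
  · right; right; left; refine ⟨⟨rfl, by ring⟩, ?_⟩; rwa [sub_add_cancel]

/-- Turning at a non-edge crosses it. -/
lemma faceStep_turn {E : Set (Sym2 (ℤ × ℤ))} {v : ℤ × ℤ} {q : ZMod 4}
    (h : Corner.edge (v, q) ∉ E) :
    faceStep E (Corner.face (v, q - 1)) (Corner.face (v, q)) := by
  obtain ⟨a, b⟩ := v
  unfold Corner.edge at h
  have d1 : (2 : ZMod 4) ≠ 0 := by decide
  have d2 : (2 : ZMod 4) ≠ 1 := by decide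
  have d3 : (3 : ZMod 4) ≠ 0 := by decide
  have d4 : (3 : ZMod 4) ≠ 1 := by decide
  have d5 : (3 : ZMod 4) ≠ 2 := by decide
  have d6 : (1 : ZMod 4) ≠ 0 := by decide
  have e1 : (0 - 1 : ZMod 4) = 3 := by decide
  have e2 : (1 - 1 : ZMod 4) = 0 := by decide
  have e3 : (2 - 1 : ZMod 4) = 1 := by decide
  have e4 : (3 - 1 : ZMod 4) = 2 := by decide
  unfold faceStep
  rcases zmod4 q with rfl | rfl | rfl | rfl
  · right; right; left
    simp only [Corner.face, e1, d3, d4, d5, if_false, if_true]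
    refine ⟨by simp, ?_⟩
    simpa [dir_0] using h
  · right; left
    simp only [Corner.face, e2, d6, if_false, if_true]
    refine ⟨trivial, ?_⟩
    simpa [dir_1] using h
  · right; right; right
    simp only [Corner.face, e3, d1, d2, d6, if_false, if_true]
    refine ⟨trivial, ?_⟩
    have : s((a - 1, b), (a - 1 + 1, b)) = s((a, b), (a, b) + dir 2) := by
      rw [Sym2.eq_swap, dir_2]; simp [sub_eq_add_neg]
    rwa [this]
  · left
    simp only [Corner.face, e4, d1, d2, d3, d4, d5, if_false, if_true]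
    refine ⟨by simp, ?_⟩
    have : s((a - 1 + 1, b - 1), (a - 1 + 1, b - 1 + 1)) = s((a, b), (a, b) + dir 3) := by
      rw [Sym2.eq_swap, dir_3]; simp [sub_eq_add_neg]
    rwa [this]

lemma face_follow {v : ℤ × ℤ} {q : ZMod 4} :
    Corner.face (v + dir q, q + 1) = Corner.face (v, q) := by
  obtain ⟨a, b⟩ := v
  rcases zmod4 q with rfl | rfl | rfl | rfl
  · have e1 : (0 + 1 : ZMod 4) = 1 := by decide
    have d6 : (1 : ZMod 4) ≠ 0 := by decide
    rw [e1, dir_0]; simp [Corner.face, d6]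
  · have e1 : (1 + 1 : ZMod 4) = 2 := by decide
    have d1 : (2 : ZMod 4) ≠ 0 := by decide
    have d2 : (2 : ZMod 4) ≠ 1 := by decide
    have d6 : (1 : ZMod 4) ≠ 0 := by decide
    rw [e1, dir_1]; simp [Corner.face, d1, d2, d6]
  · have e1 : (2 + 1 : ZMod 4) = 3 := by decide
    have d1 : (2 : ZMod 4) ≠ 0 := by decide
    have d2 : (2 : ZMod 4) ≠ 1 := by decide
    have d3 : (3 : ZMod 4) ≠ 0 := by decide
    have d4 : (3 : ZMod 4) ≠ 1 := by decide
    have d5 : (3 : ZMod 4) ≠ 2 := by decide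
    rw [e1, dir_2]; simp [Corner.face, d1, d2, d3, d4, d5, sub_eq_add_neg]
  · have e1 : (3 + 1 : ZMod 4) = 0 := by decide
    have d3 : (3 : ZMod 4) ≠ 0 := by decide
    have d4 : (3 : ZMod 4) ≠ 1 := by decide
    have d5 : (3 : ZMod 4) ≠ 2 := by decide
    rw [e1, dir_3]; simp [Corner.face, d3, d4, d5, sub_eq_add_neg]

lemma outer_next {c : Corner} (h : IsOuter X.E c) : IsOuter X.E (next X.E c) := by
  obtain ⟨v, q⟩ := c
  unfold next
  split_ifs with he
  · intro n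
    rw [face_follow]; exact h n
  · intro n
    obtain ⟨g, h1, h2⟩ := h n
    exact ⟨g, (Relation.ReflTransGen.single (faceStep_turn he)).trans h1, h2⟩

lemma outer_iter {c : Corner} (h : IsOuter X.E c) (i : ℕ) : IsOuter X.E ((next X.E)^[i] c) := by
  induction i with
  | zero => exact h
  | succ i ih => rw [Function.iterate_succ_apply']; exact outer_next ih

end Pool.Agent.H42.MJ
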