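import Pool.Agent.H42.MJ.Contour
import Pool.Agent.H42.MJ.Top

set_option autoImplicit false
open Set Topology Filter
open Pool.Agent.H81.Q1

/-! # The two parts of the contour between two boundary corners see one arc of the boundary each -/

namespace Pool.Agent.H42.MJ

variable {D : Set ℂ} {δ : ℝ}

lemma ex_nonneg (v : ℤ × ℤ) (q : ZMod 4) : 0 ≤ ex D δ v q :=
  Real.sInf_nonneg fun _ h => h.1

lemma ex_le_one {v : ℤ × ℤ} {q : ZMod 4} (h : ¬op D δ v q) : ex D δ v q ≤ 1 := by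
  obtain ⟨s, h0, h1, h2⟩ : ∃ s, 0 ≤ s ∧ s ≤ 1 ∧ rp δ v q s 0 ∉ D := by
    by_contra hcon
    push Not at hcon
    exact h fun s h0 h1 => hcon s h0 h1
  have hbd : BddBelow {s : ℝ | 0 ≤ s ∧ rp δ v q s 0 ∉ D} := ⟨0, fun s hs => hs.1⟩
  exact (csInf_le hbd ⟨h0, h2⟩).trans h1

/-- Arm lengths: the open edges, and the stubs of the two corners `a`, `b`. -/
noncomputable def len (D : Set ℂ) (δ : ℝ) (a b : Corner) (v : ℤ × ℤ) (q : ZMod 4) : ℝ :=
  open Classical in if op D δ v q then 1 else if (v, q) = a ∨ (v, q) = b then ex D δ v q else 0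

lemma len_op {a b : Corner} {v : ℤ × ℤ} {q : ZMod 4} (h : op D δ v q) : len D δ a b v q = 1 := by
  unfold len; rw [if_pos h]

lemma len_stub {a b : Corner} {v : ℤ × ℤ} {q : ZMod 4} (h : ¬op D δ v q)
    (h' : (v, q) = a ∨ (v, q) = b) : len D δ a b v q = ex D δ v q := by
  unfold len; rw [if_neg h, if_pos h']

lemma len_zero {a b : Corner} {v : ℤ × ℤ} {q : ZMod 4} (h : ¬op D δ v q)
    (h' : ¬((v, q) = a ∨ (v, q) = b)) : len D δ a b v q = 0 := by
  unfold len; rw [if_neg h, if_neg h']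

lemma len_nonneg (a b : Corner) (v : ℤ × ℤ) (q : ZMod 4) : 0 ≤ len D δ a b v q := by
  unfold len
  split_ifs
  · exact zero_le_one
  · exact ex_nonneg v q
  · exact le_rfl

lemma len_le_one (a b : Corner) (v : ℤ × ℤ) (q : ZMod 4) : len D δ a b v q ≤ 1 := by
  unfold len
  split_ifs with h1 h2
  · exact le_rfl
  · exact ex_le_one h1
  · exact zero_le_one

lemma web_sub (hD : IsOpen D) {V : Set (ℤ × ℤ)} (hV : ∀ v ∈ V, pt δ v ∈ D) (a b : Corner) :
    web δ V (len D δ a b) ⊆ D ∪ {xb D δ a.1 a.2, xb D δ b.1 b.2} := by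
  intro w hw
  obtain ⟨v, hv, q, s, h0, h1, rfl⟩ := mem_web.1 hw
  by_cases h : op D δ v q
  · rw [len_op h] at h1
    exact Or.inl (h s h0 h1)
  · by_cases h' : (v, q) = a ∨ (v, q) = b
    · rw [len_stub h h'] at h1
      rcases h1.eq_or_lt with h2 | h2
      · right
        rcases h' with h' | h' <;> rw [← h']
        · left; simp only [xb, h2]
        · right; simp only [xb, h2, mem_singleton_iff]
      · exact Or.inl ((ex_spec hD (hV v hv) h).2.2.2 s h0 h2)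
    · rw [len_zero h h'] at h1
      have h3 : s = 0 := le_antisymm h1 h0
      rw [h3, rp_zero]
      exact Or.inl (hV v hv)

lemma xb_mem_web {V : Set (ℤ × ℤ)} {a b c : Corner} (hc : c = a ∨ c = b) (hcV : c.1 ∈ V)
    (h : ¬op D δ c.1 c.2) : xb D δ c.1 c.2 ∈ web δ V (len D δ a b) :=
  mem_web.2 ⟨c.1, hcV, c.2, ex D δ c.1 c.2, ex_nonneg _ _, by rw [len_stub h hc], rfl⟩

/-- Points of other non-edges are not on the web. -/
lemma not_mem_web (hD : IsOpen D) (hδ : δ ≠ 0) {V : Set (ℤ × ℤ)} (hV : ∀ v ∈ V, pt δ v ∈ D)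
    {a b : Corner} {v : ℤ × ℤ} {q : ZMod 4} (h : ¬op D δ v q)
    (hne : ¬((v, q) = a ∨ (v, q) = b)) {τ : ℝ} (h0 : 0 < τ) (h1 : τ < 1)
    (hτ : ∀ s, 0 ≤ s → s ≤ τ → rp δ v q s 0 ∈ D) : rp δ v q τ 0 ∉ web δ V (len D δ a b) := by
  intro hw
  rcases mem_web_edge hδ (len_le_one a b) h0 h1 hw with ⟨-, h2⟩ | ⟨hv, h2⟩
  · rw [len_zero h hne] at h2; linarith
  · have h3 : ¬op D δ (v + dir q) (q + 2) := fun h' => h (op_rev.1 h')
    by_cases h' : (v + dir q, q + 2) = a ∨ (v + dir q, q + 2) = b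
    · rw [len_stub h3 h'] at h2
      refine h fun s hs0 hs1 => ?_
      rcases le_or_gt s τ with h4 | h4
      · exact hτ s hs0 h4
      · have h5 := (ex_spec hD (hV _ hv) h3).2.2.2 (1 - s) (by linarith) (by linarith)
        rw [rp_rev] at h5
        simpa using h5
    · rw [len_zero h3 h'] at h2; linarith

/-! ### probes -/

/-- `t` is small enough: points at distance `≤ t δ` from the open edges are in `D`. -/
structure Probe (D : Set ℂ) (δ : ℝ) (V : Set (ℤ × ℤ)) (t : ℝ) : Prop where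
  pos : 0 < t
  lt : t < 1 / 2
  near : ∀ v ∈ V, ∀ q s r, |s| ≤ t → |r| ≤ t → rp δ v q s r ∈ D
  edge : ∀ v ∈ V, ∀ q, op D δ v q → ∀ s r, 0 ≤ s → s ≤ 1 → |r| ≤ t → rp δ v q s r ∈ D

lemma exists_probe (hD : IsOpen D) (hδ : 0 < δ) {V : Set (ℤ × ℤ)} (hfin : V.Finite)
    (hV : ∀ v ∈ V, pt δ v ∈ D) : ∃ t, Probe D δ V t := by
  classical
  set L : ℤ × ℤ → ZMod 4 → ℝ := fun v q => if op D δ v q then 1 else 0 with hL
  have hcomp : IsCompact (web δ V L) := isCompact_web hfin L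
  have hsub : web δ V L ⊆ D := by
    intro w hw
    obtain ⟨v, hv, q, s, h0, h1, rfl⟩ := mem_web.1 hw
    by_cases h : op D δ v q
    · simp only [hL, if_pos h] at h1
      exact h s h0 h1
    · simp only [hL, if_neg h] at h1
      rw [le_antisymm h1 h0, rp_zero]; exact hV v hv
  obtain ⟨ε, hε, hth⟩ := hcomp.exists_thickening_subset_open hD hsub
  have ht : 0 < min (1 / 4) (ε / (4 * δ)) := lt_min (by norm_num) (by positivity)
  have ht2 : min (1 / 4) (ε / (4 * δ)) * δ ≤ ε / 4 := by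
    calc min (1 / 4) (ε / (4 * δ)) * δ ≤ ε / (4 * δ) * δ :=
          mul_le_mul_of_nonneg_right (min_le_right _ _) hδ.le
      _ = ε / 4 := by field_simp
  set t := min (1 / 4) (ε / (4 * δ)) with htd
  refine ⟨t, ht, (min_le_left _ _).trans_lt (by norm_num), ?_, ?_⟩
  · intro v hv q s r hs hr
    apply hth
    rw [Metric.mem_thickening_iff]
    refine ⟨rp δ v q 0 0, mem_web.2 ⟨v, hv, q, 0, le_rfl, ?_, rfl⟩, ?_⟩
    · simp only [hL]; split_ifs <;> norm_num
    · rw [dist_eq_norm]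
      refine (norm_rp_sub v q _ _ _ _).trans_lt ?_
      rw [abs_of_pos hδ, sub_zero, sub_zero]
      have : δ * (|s| + |r|) ≤ δ * (t + t) :=
        mul_le_mul_of_nonneg_left (add_le_add hs hr) hδ.le
      nlinarith
  · intro v hv q hop s r hs0 hs1 hr
    apply hth
    rw [Metric.mem_thickening_iff]
    refine ⟨rp δ v q s 0, mem_web.2 ⟨v, hv, q, s, hs0, ?_, rfl⟩, ?_⟩
    · simp only [hL, if_pos hop]; exact hs1
    · rw [dist_eq_norm]
      refine (norm_rp_sub v q _ _ _ _).trans_lt ?_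
      rw [abs_of_pos hδ, sub_zero, sub_self, abs_zero, zero_add]
      have : δ * |r| ≤ δ * t := mul_le_mul_of_nonneg_left hr hδ.le
      nlinarith

/-- The probe of a corner. -/
noncomputable def prb (δ t : ℝ) (c : Corner) : ℂ := rp δ c.1 c.2 t t

lemma Probe.not_int {V : Set (ℤ × ℤ)} {t : ℝ} (h : Probe D δ V t) (n : ℤ) : t ≠ n :=
  not_int_of_Ioo h.pos (by linarith [h.lt]) n

section

variable {X : DDomain} (hX : IsComponent D δ X.V X.E)
include hX

/-- One step of the probe along an edge. -/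
lemma step_op (hδ : 0 < δ) {t : ℝ} (ht : Probe D δ X.V t) (a b : Corner) {v : ℤ × ℤ}
    {q : ZMod 4} (hv : v ∈ X.V) (h : op D δ v q) :
    ∃ S : Set ℂ, IsPreconnected S ∧ S ⊆ D ∧ (∀ z ∈ S, z ∉ web δ X.V (len D δ a b)) ∧
      prb δ t (v, q) ∈ S ∧ prb δ t (next X.E (v, q)) ∈ S := by
  have h0 := ht.pos
  have h1 := ht.lt
  refine ⟨(fun s => rp δ v q s t) '' Icc t (1 - t), ?_, ?_, ?_, ?_, ?_⟩
  · exact isPreconnected_Icc.image _ (continuous_rp_left v q t).continuousOn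
  · rintro _ ⟨s, hs, rfl⟩
    exact ht.edge v hv q h s t (by linarith [hs.1]) (by linarith [hs.2]) (abs_of_pos h0).le
  · rintro _ ⟨s, hs, rfl⟩ hw
    obtain ⟨u, -, p, σ, -, -, hw⟩ := mem_web.1 hw
    exact face_ne_edge hδ.ne' (not_int_of_Ioo (by linarith [hs.1]) (by linarith [hs.2]))
      ht.not_int hw
  · exact ⟨t, ⟨le_rfl, by linarith⟩, rfl⟩
  · rw [next_op hX hv h]
    refine ⟨1 - t, ⟨by linarith, le_rfl⟩, ?_⟩
    simp only [prb]
    rw [rp_next]

/-- One step of the probe around a vertex. -/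
lemma step_clo (hD : IsOpen D) (hδ : 0 < δ) {t : ℝ} (ht : Probe D δ X.V t) {a b : Corner}
    {v : ℤ × ℤ} {q : ZMod 4} (hv : v ∈ X.V) (h : ¬op D δ v q)
    (hne : ¬((v, q) = a ∨ (v, q) = b)) :
    ∃ S : Set ℂ, IsPreconnected S ∧ S ⊆ D ∧ (∀ z ∈ S, z ∉ web δ X.V (len D δ a b)) ∧
      prb δ t (v, q) ∈ S ∧ prb δ t (next X.E (v, q)) ∈ S ∧ xb D δ v q ∈ closure S := by
  have h0 := ht.pos
  have h1 := ht.lt
  obtain ⟨e0, e1, e2, e3⟩ := ex_spec hD (hX.sub v hv) h
  have het : t < ex D δ v q := by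
    by_contra hcon
    push Not at hcon
    exact e2 (ht.near v hv q _ 0 (by rw [abs_of_pos e0]; exact hcon) (by rw [abs_zero]; exact h0.le))
  have hnw : ∀ s, 0 < s → s < ex D δ v q → rp δ v q s 0 ∉ web δ X.V (len D δ a b) := by
    intro s hs0 hs1
    exact not_mem_web hD hδ.ne' hX.sub h hne hs0 (by linarith)
      fun s' h0 h1 => e3 s' h0 (by linarith)
  set S1 : Set ℂ := (fun r => rp δ v q t r) '' Icc (-t) t with hS1
  set S2 : Set ℂ := (fun s => rp δ v q s 0) '' Ico t (ex D δ v q) with hS2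
  have p1 : IsPreconnected S1 :=
    isPreconnected_Icc.image _ (continuous_rp_right v q t).continuousOn
  have p2 : IsPreconnected S2 :=
    isPreconnected_Ico.image _ (continuous_rp_left v q 0).continuousOn
  have m1 : rp δ v q t 0 ∈ S1 := ⟨0, ⟨by linarith, h0.le⟩, rfl⟩
  have m2 : rp δ v q t 0 ∈ S2 := ⟨t, ⟨le_rfl, het⟩, rfl⟩
  refine ⟨S1 ∪ S2, p1.union _ m1 m2 p2, ?_, ?_, ?_, ?_, ?_⟩
  · rintro w (⟨r, hr, rfl⟩ | ⟨s, hs, rfl⟩)
    · exact ht.near v hv q t r (abs_of_pos h0).le (abs_le.2 ⟨hr.1, hr.2⟩)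
    · exact e3 s (by linarith [hs.1]) hs.2
  · rintro w (⟨r, hr, rfl⟩ | ⟨s, hs, rfl⟩)
    · by_cases hr0 : r = 0
      · subst hr0; exact hnw t h0 het
      · intro hw
        obtain ⟨u, -, p, σ, -, -, hw⟩ := mem_web.1 hw
        refine face_ne_edge hδ.ne' ht.not_int ?_ hw
        intro n hn
        rcases lt_or_gt_of_ne hr0 with h2 | h2
        · refine not_int_of_Ioo (s := -r) (by linarith) (by linarith [hr.1]) (-n) ?_
          rw [hn]; push_cast; rfl
        · exact not_int_of_Ioo h2 (by linarith [hr.2]) n hn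
    · exact hnw s (by linarith [hs.1]) hs.2
  · exact Or.inl ⟨t, ⟨by linarith, le_rfl⟩, rfl⟩
  · rw [next_clo hX hv h]
    refine Or.inl ⟨-t, ⟨le_rfl, by linarith⟩, ?_⟩
    simp only [prb]
    rw [rp_turn]
  · refine closure_mono subset_union_right ?_
    have h4 : Tendsto (fun s : ℝ => rp δ v q s 0) (𝓝[<] (ex D δ v q)) (𝓝 (xb D δ v q)) :=
      ((continuous_rp_left v q 0).tendsto _).mono_left nhdsWithin_le_nhds
    refine mem_closure_of_tendsto h4 ?_
    filter_upwards [Ioo_mem_nhdsLT het] with s hs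
    exact ⟨s, ⟨hs.1.le, hs.2⟩, rfl⟩

/-- The probes along a part of the contour which avoids `a` and `b`. -/
lemma arc_conn (hD : IsOpen D) (hδ : 0 < δ) {a b c : Corner} (hc : c.1 ∈ X.V) (j : ℕ)
    (hne : ∀ k < j, ¬((next X.E)^[k] c = a ∨ (next X.E)^[k] c = b)) :
    ∃ S : Set ℂ, IsPreconnected S ∧ S ⊆ D ∧ (∀ z ∈ S, z ∉ web δ X.V (len D δ a b)) ∧
      ∀ k < j, ¬op D δ ((next X.E)^[k] c).1 ((next X.E)^[k] c).2 →
        xb D δ ((next X.E)^[k] c).1 ((next X.E)^[k] c).2 ∈ closure S := by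
  obtain ⟨t, ht⟩ := exists_probe hD hδ X.finV hX.sub
  suffices H : ∃ S : Set ℂ, IsPreconnected S ∧ S ⊆ D ∧
      (∀ z ∈ S, z ∉ web δ X.V (len D δ a b)) ∧ prb δ t ((next X.E)^[j] c) ∈ S ∧
      ∀ k < j, ¬op D δ ((next X.E)^[k] c).1 ((next X.E)^[k] c).2 →
        xb D δ ((next X.E)^[k] c).1 ((next X.E)^[k] c).2 ∈ closure S by
    obtain ⟨S, h1, h2, h3, -, h5⟩ := H
    exact ⟨S, h1, h2, h3, h5⟩
  induction j with
  | zero =>
    refine ⟨{prb δ t c}, isPreconnected_singleton, ?_, ?_, rfl, fun k hk => absurd hk (by omega)⟩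
    · rintro _ rfl
      exact ht.near _ hc _ _ _ (abs_of_pos ht.pos).le (abs_of_pos ht.pos).le
    · rintro _ rfl hw
      obtain ⟨u, -, p, σ, -, -, hw⟩ := mem_web.1 hw
      exact face_ne_edge hδ.ne' ht.not_int ht.not_int hw
  | succ j ih =>
    obtain ⟨S, h1, h2, h3, h4, h5⟩ := ih fun k hk => hne k (by omega)
    have hcV : ((next X.E)^[j] c).1 ∈ X.V := iter_mem hX hc j
    have hnj := hne j (by omega)
    rw [Function.iterate_succ_apply']
    set d := (next X.E)^[j] c with hd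
    by_cases hop : op D δ d.1 d.2
    · obtain ⟨T, t1, t2, t3, t4, t5⟩ := step_op hX hδ ht a b hcV hop
      refine ⟨S ∪ T, h1.union _ h4 t4 t1, union_subset h2 t2, ?_, Or.inr t5, ?_⟩
      · rintro z (hz | hz)
        · exact h3 z hz
        · exact t3 z hz
      · intro k hk hk'
        rcases Nat.lt_succ_iff_lt_or_eq.1 hk with h6 | rfl
        · exact closure_mono subset_union_left (h5 k h6 hk')
        · exact absurd hop hk'
    · obtain ⟨T, t1, t2, t3, t4, t5, t6⟩ := step_clo hX hD hδ ht hcV hop hnj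
      refine ⟨S ∪ T, h1.union _ h4 t4 t1, union_subset h2 t2, ?_, Or.inr t5, ?_⟩
      · rintro z (hz | hz)
        · exact h3 z hz
        · exact t3 z hz
      · intro k hk hk'
        rcases Nat.lt_succ_iff_lt_or_eq.1 hk with h6 | rfl
        · exact closure_mono subset_union_left (h5 k h6 hk')
        · exact closure_mono subset_union_right t6

/-- **The boundary points seen along a part of the contour are on one arc.** -/
theorem key (hJ : Jan) (hD : JTop D) (hδ : 0 < δ) {a b : Corner} (haV : a.1 ∈ X.V)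
    (hbV : b.1 ∈ X.V) (hca : ¬op D δ a.1 a.2) (hcb : ¬op D δ b.1 b.2) {A B : Set ℂ}
    (hA : IsClosed A) (hB : IsClosed B) (hAB : A ∪ B = frontier D)
    (hi : A ∩ B = {xb D δ a.1 a.2, xb D δ b.1 b.2}) {c : Corner} (hc : c.1 ∈ X.V) (j : ℕ)
    (hne : ∀ k < j, ¬((next X.E)^[k] c = a ∨ (next X.E)^[k] c = b)) :
    (∀ k < j, ¬op D δ ((next X.E)^[k] c).1 ((next X.E)^[k] c).2 →
      xb D δ ((next X.E)^[k] c).1 ((next X.E)^[k] c).2 ∈ A) ∨
    (∀ k < j, ¬op D δ ((next X.E)^[k] c).1 ((next X.E)^[k] c).2 →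
      xb D δ ((next X.E)^[k] c).1 ((next X.E)^[k] c).2 ∈ B) := by
  obtain ⟨S, h1, h2, h3, h4⟩ := arc_conn hX hD.isOpen hδ hc j hne
  by_contra hcon
  push Not at hcon
  obtain ⟨⟨k, hk, hk1, hk2⟩, ⟨l, hl, hl1, hl2⟩⟩ := hcon
  have hfk : xb D δ ((next X.E)^[k] c).1 ((next X.E)^[k] c).2 ∈ frontier D :=
    xb_mem_frontier hD.isOpen (hX.sub _ (iter_mem hX hc k)) hk1
  have hfl : xb D δ ((next X.E)^[l] c).1 ((next X.E)^[l] c).2 ∈ frontier D :=
    xb_mem_frontier hD.isOpen (hX.sub _ (iter_mem hX hc l)) hl1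
  rw [← hAB] at hfk hfl
  exact cross_sep hJ hD (isCompact_web X.finV _)
    (isPreconnected_web hX X.conn (fun v q => len_nonneg a b v q)
      (fun v q h => (len_op h).ge))
    (xb_mem_web (Or.inl rfl) haV hca) (xb_mem_web (Or.inr rfl) hbV hcb)
    (web_sub hD.isOpen hX.sub a b) hA hB hAB hi h1 h2 h3 (h4 l hl hl1) (h4 k hk hk1)
    (hfl.resolve_right hl2) hl2 (hfk.resolve_left hk2) hk2

end

end Pool.Agent.H42.MJ
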