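import Pool.Agent.H42.MJ.Contour

set_option autoImplicit false
open Set Topology Filter
open Pool.Agent.H81.Q1

/-! # Components as discrete domains; runs of the contour -/

namespace Pool.Agent.H42.MJ

variable {D : Set ℂ} {δ : ℝ}

lemma rp_mem_sq (hδ : 0 < δ) (v : ℤ × ℤ) (q : ZMod 4) {s r : ℝ} (hs : 0 ≤ s) (hs' : s ≤ 1)
    (hr : 0 ≤ r) (hr' : r ≤ 1) : rp δ v q s r ∈ Sq δ (Corner.face (v, q)) := by
  obtain ⟨a, b⟩ := v
  have d1 : (2 : ZMod 4) ≠ 0 := by decide
  have d2 : (2 : ZMod 4) ≠ 1 := by decide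
  have d3 : (3 : ZMod 4) ≠ 0 := by decide
  have d4 : (3 : ZMod 4) ≠ 1 := by decide
  have d5 : (3 : ZMod 4) ≠ 2 := by decide
  have d6 : (1 : ZMod 4) ≠ 0 := by decide
  have h1 : 0 ≤ δ * s := mul_nonneg hδ.le hs
  have h2 : δ * s ≤ δ := mul_le_of_le_one_right hδ.le hs'
  have h3 : 0 ≤ δ * r := mul_nonneg hδ.le hr
  have h4 : δ * r ≤ δ := mul_le_of_le_one_right hδ.le hr'
  rcases zmod4 q with rfl | rfl | rfl | rfl <;>
    simp only [Sq, rp, dir_0, dir_1, dir_2, dir_3, mem_ofPred_eq, Corner.face, d1, d2, d3, d4, d5,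
      d6, if_true, if_false] <;> push_cast <;> refine ⟨?_, ?_, ?_, ?_⟩ <;> nlinarith

/-- **No holes.** -/
theorem noHole_of_component (hδ : 0 < δ) (hDc : IsPreconnected Dᶜ)
    (hb : Bornology.IsBounded D) {V : Set (ℤ × ℤ)} {E : Set (Sym2 (ℤ × ℤ))}
    (hX : IsComponent D δ V E) (c : Corner) (hc : c.1 ∈ V) (he : c.edge ∉ E) : IsOuter E c := by
  obtain ⟨v, q⟩ := c
  have h1 : ¬op D δ v q := by
    intro h
    refine he ((hX.edges _ _).2 ⟨hc, adj_dir.2 h⟩)
  obtain ⟨s, h0, h2, h3⟩ : ∃ s, 0 ≤ s ∧ s ≤ 1 ∧ rp δ v q s 0 ∉ D := by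
    by_contra hcon
    push Not at hcon
    exact h1 fun s h0 h1 => hcon s h0 h1
  intro n
  exact far_of_mem hδ (fun u v h => ((hX.edges u v).1 h).2) hDc hb h3
    (rp_mem_sq hδ v q h0 h2 le_rfl zero_le_one) n

lemma finite_lattice (hδ : 0 < δ) (hb : Bornology.IsBounded D) :
    {v : ℤ × ℤ | pt δ v ∈ D}.Finite := by
  obtain ⟨R, hR⟩ := hb.subset_closedBall 0
  obtain ⟨N, hN⟩ := exists_nat_gt (R / δ)
  refine ((Set.finite_Icc (-(N : ℤ)) N).prod (Set.finite_Icc (-(N : ℤ)) N)).subset ?_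
  intro v hv
  have h1 := hR hv
  rw [Metric.mem_closedBall, dist_zero_right] at h1
  rw [div_lt_iff₀ hδ] at hN
  have key : ∀ m : ℤ, |δ * m| ≤ R → m ∈ Set.Icc (-(N : ℤ)) N := by
    intro m hm
    rw [abs_mul, abs_of_pos hδ] at hm
    have h2 : |(m : ℝ)| < N := by
      by_contra hc
      push Not at hc
      nlinarith
    rw [abs_lt] at h2
    constructor
    · have : -(N : ℤ) < m := by exact_mod_cast h2.1
      exact this.le
    · have : m < (N : ℤ) := by exact_mod_cast h2.2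
      exact this.le
  exact ⟨key v.1 ((Complex.abs_re_le_norm (pt δ v)).trans h1),
    key v.2 ((Complex.abs_im_le_norm (pt δ v)).trans h1)⟩

lemma conn_of_component {V : Set (ℤ × ℤ)} {E : Set (Sym2 (ℤ × ℤ))}
    (hX : IsComponent D δ V E) (u : ℤ × ℤ) (hu : u ∈ V) (v : ℤ × ℤ) (hv : v ∈ V) :
    Relation.ReflTransGen (fun x y => s(x, y) ∈ E) u v := by
  have h1 := ((hX.comp u hu v).1 hv)
  rw [SimpleGraph.reachable_iff_reflTransGen] at h1
  clear hv
  induction h1 with
  | refl => exact Relation.ReflTransGen.refl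
  | @tail b c h2 h3 ih =>
    refine ih.tail ((hX.edges b c).2 ⟨?_, h3⟩)
    exact (hX.comp u hu b).2 ((SimpleGraph.reachable_iff_reflTransGen _ _).2 h2)

/-- A component of the part of `δℤ²` in `D` with two outer corners is a discrete domain. -/
def toDD (hδ : 0 < δ) (hDc : IsPreconnected Dᶜ) (hb : Bornology.IsBounded D)
    {V : Set (ℤ × ℤ)} {E : Set (Sym2 (ℤ × ℤ))} (hX : IsComponent D δ V E) (α β : Corner)
    (hα : α.1 ∈ V) (hβ : β.1 ∈ V) (oα : IsOuter E α) (oβ : IsOuter E β) (hne : α.1 ≠ β.1) :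
    DDomain where
  V := V
  E := E
  finV := (finite_lattice hδ hb).subset hX.sub
  subE := by
    intro e he
    induction e using Sym2.ind with
    | _ u v =>
      obtain ⟨h1, h2⟩ := (hX.edges u v).1 he
      refine ⟨h2.1, fun w hw => ?_⟩
      rcases Sym2.mem_iff.1 hw with rfl | rfl
      · exact h1
      · exact (hX.comp u h1 _).2 h2.reachable
  conn := conn_of_component hX
  noHole := noHole_of_component hδ hDc hb hX
  α := α
  β := β
  memα := hα
  memβ := hβ
  outα := oα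
  outβ := oβ
  ne := hne

/-! ### runs -/

/-- the corner is followed by a turn -/
def clo (D : Set ℂ) (δ : ℝ) (c : Corner) : Prop := ¬op D δ c.1 c.2

variable {X : DDomain} (hX : IsComponent D δ X.V X.E)
include hX

lemma next_of_clo {c : Corner} (hc : c.1 ∈ X.V) (h : clo D δ c) : next X.E c = (c.1, c.2 - 1) :=
  next_clo hX hc h

lemma next_of_op {c : Corner} (hc : c.1 ∈ X.V) (h : ¬clo D δ c) :
    next X.E c = (c.1 + dir c.2, c.2 + 1) :=
  next_op hX hc (not_not.1 h)

/-- Among four successive outer corners one is followed by a turn. -/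
lemma run4 {c : Corner} (hc : c.1 ∈ X.V) (ho : IsOuter X.E c) :
    ∃ r < 4, clo D δ ((next X.E)^[r] c) := by
  by_contra hcon
  push Not at hcon
  obtain ⟨v, q⟩ := c
  have h0 := not_not.1 (hcon 0 (by omega))
  have n1 : (next X.E)^[1] (v, q) = (v + dir q, q + 1) := by
    rw [Function.iterate_one]; exact next_op hX hc h0
  have h1 := not_not.1 (hcon 1 (by omega))
  rw [n1] at h1
  have n2 : (next X.E)^[2] (v, q) = (v + dir q + dir (q + 1), q + 1 + 1) := by
    rw [Function.iterate_succ_apply', n1]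
    exact next_op hX (by have h9 := iter_mem hX hc 1; rw [n1] at h9; exact h9) h1
  have h2 := not_not.1 (hcon 2 (by omega))
  rw [n2] at h2
  have n3 : (next X.E)^[3] (v, q) =
      (v + dir q + dir (q + 1) + dir (q + 1 + 1), q + 1 + 1 + 1) := by
    rw [Function.iterate_succ_apply', n2]
    exact next_op hX (by have h9 := iter_mem hX hc 2; rw [n2] at h9; exact h9) h2
  have h3 := not_not.1 (hcon 3 (by omega))
  rw [n3] at h3
  refine not_outer_of_inn hX (c := (v, q)) hc ?_ ho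
  rw [inn_iff]
  have e1 : q + 1 + 1 = q + 2 := by rw [add_assoc]; rfl
  have e2 : q + 2 + 1 = q + 3 := by rw [add_assoc]; rfl
  simp only [e1, e2] at h2 h3
  refine ⟨h0, h1, h2, ?_⟩
  have e3 : v + dir q + dir (q + 1) + dir (q + 2) = v + dir (q + 1) := by
    rw [dir_add_two]; abel
  rwa [e3] at h3

/-- Every outer corner comes at most four steps after a turn. -/
lemma exists_pred {c : Corner} (hc : c.1 ∈ X.V) (ho : IsOuter X.E c) :
    ∃ a : Corner, a.1 ∈ X.V ∧ IsOuter X.E a ∧ clo D δ a ∧ ∃ r, 1 ≤ r ∧ r ≤ 4 ∧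
      (next X.E)^[r] a = c ∧ ∀ j, 0 < j → j < r → ¬clo D δ ((next X.E)^[j] a) := by
  classical
  obtain ⟨i, hi⟩ := orbit_outer X (next_mem hX hc) hc (outer_next ho) ho
  have hper : Function.IsPeriodicPt (next X.E) (i + 1) c := by
    unfold Function.IsPeriodicPt Function.IsFixedPt
    rw [Function.iterate_succ_apply]; exact hi
  have hM : (next X.E)^[4 * (i + 1)] c = c := (hper.const_mul 4)
  set M := 4 * (i + 1) with hMd
  obtain ⟨r', hr', hclo⟩ := run4 hX (iter_mem hX hc (M - 4)) (outer_iter ho (M - 4))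
  have hex : ∃ r, 1 ≤ r ∧ clo D δ ((next X.E)^[M - r] c) := by
    refine ⟨4 - r', by omega, ?_⟩
    rw [← Function.iterate_add_apply] at hclo
    convert hclo using 3; omega
  set r := Nat.find hex with hr
  obtain ⟨h1, h2⟩ := Nat.find_spec hex
  have hr4 : r ≤ 4 := by
    refine (Nat.find_min' hex (m := 4 - r') ⟨by omega, ?_⟩).trans (by omega)
    rw [← Function.iterate_add_apply] at hclo
    convert hclo using 3; omega
  refine ⟨(next X.E)^[M - r] c, iter_mem hX hc _, outer_iter ho _, h2, r, h1, hr4, ?_, ?_⟩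
  · rw [← Function.iterate_add_apply]
    have : r + (M - r) = M := by omega
    rw [this, hM]
  · intro j hj0 hjr hcl
    refine Nat.find_min hex (m := r - j) (by omega) ⟨by omega, ?_⟩
    rw [← Function.iterate_add_apply] at hcl
    convert hcl using 3; omega

omit hX in
/-- The last corner followed by a turn before the time `k` (started at `a`). -/
noncomputable def lst (D : Set ℂ) (δ : ℝ) (X : DDomain) (a : Corner) : ℕ → Corner
  | 0 => a
  | k + 1 => open Classical in
    if clo D δ ((next X.E)^[k] a) then (next X.E)^[k] a else lst D δ X a k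

lemma lst_spec {a : Corner} (ha : a.1 ∈ X.V) (ho : IsOuter X.E a) (hcl : clo D δ a) (k : ℕ) :
    ∃ j ≤ k, lst D δ X a (k + 1) = (next X.E)^[j] a ∧ clo D δ ((next X.E)^[j] a) ∧ k ≤ j + 3 ∧
      ∀ i, j < i → i ≤ k → ¬clo D δ ((next X.E)^[i] a) := by
  induction k with
  | zero =>
    refine ⟨0, le_rfl, ?_, hcl, by omega, fun i h1 h2 => by omega⟩
    have : clo D δ ((next X.E)^[0] a) := hcl
    simp only [lst]
    rw [if_pos this]
  | succ k ih =>
    obtain ⟨j, h1, h2, h3, h4, h5⟩ := ih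
    by_cases hc : clo D δ ((next X.E)^[k + 1] a)
    · refine ⟨k + 1, le_rfl, ?_, hc, by omega, fun i h1 h2 => by omega⟩
      rw [lst, if_pos hc]
    · have h6 : ∀ i, j < i → i ≤ k + 1 → ¬clo D δ ((next X.E)^[i] a) := by
        intro i hi hi'
        rcases Nat.lt_or_ge k i with h | h
        · have : i = k + 1 := by omega
          rw [this]; exact hc
        · exact h5 i hi h
      refine ⟨j, by omega, ?_, h3, ?_, h6⟩
      · rw [lst, if_neg hc]; exact h2
      · by_contra hcon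
        obtain ⟨r, hr, hr'⟩ := run4 hX (iter_mem hX ha (j + 1)) (outer_iter ho (j + 1))
        rw [← Function.iterate_add_apply] at hr'
        exact h6 (r + (j + 1)) (by omega) (by omega) hr'

lemma norm_step (hδ : 0 < δ) {c : Corner} (hc : c.1 ∈ X.V) :
    ‖pt δ (next X.E c).1 - pt δ c.1‖ ≤ δ := by
  obtain ⟨v, q⟩ := c
  by_cases h : op D δ v q
  · rw [next_op hX hc h]
    simp only
    rw [← rp_one v q, ← rp_zero v q]
    refine (norm_rp_sub v q _ _ _ _).trans ?_
    rw [abs_of_pos hδ]; norm_num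
  · rw [next_clo hX hc h]; simp [hδ.le]

lemma norm_iter (hδ : 0 < δ) {c : Corner} (hc : c.1 ∈ X.V) (k : ℕ) :
    ‖pt δ ((next X.E)^[k] c).1 - pt δ c.1‖ ≤ k * δ := by
  induction k with
  | zero => simp
  | succ k ih =>
    rw [Function.iterate_succ_apply']
    have h1 := norm_step hX hδ (iter_mem hX hc k)
    have h2 := norm_add_le (pt δ (next X.E ((next X.E)^[k] c)).1 - pt δ ((next X.E)^[k] c).1)
      (pt δ ((next X.E)^[k] c).1 - pt δ c.1)
    rw [sub_add_sub_cancel] at h2
    push_cast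
    linarith

/-- The contour is within `4δ` of the boundary point seen last. -/
lemma norm_lst (hD : IsOpen D) (hδ : 0 < δ) {a : Corner} (ha : a.1 ∈ X.V) (ho : IsOuter X.E a)
    (hcl : clo D δ a) (k : ℕ) :
    ‖pt δ ((next X.E)^[k + 1] a).1 - xb D δ (lst D δ X a (k + 1)).1 (lst D δ X a (k + 1)).2‖ ≤
      4 * δ := by
  obtain ⟨j, h1, h2, h3, h4, -⟩ := lst_spec hX ha ho hcl k
  rw [h2]
  have hj := iter_mem hX ha j
  have e1 := norm_xb_sub hD hδ (hX.sub _ hj) h3
  have e2 : ((next X.E)^[j + 1] a).1 = ((next X.E)^[j] a).1 := by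
    rw [Function.iterate_succ_apply', next_of_clo hX hj h3]
  have e3 := norm_iter hX hδ (iter_mem hX ha (j + 1)) (k - j)
  rw [← Function.iterate_add_apply] at e3
  have e4 : k - j + (j + 1) = k + 1 := by omega
  rw [e4, e2] at e3
  have e5 : ((k - j : ℕ) : ℝ) ≤ 3 := by exact_mod_cast (by omega : k - j ≤ 3)
  have e6 : ((k - j : ℕ) : ℝ) * δ ≤ 3 * δ := mul_le_mul_of_nonneg_right e5 hδ.le
  have e7 := norm_sub_le (pt δ ((next X.E)^[k + 1] a).1 - pt δ ((next X.E)^[j] a).1)
    (xb D δ ((next X.E)^[j] a).1 ((next X.E)^[j] a).2 - pt δ ((next X.E)^[j] a).1)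
  rw [sub_sub_sub_cancel_right] at e7
  linarith

end Pool.Agent.H42.MJ
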