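import Pool.Agent.H42.MJ.Contour

set_option autoImplicit false
open Set Topology Filter
open Pool.Agent.H81.Q1

/-! # The total winding of the outer contour around the centre of a face -/

namespace Pool.Agent.H42.MJ

variable {D : Set ℂ} {δ : ℝ}

lemma arg_div_of_re_pos {a b : ℂ} (ha : 0 < a.re) (hb : 0 < b.re) :
    (b / a).arg = b.arg - a.arg := by
  have ha0 : a ≠ 0 := by rintro rfl; simp at ha
  have hb0 : b ≠ 0 := by rintro rfl; simp at hb
  have h1 := Complex.abs_arg_lt_pi_div_two_iff.2 (Or.inl ha)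
  have h2 := Complex.abs_arg_lt_pi_div_two_iff.2 (Or.inl hb)
  rw [abs_lt] at h1 h2
  have hpi := Real.pi_pos
  have h3 : a⁻¹.arg = -a.arg := by
    rw [Complex.arg_inv, if_neg]
    intro h; rw [h] at h1; linarith
  rw [div_eq_mul_inv, Complex.arg_mul hb0 (inv_ne_zero ha0), h3]
  · ring
  · rw [h3]; constructor <;> linarith

/-- The centre of a face. -/
noncomputable def ctr (δ : ℝ) (g : ℤ × ℤ) : ℂ := ⟨δ * (g.1 + 1 / 2), δ * (g.2 + 1 / 2)⟩

/-- Turning of the edge leaving `v` in direction `q` around `z`. -/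
noncomputable def al (δ : ℝ) (z : ℂ) (v : ℤ × ℤ) (q : ZMod 4) : ℝ :=
  ((pt δ (v + dir q) - z) / (pt δ v - z)).arg

lemma half_ne (m n : ℤ) : (m : ℝ) - (n + 1 / 2) ≠ 0 := by
  intro h
  have h2 : (2 * (m - n) : ℝ) = 1 := by linarith
  have h3 : 2 * (m - n) = 1 := by exact_mod_cast h2
  omega

lemma pt_sub_ctr (v g : ℤ × ℤ) :
    pt δ v - ctr δ g = ⟨δ * (v.1 - (g.1 + 1 / 2)), δ * (v.2 - (g.2 + 1 / 2))⟩ := by
  apply Complex.ext <;> simp [pt, ctr] <;> ring

lemma pt_ne_ctr (hδ : δ ≠ 0) (v g : ℤ × ℤ) : pt δ v - ctr δ g ≠ 0 := by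
  rw [pt_sub_ctr]
  intro h
  have h1 := congrArg Complex.re h
  simp only [Complex.zero_re, mul_eq_zero] at h1
  rcases h1 with h1 | h1
  · exact hδ h1
  · exact half_ne _ _ h1

lemma al_rev (hδ : δ ≠ 0) (g v : ℤ × ℤ) (q : ZMod 4) :
    al δ (ctr δ g) (v + dir q) (q + 2) = -al δ (ctr δ g) v q := by
  unfold al
  rw [dir_add_two, add_neg_cancel_right, ← inv_div, Complex.arg_inv, if_neg]
  intro h
  obtain ⟨h1, h2⟩ := Complex.arg_eq_pi_iff.1 h
  set w := (pt δ (v + dir q) - ctr δ g) / (pt δ v - ctr δ g) with hw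
  have h3 : w * (pt δ v - ctr δ g) = pt δ (v + dir q) - ctr δ g := by
    rw [hw, div_mul_cancel₀ _ (pt_ne_ctr hδ v g)]
  rw [pt_sub_ctr, pt_sub_ctr] at h3
  have h4 := congrArg Complex.re h3
  have h5 := congrArg Complex.im h3
  simp only [Complex.mul_re, Complex.mul_im, h2, zero_mul, sub_zero, add_zero, Prod.fst_add,
    Prod.snd_add] at h4 h5
  push_cast at h4 h5
  have h6 : w.re * ((v.1 : ℝ) - (g.1 + 1 / 2)) = v.1 + (dir q).1 - (g.1 + 1 / 2) := by
    apply mul_left_cancel₀ hδ; linarith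
  have h7 : w.re * ((v.2 : ℝ) - (g.2 + 1 / 2)) = v.2 + (dir q).2 - (g.2 + 1 / 2) := by
    apply mul_left_cancel₀ hδ; linarith
  have key : ∀ a : ℝ, a ≠ 0 → w.re * a ≠ a := by
    intro a ha h8
    have h9 : (w.re - 1) * a = 0 := by linarith
    rcases mul_eq_zero.1 h9 with h10 | h10
    · linarith
    · exact ha h10
  rcases dir_cases q with h | h | h | h <;> rw [h] at h6 h7 <;> push_cast at h6 h7
  · exact key _ (half_ne v.2 g.2) (by linarith)
  · exact key _ (half_ne v.1 g.1) (by linarith)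
  · exact key _ (half_ne v.2 g.2) (by linarith)
  · exact key _ (half_ne v.1 g.1) (by linarith)

/-- The offset of the vertex of the corner `(v, q)` from its face. -/
def off (q : ZMod 4) : ℤ × ℤ :=
  if q = 0 then (0, 0) else if q = 1 then (1, 0) else if q = 2 then (1, 1) else (0, 1)

lemma off_0 : off 0 = (0, 0) := by decide
lemma off_1 : off 1 = (1, 0) := by decide
lemma off_2 : off 2 = (1, 1) := by decide
lemma off_3 : off 3 = (0, 1) := by decide

lemma face_off (f : ℤ × ℤ) (q : ZMod 4) : Corner.face (f + off q, q) = f := by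
  obtain ⟨a, b⟩ := f
  have d1 : (2 : ZMod 4) ≠ 0 := by decide
  have d2 : (2 : ZMod 4) ≠ 1 := by decide
  have d3 : (3 : ZMod 4) ≠ 0 := by decide
  have d4 : (3 : ZMod 4) ≠ 1 := by decide
  have d5 : (3 : ZMod 4) ≠ 2 := by decide
  have d6 : (1 : ZMod 4) ≠ 0 := by decide
  rcases zmod4 q with rfl | rfl | rfl | rfl
  · simp [Corner.face, off_0]
  · simp [Corner.face, off_1, d6]
  · simp [Corner.face, off_2, d1, d2]
  · simp [Corner.face, off_3, d3, d4, d5]

lemma off_face (v : ℤ × ℤ) (q : ZMod 4) : Corner.face (v, q) + off q = v := by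
  obtain ⟨a, b⟩ := v
  have d1 : (2 : ZMod 4) ≠ 0 := by decide
  have d2 : (2 : ZMod 4) ≠ 1 := by decide
  have d3 : (3 : ZMod 4) ≠ 0 := by decide
  have d4 : (3 : ZMod 4) ≠ 1 := by decide
  have d5 : (3 : ZMod 4) ≠ 2 := by decide
  have d6 : (1 : ZMod 4) ≠ 0 := by decide
  rcases zmod4 q with rfl | rfl | rfl | rfl
  · simp [Corner.face, off_0]
  · simp [Corner.face, off_1, d6]
  · simp [Corner.face, off_2, d1, d2]
  · simp [Corner.face, off_3, d3, d4, d5]

lemma sum_zmod4 (F : ZMod 4 → ℝ) : ∑ q, F q = F 0 + F 1 + F 2 + F 3 := Fin.sum_univ_four F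

/-- The turning of the sides of a face around its centre. -/
lemma face_sum_self (hδ : δ ≠ 0) (g : ℤ × ℤ) :
    ∑ q, al δ (ctr δ g) (g + off q) q = 2 * Real.pi := by
  have key : ∀ q : ZMod 4, al δ (ctr δ g) (g + off q) q = Real.pi / 2 := by
    intro q
    unfold al
    have : (pt δ (g + off q + dir q) - ctr δ g) / (pt δ (g + off q) - ctr δ g) = Complex.I := by
      rw [div_eq_iff (pt_ne_ctr hδ _ g), pt_sub_ctr, pt_sub_ctr]
      apply Complex.ext <;> rcases zmod4 q with rfl | rfl | rfl | rfl <;>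
        simp [off_0, off_1, off_2, off_3, dir_0, dir_1, dir_2, dir_3] <;> ring_nf <;> simp
    rw [this, Complex.arg_I]
  simp only [key]
  rw [sum_zmod4]; ring

/-- The turning of the sides of a face around the centre of another face. -/
lemma face_sum_ne (hδ : 0 < δ) {f g : ℤ × ℤ} (hfg : f ≠ g) :
    ∑ q, al δ (ctr δ g) (f + off q) q = 0 := by
  have hI : ∀ (u : ℂ), u ≠ 0 → (∀ q : ZMod 4, 0 < (u * (pt δ (f + off q) - ctr δ g)).re) →
      ∑ q, al δ (ctr δ g) (f + off q) q = 0 := by
    intro u hu h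
    have h1 : ∀ q : ZMod 4, al δ (ctr δ g) (f + off q) q =
        (u * (pt δ (f + off (q + 1)) - ctr δ g)).arg -
          (u * (pt δ (f + off q) - ctr δ g)).arg := by
      intro q
      rw [← arg_div_of_re_pos (h q) (h (q + 1)), mul_div_mul_left _ _ hu]
      unfold al
      have : f + off q + dir q = f + off (q + 1) := by
        rw [add_assoc]; congr 1; revert q; decide
      rw [this]
    have e1 : (0 + 1 : ZMod 4) = 1 := by decide
    have e2 : (1 + 1 : ZMod 4) = 2 := by decide
    have e3 : (2 + 1 : ZMod 4) = 3 := by decide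
    have e4 : (3 + 1 : ZMod 4) = 0 := by decide
    rw [sum_zmod4, h1, h1, h1, h1, e1, e2, e3, e4]; ring
  have hoff : ∀ q : ZMod 4, 0 ≤ (off q).1 ∧ (off q).1 ≤ 1 ∧ 0 ≤ (off q).2 ∧ (off q).2 ≤ 1 := by
    decide
  have hoff' : ∀ q : ZMod 4, (0 : ℝ) ≤ (off q).1 ∧ ((off q).1 : ℝ) ≤ 1 ∧ (0 : ℝ) ≤ (off q).2 ∧
      ((off q).2 : ℝ) ≤ 1 := by
    intro q
    obtain ⟨h1, h2, h3, h4⟩ := hoff q
    exact ⟨by exact_mod_cast h1, by exact_mod_cast h2, by exact_mod_cast h3, by exact_mod_cast h4⟩
  by_cases h1 : f.1 = g.1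
  · have h2 : f.2 ≠ g.2 := fun h => hfg (Prod.ext h1 h)
    rcases lt_or_gt_of_ne h2 with h3 | h3
    · have h4 : (f.2 : ℝ) + 1 ≤ g.2 := by exact_mod_cast h3
      refine hI Complex.I Complex.I_ne_zero fun q => ?_
      rw [pt_sub_ctr]
      simp only [Complex.mul_re, Complex.I_re, Complex.I_im, zero_mul, one_mul, Prod.snd_add]
      push_cast
      have := hoff' q
      nlinarith
    · have h4 : (g.2 : ℝ) + 1 ≤ f.2 := by exact_mod_cast h3
      refine hI (-Complex.I) (neg_ne_zero.2 Complex.I_ne_zero) fun q => ?_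
      rw [pt_sub_ctr]
      simp only [Complex.mul_re, Complex.neg_re, Complex.neg_im, Complex.I_re, Complex.I_im,
        Prod.snd_add]
      push_cast
      have := hoff' q
      nlinarith
  · rcases lt_or_gt_of_ne h1 with h3 | h3
    · have h4 : (f.1 : ℝ) + 1 ≤ g.1 := by exact_mod_cast h3
      refine hI (-1) (by norm_num) fun q => ?_
      rw [pt_sub_ctr]
      simp only [Complex.mul_re, Complex.neg_re, Complex.neg_im, Complex.one_re, Complex.one_im,
        Prod.fst_add]
      push_cast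
      have := hoff' q
      nlinarith
    · have h4 : (g.1 : ℝ) + 1 ≤ f.1 := by exact_mod_cast h3
      refine hI 1 one_ne_zero fun q => ?_
      rw [pt_sub_ctr]
      simp only [Complex.mul_re, Complex.one_re, Complex.one_im, Prod.fst_add]
      push_cast
      have := hoff' q
      nlinarith

/-- Turning of one step of the contour around `z`. -/
noncomputable def stp (X : DDomain) (δ : ℝ) (z : ℂ) (c : Corner) : ℝ :=
  ((pt δ (next X.E c).1 - z) / (pt δ c.1 - z)).arg

section

variable {X : DDomain} (hX : IsComponent D δ X.V X.E)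
include hX

lemma stp_op {z : ℂ} {v : ℤ × ℤ} {q : ZMod 4} (hv : v ∈ X.V) (h : op D δ v q) :
    stp X δ z (v, q) = al δ z v q := by
  unfold stp al; rw [next_op hX hv h]

lemma stp_clo {z : ℂ} {v : ℤ × ℤ} {q : ZMod 4} (hv : v ∈ X.V) (h : ¬op D δ v q)
    (hz : pt δ v - z ≠ 0) : stp X δ z (v, q) = 0 := by
  unfold stp; rw [next_clo hX hv h, div_self hz, Complex.arg_one]

/-- **The total turning of the outer contour.** -/
theorem total (hδ : 0 < δ) (hDc : IsPreconnected Dᶜ) (hb : Bornology.IsBounded D) {a : Corner}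
    (haV : a.1 ∈ X.V) (ha : IsOuter X.E a) (g : ℤ × ℤ) :
    ∑ k ∈ Finset.range (Function.minimalPeriod (next X.E) a),
      stp X δ (ctr δ g) ((next X.E)^[k] a) =
      (open Classical in if g ∈ X.V ∧ Inn D δ g then -(2 * Real.pi) else 0) := by
  classical
  set z := ctr δ g with hz
  set N := Function.minimalPeriod (next X.E) a with hN
  set C : Finset Corner := X.finV.toFinset ×ˢ Finset.univ with hC
  have memC : ∀ c : Corner, c ∈ C ↔ c.1 ∈ X.V := fun c => by simp [hC]
  have hper : 0 < N := by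
    obtain ⟨i, hi⟩ := orbit_outer X (next_mem hX haV) haV (outer_next ha) ha
    refine Function.IsPeriodicPt.minimalPeriod_pos (n := i + 1) (Nat.succ_pos i) ?_
    unfold Function.IsPeriodicPt Function.IsFixedPt
    rw [Function.iterate_succ_apply]; exact hi
  -- all corners
  have h1 : ∑ c ∈ C, stp X δ z c = 0 := by
    refine Finset.sum_involution
      (fun c _ => if op D δ c.1 c.2 then (c.1 + dir c.2, c.2 + 2) else c) ?_ ?_ ?_ ?_
    · intro c hc
      have hcV := (memC c).1 hc
      obtain ⟨v, q⟩ := c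
      split_ifs with h
      · rw [stp_op hX hcV h, stp_op hX (mem_dir hX hcV h) (op_rev.2 h), hz, al_rev hδ.ne']
        ring
      · rw [stp_clo hX hcV h (pt_ne_ctr hδ.ne' _ _), add_zero]
    · intro c hc h0
      have hcV := (memC c).1 hc
      obtain ⟨v, q⟩ := c
      split_ifs with h
      · intro h2
        have h3 := congrArg Prod.fst h2
        simp only [add_eq_left] at h3
        exact dir_ne_zero q h3
      · exact absurd (stp_clo hX hcV h (pt_ne_ctr hδ.ne' _ _)) h0
    · intro c hc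
      have hcV := (memC c).1 hc
      rw [memC]
      split_ifs with h
      · exact mem_dir hX hcV h
      · exact hcV
    · intro c hc
      obtain ⟨v, q⟩ := c
      by_cases h : op D δ v q
      · simp only [h, if_true, op_rev.2 h]
        rw [dir_add_two, add_neg_cancel_right, add_assoc]
        have : (2 + 2 : ZMod 4) = 0 := by decide
        rw [this, add_zero]
      · simp only [h, if_false]
  -- inner corners
  set F : Finset (ℤ × ℤ) := X.finV.toFinset.filter fun f => Inn D δ f with hF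
  have memF : ∀ f, f ∈ F ↔ f ∈ X.V ∧ Inn D δ f := fun f => by simp [hF]
  have hoffV : ∀ f ∈ F, ∀ q, f + off q ∈ X.V := by
    intro f hf q
    obtain ⟨hf1, hf2⟩ := (memF f).1 hf
    have h0 : Corner.face (f, 0) = f := by simp [Corner.face]
    obtain ⟨v1, v2, v3, v4⟩ := inn_vertices hX (v := f) (q := 0) hf1 (by rw [h0]; exact hf2)
    rw [h0] at v1 v2 v3 v4
    rcases zmod4 q with rfl | rfl | rfl | rfl
    · rw [off_0, Prod.mk_zero_zero, add_zero]; exact v1
    · rw [off_1]; exact v2
    · rw [off_2]; exact v3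
    · rw [off_3]; exact v4
  have hop : ∀ f ∈ F, ∀ q, op D δ (f + off q) q := by
    intro f hf q
    obtain ⟨-, o1, o2, o3, o4⟩ := (memF f).1 hf
    rcases zmod4 q with rfl | rfl | rfl | rfl
    · rw [off_0, Prod.mk_zero_zero, add_zero]; exact o1
    · rw [off_1]; exact o2
    · rw [off_2]; exact o3
    · rw [off_3]; exact o4
  have h2 : ∑ c ∈ C.filter (fun c => ¬IsOuter X.E c), stp X δ z c =
      ∑ p ∈ F ×ˢ (Finset.univ : Finset (ZMod 4)), stp X δ z (p.1 + off p.2, p.2) := by
    refine Finset.sum_bij' (fun c _ => (c.face, c.2)) (fun p _ => (p.1 + off p.2, p.2))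
      ?_ ?_ ?_ ?_ ?_
    · intro c hc
      obtain ⟨hc1, hc2⟩ := Finset.mem_filter.1 hc
      have hcV := (memC c).1 hc1
      have hin : Inn D δ c.face := by
        by_contra h
        exact hc2 ((outer_iff hX hδ hDc hb hcV).2 h)
      simp only [Finset.mem_product, Finset.mem_univ, and_true]
      exact (memF _).2 ⟨(inn_vertices hX (v := c.1) (q := c.2) hcV hin).1, hin⟩
    · intro p hp
      simp only [Finset.mem_product, Finset.mem_univ, and_true] at hp
      have hV := hoffV p.1 hp p.2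
      refine Finset.mem_filter.2 ⟨(memC _).2 hV, ?_⟩
      refine not_outer_of_inn hX hV ?_
      rw [face_off]
      exact ((memF _).1 hp).2
    · intro c _
      simp only
      rw [show c.face = Corner.face (c.1, c.2) from rfl, off_face]
    · intro p _
      simp only
      rw [face_off]
    · intro c _
      simp only
      rw [show c.face = Corner.face (c.1, c.2) from rfl, off_face]
  have h3 : ∑ p ∈ F ×ˢ (Finset.univ : Finset (ZMod 4)), stp X δ z (p.1 + off p.2, p.2) =
      if g ∈ X.V ∧ Inn D δ g then 2 * Real.pi else 0 := by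
    rw [Finset.sum_product]
    have h4 : ∀ f ∈ F, ∑ q : ZMod 4, stp X δ z (f + off q, q) =
        if f = g then 2 * Real.pi else 0 := by
      intro f hf
      have h5 : ∀ q : ZMod 4, stp X δ z (f + off q, q) = al δ z (f + off q) q := fun q =>
        stp_op hX (hoffV f hf q) (hop f hf q)
      rw [Finset.sum_congr rfl fun q _ => h5 q]
      split_ifs with hfg
      · subst hfg; exact face_sum_self hδ.ne' f
      · exact face_sum_ne hδ hfg
    rw [Finset.sum_congr rfl h4, Finset.sum_ite_eq' F g]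
    simp only [memF]
  -- outer corners
  have h4 : ∑ c ∈ C.filter (fun c => IsOuter X.E c), stp X δ z c =
      ∑ k ∈ Finset.range N, stp X δ z ((next X.E)^[k] a) := by
    symm
    refine Finset.sum_bij (fun k _ => (next X.E)^[k] a) ?_ ?_ ?_ ?_
    · intro k _
      exact Finset.mem_filter.2 ⟨(memC _).2 (iter_mem hX haV k), outer_iter ha k⟩
    · intro k hk l hl hkl
      exact Function.iterate_injOn_Iio_minimalPeriod (Finset.mem_range.1 hk)
        (Finset.mem_range.1 hl) hkl
    · intro c hc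
      obtain ⟨hc1, hc2⟩ := Finset.mem_filter.1 hc
      obtain ⟨i, hi⟩ := orbit_outer X haV ((memC c).1 hc1) ha hc2
      refine ⟨i % N, Finset.mem_range.2 (Nat.mod_lt _ hper), ?_⟩
      rw [hN, Function.iterate_mod_minimalPeriod_eq, hi]
    · intro k _; rfl
  have h5 := Finset.sum_filter_add_sum_filter_not C (fun c => IsOuter X.E c) (stp X δ z)
  rw [h1, h4, h2, h3] at h5
  have h6 : (∑ k ∈ Finset.range N, stp X δ z ((next X.E)^[k] a)) =
    -(if g ∈ X.V ∧ Inn D δ g then 2 * Real.pi else 0) := by linarith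
  rw [h6]
  split_ifs <;> simp

end

end Pool.Agent.H42.MJ
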