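import Pool.Agent.H42.MJ.Arc
import Pool.Agent.H42.MJ.Sum
import Pool.Agent.H42.MJ.Runs
import Pool.Agent.H42.MJ.Key

set_option autoImplicit false
open Set Topology Filter
open scoped Real
open Pool.Agent.H81.Q1

/-! # The two parts of the contour between two boundary corners follow the two arcs of the boundary,
and the orientation decides which one -/

namespace Pool.Agent.H42.MJ

open Pool.Agent.H14.Jordan

variable {D : Set ℂ} {ρ : ℝ → ℂ}

/-- **A walk near an arc of the curve.** -/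
lemma arc_walk (hJ : IsJD D ρ) {z0 : ℂ} (hz0 : z0 ∈ D) {L : ℝ → ℂ} (hLc : Continuous L)
    (hL : ∀ t, Complex.exp (L t) = ρ t - z0) {η R : ℝ} (hη : 0 < η) :
    ∃ ε > 0, ∀ δ z, 0 < δ → δ < ε → ‖z - z0‖ < ε → ∀ u v, -R ≤ u → v ≤ R → v - u ≤ 2 * π - η →
      ∀ (p x : ℕ → ℂ) (i j : ℕ), i ≤ j → (∀ k, i ≤ k → k ≤ j → x k ∈ ρ '' Icc u v) →
      (∀ k, i ≤ k → k ≤ j → ‖p k - x k‖ ≤ 4 * δ) →
      (∀ k, i ≤ k → k < j → ‖p (k + 1) - p k‖ ≤ δ) → ∀ σ τ, σ ∈ Icc u v → τ ∈ Icc u v →
      x i = ρ σ → x j = ρ τ →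
      ∑ k ∈ Finset.Ico i j, ((p (k + 1) - z) / (p k - z)).arg =
        (L τ).im - (L σ).im + ((p j - z) / (x j - z0)).arg - ((p i - z) / (x i - z0)).arg := by
  obtain ⟨r0, hr0, hball⟩ := Metric.isOpen_iff.1 hJ.isOpen z0 hz0
  have hfar : ∀ t, r0 ≤ ‖ρ t - z0‖ := by
    intro t
    by_contra hc
    push Not at hc
    refine hJ.notMem (hball ?_) ⟨t, rfl⟩
    rwa [Metric.mem_ball, dist_eq_norm]
  -- uniform continuity of the lift
  have hu1 : UniformContinuousOn (fun t => (L t).im) (Icc (-R) R) :=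
    isCompact_Icc.uniformContinuousOn_of_continuous (by fun_prop)
  obtain ⟨η1, hη1, hu2⟩ := Metric.uniformContinuousOn_iff.1 hu1 (π / 2) (by positivity)
  obtain ⟨δ1, hδ1, hinv⟩ := hJ.loop.uniform_inv (η := min η1 (η / 2)) (by positivity)
  refine ⟨min (r0 / 8) (δ1 / 9), by positivity, ?_⟩
  intro δ z hδ hδε hz u v hu hv huv p x i j hij hx hpx hpp σ τ hσ hτ hxi hxj
  have hδ8 : δ < r0 / 8 := hδε.trans_le (min_le_left _ _)
  have hδ9 : δ < δ1 / 9 := hδε.trans_le (min_le_right _ _)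
  have hz8 : ‖z - z0‖ < r0 / 8 := hz.trans_le (min_le_left _ _)
  have hinj : InjOn ρ (Icc u v) := hJ.loop.injOn (by linarith)
  have hT : ∀ k, ∃ t, i ≤ k → k ≤ j → t ∈ Icc u v ∧ ρ t = x k := by
    intro k
    by_cases h : i ≤ k ∧ k ≤ j
    · obtain ⟨t, ht, ht'⟩ := hx k h.1 h.2
      exact ⟨t, fun _ _ => ⟨ht, ht'⟩⟩
    · exact ⟨0, fun h1 h2 => absurd ⟨h1, h2⟩ h⟩
  choose T hT using hT
  have hTi : T i = σ := hinj (hT i le_rfl hij).1 hσ (by rw [(hT i le_rfl hij).2, hxi])
  have hTj : T j = τ := hinj (hT j hij le_rfl).1 hτ (by rw [(hT j hij le_rfl).2, hxj])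
  have h1 : ∀ k, i ≤ k → k ≤ j → ‖(p k - z) - (ρ (T k) - z0)‖ < ‖ρ (T k) - z0‖ := by
    intro k hk hk'
    refine lt_of_lt_of_le ?_ (hfar (T k))
    rw [(hT k hk hk').2]
    have e1 : (p k - z) - (x k - z0) = (p k - x k) - (z - z0) := by ring
    rw [e1]
    have e2 := norm_sub_le (p k - x k) (z - z0)
    have e3 := hpx k hk hk'
    linarith
  have h2 : ∀ k, i ≤ k → k < j → ‖p (k + 1) - p k‖ < ‖p k - z‖ := by
    intro k hk hk'
    refine (hpp k hk hk').trans_lt ?_
    have e1 := norm_sub_norm_le (ρ (T k) - z0) ((ρ (T k) - z0) - (p k - z))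
    rw [sub_sub_cancel] at e1
    have e2 := hfar (T k)
    have e3 : ‖(ρ (T k) - z0) - (p k - z)‖ ≤ 4 * δ + ‖z - z0‖ := by
      rw [(hT k hk hk'.le).2]
      have e4 : (x k - z0) - (p k - z) = (z - z0) - (p k - x k) := by ring
      rw [e4]
      have e5 := norm_sub_le (z - z0) (p k - x k)
      have e6 := hpx k hk hk'.le
      linarith
    linarith
  have h3 : ∀ k, i ≤ k → k < j → |(L (T (k + 1))).im - (L (T k)).im| < π / 2 := by
    intro k hk hk'
    obtain ⟨m1, m2⟩ := hT k hk hk'.le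
    obtain ⟨m3, m4⟩ := hT (k + 1) (by omega) hk'
    have e1 : dist (ρ (T (k + 1))) (ρ (T k)) < δ1 := by
      rw [m2, m4, dist_eq_norm]
      have e2 : x (k + 1) - x k = (p (k + 1) - p k) - (p (k + 1) - x (k + 1)) + (p k - x k) := by
        ring
      rw [e2]
      have e3 := norm_add_le ((p (k + 1) - p k) - (p (k + 1) - x (k + 1))) (p k - x k)
      have e4 := norm_sub_le (p (k + 1) - p k) (p (k + 1) - x (k + 1))
      have e5 := hpp k hk hk'
      have e6 := hpx k hk hk'.le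
      have e7 := hpx (k + 1) (by omega) hk'
      linarith
    obtain ⟨n, hn⟩ := hinv _ _ e1
    have hn0 : n = 0 := by
      have e2 : |(n : ℝ)| < 1 := by
        have e3 : |T (k + 1) - T k| ≤ v - u := by
          rw [abs_le]; constructor <;> linarith [m1.1, m1.2, m3.1, m3.2]
        have e4 : |(n : ℝ) * (2 * π)| < 2 * π := by
          have e5 : (n : ℝ) * (2 * π) = (T (k + 1) - T k) - (T (k + 1) - T k - n * (2 * π)) := by
            ring
          rw [e5]
          refine (abs_sub _ _).trans_lt ?_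
          have := hn.trans_le (min_le_right _ _)
          linarith
        rw [abs_mul, abs_of_pos Real.two_pi_pos] at e4
        by_contra hc
        push Not at hc
        nlinarith [Real.two_pi_pos]
      have e3 : |n| < 1 := by exact_mod_cast e2
      exact Int.abs_lt_one_iff.1 e3
    rw [hn0] at hn
    simp only [Int.cast_zero, zero_mul, sub_zero] at hn
    have e2 := hu2 (T (k + 1)) ⟨by linarith [m3.1], by linarith [m3.2]⟩ (T k)
      ⟨by linarith [m1.1], by linarith [m1.2]⟩ (by rw [Real.dist_eq]; exact hn.trans_le (min_le_left _ _))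
    rwa [Real.dist_eq] at e2
  have h4 := walk_sum hL hij h1 h2 h3
  rw [h4, hTi, hTj, hxi, hxj]

/-- The boundary points seen at the times `i ≤ k ≤ j` are in `A`. -/
def Sees (D : Set ℂ) (δ : ℝ) (X : DDomain) (a : Corner) (i j : ℕ) (A : Set ℂ) : Prop :=
  ∀ k, i ≤ k → k ≤ j → clo D δ ((next X.E)^[k] a) →
    xb D δ ((next X.E)^[k] a).1 ((next X.E)^[k] a).2 ∈ A

/-- **Each of the two parts of the contour sees one arc.** -/
theorem sees (hJan : Jan) (hD : JTop D) (hJ : IsJD D ρ) {δ : ℝ} (hδ : 0 < δ) {X : DDomain}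
    (hX : IsComponent D δ X.V X.E) {a : Corner} (ha : a.1 ∈ X.V)
    (hca : clo D δ a) {m : ℕ} (hm0 : 0 < m) (hmN : m < Function.minimalPeriod (next X.E) a)
    (hcm : clo D δ ((next X.E)^[m] a)) {s t : ℝ} (hst : s < t) (hts : t < s + 2 * π)
    (hs : xb D δ a.1 a.2 = ρ s) (ht : xb D δ ((next X.E)^[m] a).1 ((next X.E)^[m] a).2 = ρ t) :
    (Sees D δ X a 0 m (ρ '' Icc s t) ∨ Sees D δ X a 0 m (ρ '' Icc t (s + 2 * π))) ∧
    (Sees D δ X a m (Function.minimalPeriod (next X.E) a) (ρ '' Icc s t) ∨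
      Sees D δ X a m (Function.minimalPeriod (next X.E) a) (ρ '' Icc t (s + 2 * π))) := by
  set N := Function.minimalPeriod (next X.E) a with hN
  set A := ρ '' Icc s t with hA
  set B := ρ '' Icc t (s + 2 * π) with hB
  have hAB : A ∪ B = frontier D := by rw [hJ.fr, hJ.loop.range_eq_union hst.le hts.le]
  have hi : A ∩ B = {xb D δ a.1 a.2, xb D δ ((next X.E)^[m] a).1 ((next X.E)^[m] a).2} := by
    rw [hs, ht]; exact hJ.loop.inter_arcs hst hts
  have hAc : IsClosed A := (hJ.loop.arc_compact _ _).isClosed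
  have hBc : IsClosed B := (hJ.loop.arc_compact _ _).isClosed
  have hinj : ∀ k l, k < N → l < N → (next X.E)^[k] a = (next X.E)^[l] a → k = l :=
    fun k l hk hl h => Function.iterate_injOn_Iio_minimalPeriod hk hl h
  have hper : (next X.E)^[N] a = a := Function.isPeriodicPt_minimalPeriod _ _
  have hends : ∀ C : Set ℂ, (C = A ∨ C = B) → xb D δ a.1 a.2 ∈ C ∧
      xb D δ ((next X.E)^[m] a).1 ((next X.E)^[m] a).2 ∈ C := by
    intro C hC
    have h1 : xb D δ a.1 a.2 ∈ A ∩ B := by rw [hi]; exact Or.inl rfl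
    have h2 : xb D δ ((next X.E)^[m] a).1 ((next X.E)^[m] a).2 ∈ A ∩ B := by
      rw [hi]; exact Or.inr rfl
    rcases hC with rfl | rfl
    · exact ⟨h1.1, h2.1⟩
    · exact ⟨h1.2, h2.2⟩
  constructor
  · have hk := key hX hJan hD hδ ha (iter_mem hX ha m) hca hcm hAc hBc hAB hi
      (iter_mem hX ha 1) (m - 1) ?_
    · have conv : ∀ C : Set ℂ, (C = A ∨ C = B) → (∀ k < m - 1,
          ¬op D δ ((next X.E)^[k] ((next X.E)^[1] a)).1 ((next X.E)^[k] ((next X.E)^[1] a)).2 →
          xb D δ ((next X.E)^[k] ((next X.E)^[1] a)).1 ((next X.E)^[k] ((next X.E)^[1] a)).2 ∈ C) →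
          Sees D δ X a 0 m C := by
        intro C hC h k _ hkm hcl
        rcases Nat.eq_zero_or_pos k with rfl | hk0
        · exact (hends C hC).1
        rcases hkm.eq_or_lt with rfl | hkm'
        · exact (hends C hC).2
        have h1 := h (k - 1) (by omega)
        rw [← Function.iterate_add_apply, show k - 1 + 1 = k by omega] at h1
        exact h1 hcl
      exact hk.imp (conv A (Or.inl rfl)) (conv B (Or.inr rfl))
    · intro k hk
      rw [← Function.iterate_add_apply]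
      rintro (h | h)
      · have := hinj (k + 1) 0 (by omega) (by omega) h; omega
      · have := hinj (k + 1) m (by omega) hmN h; omega
  · have hk := key hX hJan hD hδ ha (iter_mem hX ha m) hca hcm hAc hBc hAB hi
      (iter_mem hX ha (m + 1)) (N - (m + 1)) ?_
    · have conv : ∀ C : Set ℂ, (C = A ∨ C = B) → (∀ k < N - (m + 1),
          ¬op D δ ((next X.E)^[k] ((next X.E)^[m + 1] a)).1
            ((next X.E)^[k] ((next X.E)^[m + 1] a)).2 →
          xb D δ ((next X.E)^[k] ((next X.E)^[m + 1] a)).1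
            ((next X.E)^[k] ((next X.E)^[m + 1] a)).2 ∈ C) →
          Sees D δ X a m N C := by
        intro C hC h k hk0 hkm hcl
        rcases hk0.eq_or_lt with rfl | hk0'
        · exact (hends C hC).2
        rcases hkm.eq_or_lt with rfl | hkm'
        · rw [hper]; exact (hends C hC).1
        have h1 := h (k - (m + 1)) (by omega)
        rw [← Function.iterate_add_apply, show k - (m + 1) + (m + 1) = k by omega] at h1
        exact h1 hcl
      exact hk.imp (conv A (Or.inl rfl)) (conv B (Or.inr rfl))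
    · intro k hk
      rw [← Function.iterate_add_apply]
      rintro (h | h)
      · have := hinj (k + (m + 1)) 0 (by omega) (by omega) h; omega
      · have := hinj (k + (m + 1)) m (by omega) hmN h; omega

/-- **Orientation.** -/
theorem orient (hJan : Jan) (hD : JTop D) (hJ : IsJD D ρ) {z0 : ℂ} (hz0 : z0 ∈ D) {L : ℝ → ℂ}
    (hLc : Continuous L) (hL : ∀ t, Complex.exp (L t) = ρ t - z0) {W : ℝ}
    (hW : ∀ t, (L (t + 2 * π)).im = (L t).im + W) {sa sb : ℝ} (hab : sa < sb)
    (hba : sb < sa + 2 * π) :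
    ∃ ε > 0, ∀ δ, 0 < δ → δ < ε → ∀ X : DDomain, IsComponent D δ X.V X.E →
      ∀ a : Corner, a.1 ∈ X.V → IsOuter X.E a → clo D δ a → ∀ m, 0 < m →
      m < Function.minimalPeriod (next X.E) a → clo D δ ((next X.E)^[m] a) → ∀ s t,
      |s - sa| < ε → |t - sb| < ε → xb D δ a.1 a.2 = ρ s →
      xb D δ ((next X.E)^[m] a).1 ((next X.E)^[m] a).2 = ρ t → ∀ g, ‖ctr δ g - z0‖ < ε →
      g ∈ X.V → Inn D δ g →
      (W = -(2 * π) ∧ Sees D δ X a 0 m (ρ '' Icc s t) ∧
        Sees D δ X a m (Function.minimalPeriod (next X.E) a) (ρ '' Icc t (s + 2 * π))) ∨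
      (W = 2 * π ∧ Sees D δ X a 0 m (ρ '' Icc t (s + 2 * π)) ∧
        Sees D δ X a m (Function.minimalPeriod (next X.E) a) (ρ '' Icc s t)) := by
  classical
  have hpi := Real.two_pi_pos
  -- margins
  set η := min (sb - sa) (sa + 2 * π - sb) / 2 with hηd
  have hη : 0 < η := by
    have : 0 < min (sb - sa) (sa + 2 * π - sb) := lt_min (by linarith) (by linarith)
    rw [hηd]; linarith
  have hη1 : 2 * η ≤ sb - sa := by rw [hηd]; linarith [min_le_left (sb - sa) (sa + 2 * π - sb)]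
  have hη2 : 2 * η ≤ sa + 2 * π - sb := by
    rw [hηd]; linarith [min_le_right (sb - sa) (sa + 2 * π - sb)]
  set R := |sa| + |sb| + 2 * π + η + 1 with hR
  obtain ⟨ε1, hε1, hwalk⟩ := arc_walk hJ hz0 hLc hL (R := R) hη
  refine ⟨min ε1 (η / 2), by positivity, ?_⟩
  intro δ hδ hδε X hX a ha hoa hca m hm0 hmN hcm s t hs ht hxs hxt g hg hgV hgI
  have hδ1 : δ < ε1 := hδε.trans_le (min_le_left _ _)
  have hg1 : ‖ctr δ g - z0‖ < ε1 := hg.trans_le (min_le_left _ _)
  have hs1 := abs_lt.1 (hs.trans_le (min_le_right _ _))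
  have ht1 := abs_lt.1 (ht.trans_le (min_le_right _ _))
  have hst : s < t := by linarith
  have hts : t < s + 2 * π := by linarith
  have hRs : |s| ≤ |sa| + η := by
    rw [abs_le]
    constructor <;> linarith [neg_abs_le sa, le_abs_self sa]
  have hRt : |t| ≤ |sb| + η := by
    rw [abs_le]
    constructor <;> linarith [neg_abs_le sb, le_abs_self sb]
  have hRs' := abs_le.1 hRs
  have hRt' := abs_le.1 hRt
  have hsa0 := abs_nonneg sa
  have hsb0 := abs_nonneg sb
  obtain ⟨S1, S2⟩ := sees hJan hD hJ hδ hX ha hca hm0 hmN hcm hst hts hxs hxt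
  set N := Function.minimalPeriod (next X.E) a with hN
  have hper : (next X.E)^[N] a = a := Function.isPeriodicPt_minimalPeriod _ _
  set z := ctr δ g with hz
  set p : ℕ → ℂ := fun k => pt δ ((next X.E)^[k] a).1 with hp
  set x : ℕ → ℂ := fun k => xb D δ (lst D δ X a k).1 (lst D δ X a k).2 with hx
  have hpp : ∀ k, ‖p (k + 1) - p k‖ ≤ δ := by
    intro k
    simp only [hp]
    rw [Function.iterate_succ_apply']
    exact norm_step hX hδ (iter_mem hX ha k)
  have hpx : ∀ k, 1 ≤ k → ‖p k - x k‖ ≤ 4 * δ := by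
    intro k hk
    obtain ⟨k', rfl⟩ : ∃ k', k = k' + 1 := ⟨k - 1, by omega⟩
    exact norm_lst hX hD.isOpen hδ ha hoa hca k'
  -- special values
  have x1 : x 1 = ρ s := by
    have h1 : lst D δ X a 1 = a := by
      have h2 : clo D δ ((next X.E)^[0] a) := hca
      simp only [lst]
      rw [if_pos h2]; rfl
    simp only [hx, h1]; exact hxs
  have xm : x (m + 1) = ρ t := by
    have h1 : lst D δ X a (m + 1) = (next X.E)^[m] a := by
      rw [lst, if_pos hcm]
    simp only [hx, h1]; exact hxt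
  have xN : x (N + 1) = ρ s := by
    have h2 : clo D δ ((next X.E)^[N] a) := by rw [hper]; exact hca
    have h1 : lst D δ X a (N + 1) = a := by
      rw [lst, if_pos h2, hper]
    simp only [hx, h1]; exact hxs
  have pN : p (N + 1) = p 1 := by
    simp only [hp]
    rw [Function.iterate_succ_apply', hper, Function.iterate_one]
  -- the points of the first part
  have hxA : ∀ C : Set ℂ, Sees D δ X a 0 m C → ∀ k, 1 ≤ k → k ≤ m + 1 → x k ∈ C := by
    intro C hC k hk hk'
    obtain ⟨k', rfl⟩ : ∃ k', k = k' + 1 := ⟨k - 1, by omega⟩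
    obtain ⟨j, j1, j2, j3, -, -⟩ := lst_spec hX ha hoa hca k'
    simp only [hx]
    rw [j2]
    exact hC j (Nat.zero_le j) (by omega) j3
  have hxB : ∀ C : Set ℂ, Sees D δ X a m N C → ∀ k, m + 1 ≤ k → k ≤ N + 1 → x k ∈ C := by
    intro C hC k hk hk'
    obtain ⟨k', rfl⟩ : ∃ k', k = k' + 1 := ⟨k - 1, by omega⟩
    obtain ⟨j, j1, j2, j3, -, j5⟩ := lst_spec hX ha hoa hca k'
    have hmj : m ≤ j := by
      by_contra hcon
      push Not at hcon
      exact j5 m hcon (by omega) hcm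
    simp only [hx]
    rw [j2]
    exact hC j hmj (by omega) j3
  -- the four sums
  set su1 := ∑ k ∈ Finset.Ico 1 (m + 1), ((p (k + 1) - z) / (p k - z)).arg with hsu1
  set su2 := ∑ k ∈ Finset.Ico (m + 1) (N + 1), ((p (k + 1) - z) / (p k - z)).arg with hsu2
  set ea := ((p 1 - z) / (ρ s - z0)).arg with hea
  set eb := ((p (m + 1) - z) / (ρ t - z0)).arg with heb
  have lA : t - s ≤ 2 * π - η := by linarith
  have lB : (s + 2 * π) - t ≤ 2 * π - η := by linarith
  have w1A : Sees D δ X a 0 m (ρ '' Icc s t) → su1 = (L t).im - (L s).im + eb - ea := by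
    intro h
    have := hwalk δ z hδ hδ1 hg1 s t (by linarith) (by linarith) lA p x 1 (m + 1) (by omega)
      (fun k h1 h2 => hxA _ h k h1 h2) (fun k h1 _ => hpx k h1) (fun k _ _ => hpp k) s t
      ⟨le_rfl, hst.le⟩ ⟨hst.le, le_rfl⟩ x1 xm
    rw [xm, x1] at this
    exact this
  have w1B : Sees D δ X a 0 m (ρ '' Icc t (s + 2 * π)) →
      su1 = (L t).im - (L s).im - W + eb - ea := by
    intro h
    have := hwalk δ z hδ hδ1 hg1 t (s + 2 * π) (by linarith) (by linarith) lB p x 1 (m + 1)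
      (by omega) (fun k h1 h2 => hxA _ h k h1 h2) (fun k h1 _ => hpx k h1) (fun k _ _ => hpp k)
      (s + 2 * π) t ⟨hts.le, le_rfl⟩ ⟨le_rfl, hts.le⟩ (by rw [hJ.loop.add_two_pi]; exact x1) xm
    rw [xm, x1, hW] at this
    rw [hsu1, this]; ring
  have w2A : Sees D δ X a m N (ρ '' Icc s t) → su2 = (L s).im - (L t).im + ea - eb := by
    intro h
    have := hwalk δ z hδ hδ1 hg1 s t (by linarith) (by linarith) lA p x (m + 1) (N + 1)
      (by omega) (fun k h1 h2 => hxB _ h k h1 h2) (fun k h1 _ => hpx k (by omega))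
      (fun k _ _ => hpp k) t s ⟨hst.le, le_rfl⟩ ⟨le_rfl, hst.le⟩ xm xN
    rw [xm, xN, pN] at this
    exact this
  have w2B : Sees D δ X a m N (ρ '' Icc t (s + 2 * π)) →
      su2 = (L s).im + W - (L t).im + ea - eb := by
    intro h
    have := hwalk δ z hδ hδ1 hg1 t (s + 2 * π) (by linarith) (by linarith) lB p x (m + 1)
      (N + 1) (by omega) (fun k h1 h2 => hxB _ h k h1 h2) (fun k h1 _ => hpx k (by omega))
      (fun k _ _ => hpp k) t (s + 2 * π) ⟨le_rfl, hts.le⟩ ⟨hts.le, le_rfl⟩ xm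
      (by rw [hJ.loop.add_two_pi]; exact xN)
    rw [xm, xN, pN, hW] at this
    exact this
  -- the total
  have htot : su1 + su2 = -(2 * π) := by
    have h1 := total hX hδ hD.compl hD.bdd ha hoa g
    rw [if_pos ⟨hgV, hgI⟩] at h1
    have h2 : ∀ k, stp X δ z ((next X.E)^[k] a) = ((p (k + 1) - z) / (p k - z)).arg := by
      intro k
      simp only [stp, hp]
      rw [Function.iterate_succ_apply']
    rw [Finset.sum_congr rfl fun k _ => h2 k] at h1
    have h3 : su1 + su2 = ∑ k ∈ Finset.Ico 1 (N + 1), ((p (k + 1) - z) / (p k - z)).arg := by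
      rw [hsu1, hsu2, Finset.sum_Ico_consecutive _ (by omega) (by omega)]
    have h4 := Finset.sum_range_succ (fun k => ((p (k + 1) - z) / (p k - z)).arg) N
    have h5 : ∑ k ∈ Finset.range (N + 1), ((p (k + 1) - z) / (p k - z)).arg =
        ((p 1 - z) / (p 0 - z)).arg +
          ∑ k ∈ Finset.Ico 1 (N + 1), ((p (k + 1) - z) / (p k - z)).arg := by
      rw [Finset.range_eq_Ico, ← Finset.sum_Ico_consecutive _ (Nat.zero_le 1) (by omega :
        1 ≤ N + 1)]
      simp
    have h6 : p N = p 0 := by simp only [hp]; rw [hper]; rfl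
    have h7 : N + 1 = N + 1 := rfl
    rw [h3]
    rw [h5, h1, pN, h6] at h4
    linarith
  rcases S1 with S1 | S1 <;> rcases S2 with S2 | S2
  · rw [w1A S1, w2A S2] at htot; exfalso; linarith
  · rw [w1A S1, w2B S2] at htot
    exact Or.inl ⟨by linarith, S1, S2⟩
  · rw [w1B S1, w2A S2] at htot
    exact Or.inr ⟨by linarith, S1, S2⟩
  · rw [w1B S1, w2B S2] at htot; exfalso; linarith

end Pool.Agent.H42.MJ
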