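import Pool.Agent.H14.Jordan.Bridge

set_option autoImplicit false
open Set Topology Filter
open scoped Real

/-! # Winding of a walk which follows an arc of a Jordan curve -/

namespace Pool.Agent.H42.MJ

open Pool.Agent.H14.Jordan

/-- two real numbers with the same `exp (i ·)` at distance `< 2π` are equal -/
lemma eq_of_exp_eq {x y : ℝ} (h : Complex.exp (x * Complex.I) = Complex.exp (y * Complex.I))
    (hd : |x - y| < 2 * π) : x = y := by
  obtain ⟨n, hn⟩ := Complex.exp_eq_exp_iff_exists_int.1 h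
  have h1 : (x : ℂ) = y + n * (2 * π) := by
    have h2 : ((x : ℂ) - (y + n * (2 * π))) * Complex.I = 0 := by
      rw [sub_mul, hn]; ring
    rcases mul_eq_zero.1 h2 with h3 | h3
    · exact sub_eq_zero.1 h3
    · exact absurd h3 Complex.I_ne_zero
  have h2 : x = y + n * (2 * π) := by exact_mod_cast h1
  have h3 : |(n : ℝ)| * (2 * π) < 2 * π := by
    have : x - y = n * (2 * π) := by linarith
    rw [this, abs_mul, abs_of_pos Real.two_pi_pos] at hd
    exact hd
  have h4 : |(n : ℝ)| < 1 := by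
    by_contra hc
    push Not at hc
    nlinarith [Real.two_pi_pos]
  have h5 : |n| < 1 := by exact_mod_cast h4
  rw [Int.abs_lt_one_iff.1 h5] at h2
  simpa using h2

lemma exp_arg_div {w : ℂ} (hw : w ≠ 0) :
    Complex.exp (w.arg * Complex.I) = w / (‖w‖ : ℂ) := by
  have h := Complex.norm_mul_exp_arg_mul_I w
  have h0 : (‖w‖ : ℂ) ≠ 0 := by exact_mod_cast (norm_pos_iff.2 hw).ne'
  rw [eq_div_iff h0, mul_comm]; exact h

/-- **Telescoping sum of angles along an arc.** -/
theorem walk_sum {ρ : ℝ → ℂ} {L : ℝ → ℂ} {z0 z : ℂ} (hL : ∀ t, Complex.exp (L t) = ρ t - z0)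
    {p : ℕ → ℂ} {T : ℕ → ℝ} {i j : ℕ} (hij : i ≤ j)
    (h1 : ∀ k, i ≤ k → k ≤ j → ‖(p k - z) - (ρ (T k) - z0)‖ < ‖ρ (T k) - z0‖)
    (h2 : ∀ k, i ≤ k → k < j → ‖p (k + 1) - p k‖ < ‖p k - z‖)
    (h3 : ∀ k, i ≤ k → k < j → |(L (T (k + 1))).im - (L (T k)).im| < π / 2) :
    ∑ k ∈ Finset.Ico i j, ((p (k + 1) - z) / (p k - z)).arg =
      (L (T j)).im - (L (T i)).im + ((p j - z) / (ρ (T j) - z0)).arg -
        ((p i - z) / (ρ (T i) - z0)).arg := by
  induction j, hij using Nat.le_induction with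
  | base => simp
  | succ j hij ih =>
    rw [Finset.sum_Ico_succ_top hij, ih (fun k hk hk' => h1 k hk (by omega))
      (fun k hk hk' => h2 k hk (by omega)) (fun k hk hk' => h3 k hk (by omega))]
    have key : ((p (j + 1) - z) / (p j - z)).arg = (L (T (j + 1))).im - (L (T j)).im +
        ((p (j + 1) - z) / (ρ (T (j + 1)) - z0)).arg - ((p j - z) / (ρ (T j) - z0)).arg := by
      have a0 : ∀ k, i ≤ k → k ≤ j + 1 → p k - z ≠ 0 ∧ ρ (T k) - z0 ≠ 0 ∧
          0 < ((p k - z) / (ρ (T k) - z0)).re := by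
        intro k hk hk'
        have h4 := h1 k hk hk'
        have hr : ρ (T k) - z0 ≠ 0 := by
          intro h; rw [h, norm_zero] at h4
          exact absurd h4 (not_lt.2 (norm_nonneg _))
        refine ⟨?_, hr, ?_⟩
        · intro h; rw [h, zero_sub, norm_neg] at h4; exact lt_irrefl _ h4
        · have h5 : ‖(p k - z) / (ρ (T k) - z0) - 1‖ < 1 := by
            rw [div_sub_one hr, norm_div, div_lt_one (norm_pos_iff.2 hr)]; exact h4
          have h6 := (Complex.abs_re_le_norm _).trans_lt h5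
          rw [Complex.sub_re, Complex.one_re, abs_lt] at h6
          linarith
      obtain ⟨b1, b2, b3⟩ := a0 j hij (by omega)
      obtain ⟨c1, c2, c3⟩ := a0 (j + 1) (by omega) le_rfl
      have hre : 0 < ((p (j + 1) - z) / (p j - z)).re := by
        have h4 := h2 j hij (by omega)
        have h5 : ‖(p (j + 1) - z) / (p j - z) - 1‖ < 1 := by
          rw [div_sub_one b1, norm_div, div_lt_one (norm_pos_iff.2 b1), sub_sub_sub_cancel_right]
          exact h4
        have h6 := (Complex.abs_re_le_norm _).trans_lt h5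
        rw [Complex.sub_re, Complex.one_re, abs_lt] at h6
        linarith
      have e1 := abs_lt.1 (Complex.abs_arg_lt_pi_div_two_iff.2 (Or.inl b3))
      have e2 := abs_lt.1 (Complex.abs_arg_lt_pi_div_two_iff.2 (Or.inl c3))
      have e3 := abs_lt.1 (Complex.abs_arg_lt_pi_div_two_iff.2 (Or.inl hre))
      have e4 := abs_lt.1 (h3 j hij (by omega))
      refine eq_of_exp_eq ?_ (by rw [abs_lt]; constructor <;> linarith)
      -- both sides are `w / ‖w‖`
      have hexp : ∀ t : ℝ, Complex.exp ((L t).im * Complex.I) = (ρ t - z0) / (‖ρ t - z0‖ : ℂ) := by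
        intro t
        have h5 : (‖ρ t - z0‖ : ℂ) = Complex.exp ((L t).re : ℂ) := by
          rw [← hL, Complex.norm_exp, Complex.ofReal_exp]
        rw [h5, ← hL, ← Complex.exp_sub]
        congr 1
        apply Complex.ext <;> simp
      have n1 : (‖p j - z‖ : ℂ) ≠ 0 := by exact_mod_cast (norm_pos_iff.2 b1).ne'
      have n2 : (‖ρ (T j) - z0‖ : ℂ) ≠ 0 := by exact_mod_cast (norm_pos_iff.2 b2).ne'
      have n3 : (‖p (j + 1) - z‖ : ℂ) ≠ 0 := by exact_mod_cast (norm_pos_iff.2 c1).ne'
      have n4 : (‖ρ (T (j + 1)) - z0‖ : ℂ) ≠ 0 := by exact_mod_cast (norm_pos_iff.2 c2).ne'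
      rw [exp_arg_div (div_ne_zero c1 b1)]
      push_cast
      rw [sub_mul, add_mul, sub_mul, Complex.exp_sub, Complex.exp_add, Complex.exp_sub, hexp,
        hexp, exp_arg_div (div_ne_zero c1 c2), exp_arg_div (div_ne_zero b1 b2)]
      rw [norm_div, norm_div, norm_div]
      push_cast
      field_simp
    rw [key]; ring

/-- The increment of the lift over one period is constant. -/
lemma lift_period {ρ L : ℝ → ℂ} {z0 : ℂ} (hρ : IsLoop ρ) (hLc : Continuous L)
    (hL : ∀ t, Complex.exp (L t) = ρ t - z0) :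
    ∃ W : ℝ, ∀ t, (L (t + 2 * π)).im = (L t).im + W := by
  have h1 : ∀ t, ∃ n : ℤ, L (t + 2 * π) = L t + n * (2 * π * Complex.I) := by
    intro t
    have h2 : Complex.exp (L (t + 2 * π)) = Complex.exp (L t) := by
      rw [hL, hL, hρ.add_two_pi]
    exact Complex.exp_eq_exp_iff_exists_int.1 h2
  choose n hn using h1
  have hcont : Continuous fun t => ((n t : ℤ) : ℝ) := by
    have h2 : (fun t => ((n t : ℤ) : ℝ)) = fun t => ((L (t + 2 * π) - L t).im) / (2 * π) := by
      ext t
      rw [hn t]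
      simp only [add_sub_cancel_left, Complex.mul_im, Complex.intCast_re, Complex.intCast_im,
        Complex.I_re, Complex.I_im, Complex.mul_re]
      simp
    rw [h2]
    have : Continuous fun t : ℝ => (L (t + 2 * π) - L t).im := by fun_prop
    exact this.div_const _
  have hc2 : Continuous n := Int.isClosedEmbedding_coe_real.isInducing.continuous_iff.2 hcont
  refine ⟨n 0 * (2 * π), fun t => ?_⟩
  have h3 : n t = n 0 := isPreconnected_univ.constant hc2.continuousOn (mem_univ t) (mem_univ 0)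
  rw [hn t, h3]
  simp

end Pool.Agent.H42.MJ
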