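import Pool.Agent.H42.MJ.Bulk

set_option autoImplicit false
open Set Topology Filter
open scoped Real
open Pool.Agent.H81.Q1

/-! # A component with boundary corners near `a` and `b` is the component of the bulk -/

namespace Pool.Agent.H42.MJ

open Pool.Agent.H14.Jordan

variable {D : Set ℂ} {δ : ℝ}

/-- The initial part of an edge which is contained in `D`. -/
def hw (D : Set ℂ) (δ : ℝ) (v : ℤ × ℤ) (q : ZMod 4) : Set ℂ :=
  (fun s => rp δ v q s 0) '' {s | 0 ≤ s ∧ s ≤ 1 ∧ ∀ s', 0 ≤ s' → s' ≤ s → rp δ v q s' 0 ∈ D}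

lemma hw_sub (v : ℤ × ℤ) (q : ZMod 4) : hw D δ v q ⊆ D := by
  rintro _ ⟨s, ⟨h0, -, h⟩, rfl⟩
  exact h s h0 le_rfl

lemma pt_mem_hw {v : ℤ × ℤ} (hv : pt δ v ∈ D) (q : ZMod 4) : pt δ v ∈ hw D δ v q := by
  refine ⟨0, ⟨le_rfl, zero_le_one, fun s' h0 h1 => ?_⟩, rp_zero v q⟩
  rw [le_antisymm h1 h0, rp_zero]; exact hv

lemma hw_preconnected (v : ℤ × ℤ) (q : ZMod 4) : IsPreconnected (hw D δ v q) := by
  refine IsPreconnected.image ?_ _ (continuous_rp_left v q 0).continuousOn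
  refine Set.OrdConnected.isPreconnected ⟨?_⟩
  rintro x ⟨hx0, hx1, hx2⟩ y ⟨hy0, hy1, hy2⟩ z ⟨hz1, hz2⟩
  exact ⟨by linarith, by linarith, fun s' h0 h1 => hy2 s' h0 (by linarith)⟩

lemma hw_meet (hδ : δ ≠ 0) {v u : ℤ × ℤ} {q p : ZMod 4} {w : ℂ} (h1 : w ∈ hw D δ v q)
    (h2 : w ∈ hw D δ u p) : (GD D δ).Reachable v u := by
  obtain ⟨s, ⟨s0, s1, hs⟩, rfl⟩ := h1
  obtain ⟨σ, ⟨σ0, σ1, hσ⟩, h⟩ := h2
  simp only at h
  have full : ∀ (w : ℤ × ℤ) (r : ZMod 4), (∀ s', 0 ≤ s' → s' ≤ 1 → rp δ w r s' 0 ∈ D) →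
      (GD D δ).Reachable w (w + dir r) := fun w r h => (adj_dir.2 h).reachable
  rcases s0.eq_or_lt with e | e
  · rw [← e, rp_zero] at h
    rcases vertex_of_edge hδ σ0 σ1 h.symm with ⟨-, h3⟩ | ⟨h4, h3⟩
    · rw [h3]
    · rw [h3]; rw [h4] at hσ
      exact (full u p hσ).symm
  rcases s1.eq_or_lt with e' | e'
  · rw [e', rp_one] at h
    rw [e'] at hs
    refine (full v q hs).trans ?_
    rcases vertex_of_edge hδ σ0 σ1 h.symm with ⟨-, h3⟩ | ⟨h4, h3⟩
    · rw [h3]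
    · rw [h3]; rw [h4] at hσ
      exact (full u p hσ).symm
  rcases edge_unique hδ e e' σ0 σ1 h.symm with ⟨rfl, -, -⟩ | ⟨rfl, rfl, rfl⟩
  · exact SimpleGraph.Reachable.refl _
  · refine full v q fun s' h0 h1 => ?_
    rcases le_or_gt s' s with h4 | h4
    · exact hs s' h0 h4
    · have h5 := hσ (1 - s') (by linarith) (by linarith)
      rw [rp_rev] at h5
      simpa using h5

lemma mem_of_reachable {u v : ℤ × ℤ} (hu : pt δ u ∈ D) (h : (GD D δ).Reachable u v) :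
    pt δ v ∈ D := by
  rw [SimpleGraph.reachable_iff_reflTransGen] at h
  induction h with
  | refl => exact hu
  | tail _ h _ =>
    obtain ⟨q, rfl, hop⟩ := adj_iff.1 h
    exact op.mem' hop

/-- The web of the component of `u`. -/
def bweb (D : Set ℂ) (δ : ℝ) (u : ℤ × ℤ) : Set ℂ :=
  ⋃ v ∈ {v | (GD D δ).Reachable u v}, ⋃ q, hw D δ v q

lemma bweb_preconnected {u : ℤ × ℤ} (hu : pt δ u ∈ D) : IsPreconnected (bweb D δ u) := by
  refine IsPreconnected.biUnion_of_reflTransGen (fun v hv => ?_) fun x hx y hy => ?_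
  · exact isPreconnected_iUnion ⟨pt δ v, mem_iInter.2 fun q => pt_mem_hw (mem_of_reachable hu hv) q⟩
      fun q => hw_preconnected v q
  · have hxy : (GD D δ).Reachable x y := (SimpleGraph.Reachable.symm hx).trans hy
    rw [SimpleGraph.reachable_iff_reflTransGen] at hxy
    clear hy
    induction hxy with
    | refl => exact Relation.ReflTransGen.refl
    | @tail b c h1 h2 ih =>
      refine ih.tail ⟨?_, ?_⟩
      · obtain ⟨q, rfl, hop⟩ := adj_iff.1 h2
        refine ⟨pt δ (b + dir q), mem_iUnion.2 ⟨q, 1, ⟨zero_le_one, le_rfl, fun s' h0 h1 =>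
          hop s' h0 h1⟩, rp_one b q⟩, mem_iUnion.2 ⟨q, pt_mem_hw hop.mem' q⟩⟩
      · exact (show (GD D δ).Reachable u x from hx).trans
          ((SimpleGraph.reachable_iff_reflTransGen _ _).2 h1)

/-- The web of another component is disjoint from the cross cut. -/
lemma bweb_disjoint (hD : IsOpen D) (hδ : δ ≠ 0) {X : DDomain} (hX : IsComponent D δ X.V X.E)
    (a b : Corner) {u : ℤ × ℤ} (hu : u ∉ X.V) : ∀ z ∈ bweb D δ u, z ∉ web δ X.V (len D δ a b) := by
  intro z hz hw'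
  simp only [bweb, mem_iUnion] at hz
  obtain ⟨v, hv, q, hzq⟩ := hz
  obtain ⟨w, hwV, p, s, h0, h1, hzw⟩ := mem_web.1 hw'
  have hzD : z ∈ D := hw_sub v q hzq
  have hmem : z ∈ hw D δ w p := by
    refine ⟨s, ⟨h0, h1.trans (len_le_one a b w p), ?_⟩, hzw.symm⟩
    intro s' hs0 hs1
    by_cases hop : op D δ w p
    · exact hop s' hs0 (hs1.trans (h1.trans (len_le_one a b w p)))
    · by_cases h' : (w, p) = a ∨ (w, p) = b
      · rw [len_stub hop h'] at h1
        obtain ⟨-, -, e2, e3⟩ := ex_spec hD (hX.sub w hwV) hop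
        rcases (hs1.trans h1).eq_or_lt with h5 | h5
        · have h6 : s = ex D δ w p := le_antisymm h1 (h5 ▸ hs1)
          rw [h6] at hzw
          rw [hzw] at hzD
          exact absurd hzD e2
        · exact e3 s' hs0 h5
      · rw [len_zero hop h'] at h1
        have : s' = 0 := le_antisymm (hs1.trans h1) hs0
        rw [this, rp_zero]; exact hX.sub w hwV
  have h3 := hw_meet hδ hzq hmem
  have h4 : (GD D δ).Reachable w u := ((show (GD D δ).Reachable u v from hv).trans h3).symm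
  exact hu ((hX.comp w hwV u).2 h4)

lemma xb_mem_closure (hD : IsOpen D) {u v : ℤ × ℤ} {q : ZMod 4} (hu : pt δ u ∈ D)
    (hv : (GD D δ).Reachable u v) (hq : ¬op D δ v q) : xb D δ v q ∈ closure (bweb D δ u) := by
  obtain ⟨e0, e1, -, e3⟩ := ex_spec hD (mem_of_reachable hu hv) hq
  have h4 : Tendsto (fun s : ℝ => rp δ v q s 0) (𝓝[<] (ex D δ v q)) (𝓝 (xb D δ v q)) :=
    ((continuous_rp_left v q 0).tendsto _).mono_left nhdsWithin_le_nhds
  refine mem_closure_of_tendsto h4 ?_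
  filter_upwards [Ioo_mem_nhdsLT e0] with s hs
  simp only [bweb, mem_iUnion]
  exact ⟨v, hv, q, s, ⟨hs.1.le, by linarith [hs.2], fun s' h0 h1 => e3 s' h0 (by linarith [hs.2])⟩,
    rfl⟩

/-- **The component is the bulk component.** -/
theorem bulk_mem (hJan : Jan) (hD : JTop D) {ρ : ℝ → ℂ} (hJ : IsJD D ρ) {z0 : ℂ} (hz0 : z0 ∈ D)
    {sa sb : ℝ} (hab : sa < sb) (hba : sb < sa + 2 * π) :
    ∃ ε > 0, ∀ δ, 0 < δ → δ < ε → ∀ X : DDomain, IsComponent D δ X.V X.E →
      ∀ a b : Corner, a.1 ∈ X.V → b.1 ∈ X.V → clo D δ a → clo D δ b → ∀ s t,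
      |s - sa| < ε → |t - sb| < ε → xb D δ a.1 a.2 = ρ s → xb D δ b.1 b.2 = ρ t →
      ∀ u : ℤ × ℤ, ‖pt δ u - z0‖ < ε → u ∈ X.V := by
  have hpi := Real.two_pi_pos
  -- margins
  set η := min (sb - sa) (sa + 2 * π - sb) / 4 with hηd
  have hη : 0 < η := by
    have : 0 < min (sb - sa) (sa + 2 * π - sb) := lt_min (by linarith) (by linarith)
    rw [hηd]; linarith
  have hη1 : 4 * η ≤ sb - sa := by rw [hηd]; linarith [min_le_left (sb - sa) (sa + 2 * π - sb)]
  have hη2 : 4 * η ≤ sa + 2 * π - sb := by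
    rw [hηd]; linarith [min_le_right (sb - sa) (sa + 2 * π - sb)]
  set m1 := (sa + sb) / 2 with hm1
  set m2 := (sb + (sa + 2 * π)) / 2 with hm2
  obtain ⟨κ, hκ, hinv⟩ := hJ.loop.uniform_inv hη
  -- distances
  have far1 : ∀ s t, |s - sa| < η → |t - sb| < η → ∀ w ∈ ρ '' Icc t (s + 2 * π),
      κ ≤ ‖w - ρ m1‖ := by
    rintro s t hs ht _ ⟨τ, hτ, rfl⟩
    by_contra hc
    push Not at hc
    rw [← dist_eq_norm] at hc
    obtain ⟨n, hn⟩ := hinv _ _ hc
    rw [abs_lt] at hs ht hn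
    have h1 : η < τ - m1 := by rw [hm1]; linarith [hτ.1]
    have h2 : τ - m1 < 2 * π - η := by rw [hm1]; linarith [hτ.2]
    have h3 : (0 : ℝ) < n := by
      by_contra hcon
      push Not at hcon
      nlinarith
    have h4 : (n : ℝ) < 1 := by
      by_contra hcon
      push Not at hcon
      nlinarith
    have h3' : 0 < n := by exact_mod_cast h3
    have h4' : n < 1 := by exact_mod_cast h4
    omega
  have far2 : ∀ s t, |s - sa| < η → |t - sb| < η → ∀ w ∈ ρ '' Icc s t, κ ≤ ‖w - ρ m2‖ := by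
    rintro s t hs ht _ ⟨τ, hτ, rfl⟩
    by_contra hc
    push Not at hc
    rw [← dist_eq_norm] at hc
    obtain ⟨n, hn⟩ := hinv _ _ hc
    rw [abs_lt] at hs ht hn
    have h1 : τ - m2 < -η := by rw [hm2]; linarith [hτ.2]
    have h2 : -(2 * π) + η < τ - m2 := by rw [hm2]; linarith [hτ.1]
    have h3 : (n : ℝ) < 0 := by
      by_contra hcon
      push Not at hcon
      nlinarith
    have h4 : (-1 : ℝ) < n := by
      by_contra hcon
      push Not at hcon
      nlinarith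
    have h3' : n < 0 := by exact_mod_cast h3
    have h4' : -1 < n := by exact_mod_cast h4
    omega
  have hf : ∀ t, ρ t ∈ frontier D := fun t => by rw [hJ.fr]; exact ⟨t, rfl⟩
  obtain ⟨r1, hr1, ap1⟩ := approach hD hz0 (hf m1) (ε := κ / 2) (by positivity)
  obtain ⟨r2, hr2, ap2⟩ := approach hD hz0 (hf m2) (ε := κ / 2) (by positivity)
  obtain ⟨r3, hr3, hball⟩ := Metric.isOpen_iff.1 hD.isOpen z0 hz0
  refine ⟨min (min r1 r2) (min r3 (min η (κ / 2))), by positivity, ?_⟩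
  intro δ hδ hδε X hX a b ha hb hca hcb s t hs ht hxs hxt u hu
  simp only [lt_min_iff] at hδε hs ht hu
  obtain ⟨⟨d1, d2⟩, d3, d4, d5⟩ := hδε
  by_contra huV
  have huD : pt δ u ∈ D := hball (by rw [Metric.mem_ball, dist_eq_norm]; exact hu.2.1)
  obtain ⟨v1, q1, b1, b2, b3⟩ := ap1 δ hδ d1 u hu.1.1
  obtain ⟨v2, q2, c1, c2, c3⟩ := ap2 δ hδ d2 u hu.1.2
  have hst : s < t := by
    have h1 := abs_lt.1 hs.2.2.1
    have h2 := abs_lt.1 ht.2.2.1
    linarith
  have hts : t < s + 2 * π := by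
    have h1 := abs_lt.1 hs.2.2.1
    have h2 := abs_lt.1 ht.2.2.1
    linarith
  set A := ρ '' Icc s t with hA
  set B := ρ '' Icc t (s + 2 * π) with hB
  have hAB : A ∪ B = frontier D := by rw [hJ.fr, hJ.loop.range_eq_union hst.le hts.le]
  have hi : A ∩ B = {xb D δ a.1 a.2, xb D δ b.1 b.2} := by
    rw [hxs, hxt]; exact hJ.loop.inter_arcs hst hts
  have hAc : IsClosed A := (hJ.loop.arc_compact _ _).isClosed
  have hBc : IsClosed B := (hJ.loop.arc_compact _ _).isClosed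
  have n1 : ‖xb D δ v1 q1 - ρ m1‖ < κ := by
    have e1 := norm_xb_sub hD.isOpen hδ (mem_of_reachable huD b1) b2
    have e2 := norm_add_le (xb D δ v1 q1 - pt δ v1) (pt δ v1 - ρ m1)
    rw [sub_add_sub_cancel] at e2
    linarith
  have n2 : ‖xb D δ v2 q2 - ρ m2‖ < κ := by
    have e1 := norm_xb_sub hD.isOpen hδ (mem_of_reachable huD c1) c2
    have e2 := norm_add_le (xb D δ v2 q2 - pt δ v2) (pt δ v2 - ρ m2)
    rw [sub_add_sub_cancel] at e2
    linarith
  have f1 : xb D δ v1 q1 ∉ B := fun h =>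
    absurd (far1 s t hs.2.2.1 ht.2.2.1 _ h) (not_le.2 n1)
  have f2 : xb D δ v2 q2 ∉ A := fun h =>
    absurd (far2 s t hs.2.2.1 ht.2.2.1 _ h) (not_le.2 n2)
  have g1 : xb D δ v1 q1 ∈ frontier D := xb_mem_frontier hD.isOpen (mem_of_reachable huD b1) b2
  have g2 : xb D δ v2 q2 ∈ frontier D := xb_mem_frontier hD.isOpen (mem_of_reachable huD c1) c2
  rw [← hAB] at g1 g2
  refine cross_sep hJan hD (isCompact_web X.finV _)
    (isPreconnected_web hX X.conn (fun v q => len_nonneg a b v q)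
      (fun v q h => (len_op h).ge))
    (xb_mem_web (Or.inl rfl) ha hca) (xb_mem_web (Or.inr rfl) hb hcb)
    (web_sub hD.isOpen hX.sub a b) hAc hBc hAB hi (bweb_preconnected huD) ?_
    (bweb_disjoint hD.isOpen hδ.ne' hX a b huV) (xb_mem_closure hD.isOpen huD b1 b2)
    (xb_mem_closure hD.isOpen huD c1 c2) (g1.resolve_right f1) f1 (g2.resolve_left f2) f2
  intro z hz
  simp only [bweb, mem_iUnion] at hz
  obtain ⟨v, -, q, hzq⟩ := hz
  exact hw_sub v q hzq

end Pool.Agent.H42.MJ
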