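import Pool.Agent.H42.MJ.Lat

set_option autoImplicit false
open Set Topology Filter
open Pool.Agent.H81.Q1

/-! # The lattice edges contained in `D`, components, boundary points -/

namespace Pool.Agent.H42.MJ

/-- The graph on `ℤ²` whose edges are the nearest-neighbour edges `{u, v}` for which the segment
from `δ u` to `δ v` is contained in `D`. -/
def GD (D : Set ℂ) (δ : ℝ) : SimpleGraph (ℤ × ℤ) where
  Adj u v := Z2.Adj u v ∧ segment ℝ (pt δ u) (pt δ v) ⊆ D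
  symm := ⟨fun u v h => ⟨h.1.symm, by rw [segment_symm]; exact h.2⟩⟩
  loopless := ⟨fun u h => Z2.loopless.irrefl u h.1⟩

/-- `(V, E)` is a connected component of the part of `δℤ²` in `D` (the vertices in `D` and the
edges contained in `D`). -/
structure IsComponent (D : Set ℂ) (δ : ℝ) (V : Set (ℤ × ℤ)) (E : Set (Sym2 (ℤ × ℤ))) : Prop where
  sub : ∀ v ∈ V, pt δ v ∈ D
  comp : ∀ u ∈ V, ∀ v, v ∈ V ↔ (GD D δ).Reachable u v
  edges : ∀ u v, s(u, v) ∈ E ↔ u ∈ V ∧ (GD D δ).Adj u v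

/-- The edge leaving `v` in direction `q` is contained in `D`. -/
def op (D : Set ℂ) (δ : ℝ) (v : ℤ × ℤ) (q : ZMod 4) : Prop :=
  ∀ s : ℝ, 0 ≤ s → s ≤ 1 → rp δ v q s 0 ∈ D

variable {D : Set ℂ} {δ : ℝ}

lemma rp_eq_add (v : ℤ × ℤ) (q : ZMod 4) (s : ℝ) :
    rp δ v q s 0 = pt δ v + s • (pt δ (v + dir q) - pt δ v) := by
  apply Complex.ext
  · simp only [rp, pt, Complex.add_re, Complex.real_smul, Complex.mul_re, Complex.ofReal_re,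
      Complex.ofReal_im, Complex.sub_re, Complex.sub_im, Prod.fst_add, Prod.snd_add]
    push_cast; ring
  · simp only [rp, pt, Complex.add_im, Complex.real_smul, Complex.mul_im, Complex.ofReal_re,
      Complex.ofReal_im, Complex.sub_re, Complex.sub_im, Prod.fst_add, Prod.snd_add]
    push_cast; ring

lemma op_iff_segment {v : ℤ × ℤ} {q : ZMod 4} :
    op D δ v q ↔ segment ℝ (pt δ v) (pt δ (v + dir q)) ⊆ D := by
  rw [segment_eq_image']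
  constructor
  · rintro h _ ⟨s, hs, rfl⟩
    simp only
    rw [← rp_eq_add]; exact h s hs.1 hs.2
  · intro h s h0 h1
    rw [rp_eq_add]; exact h ⟨s, ⟨h0, h1⟩, rfl⟩

lemma dir_0 : dir 0 = (1, 0) := by decide
lemma dir_1 : dir 1 = (0, 1) := by decide
lemma dir_2 : dir 2 = (-1, 0) := by decide
lemma dir_3 : dir 3 = (0, -1) := by decide

lemma z2_adj_iff {u v : ℤ × ℤ} : Z2.Adj u v ↔ ∃ q : ZMod 4, v = u + dir q := by
  constructor
  · intro h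
    change |u.1 - v.1| + |u.2 - v.2| = 1 at h
    have h2 : (v.1 = u.1 + 1 ∧ v.2 = u.2) ∨ (v.1 = u.1 ∧ v.2 = u.2 + 1) ∨
        (v.1 = u.1 - 1 ∧ v.2 = u.2) ∨ (v.1 = u.1 ∧ v.2 = u.2 - 1) := by
      rcases abs_cases (u.1 - v.1) with ⟨e1, _⟩ | ⟨e1, _⟩ <;>
        rcases abs_cases (u.2 - v.2) with ⟨e2, _⟩ | ⟨e2, _⟩ <;> omega
    rcases h2 with ⟨h3, h4⟩ | ⟨h3, h4⟩ | ⟨h3, h4⟩ | ⟨h3, h4⟩
    · exact ⟨0, Prod.ext (by rw [h3]; rfl) (by rw [h4, dir_0]; simp)⟩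
    · exact ⟨1, Prod.ext (by rw [h3, dir_1]; simp) (by rw [h4]; rfl)⟩
    · exact ⟨2, Prod.ext (by rw [h3]; rfl) (by rw [h4, dir_2]; simp)⟩
    · exact ⟨3, Prod.ext (by rw [h3, dir_3]; simp) (by rw [h4]; rfl)⟩
  · rintro ⟨q, rfl⟩
    change |u.1 - (u + dir q).1| + |u.2 - (u + dir q).2| = 1
    rcases dir_cases q with h | h | h | h <;> rw [h] <;> simp

lemma adj_iff {u v : ℤ × ℤ} : (GD D δ).Adj u v ↔ ∃ q : ZMod 4, v = u + dir q ∧ op D δ u q := by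
  constructor
  · rintro ⟨h1, h2⟩
    obtain ⟨q, rfl⟩ := z2_adj_iff.1 h1
    exact ⟨q, rfl, op_iff_segment.2 h2⟩
  · rintro ⟨q, rfl, h⟩
    exact ⟨z2_adj_iff.2 ⟨q, rfl⟩, op_iff_segment.1 h⟩

lemma adj_dir {v : ℤ × ℤ} {q : ZMod 4} : (GD D δ).Adj v (v + dir q) ↔ op D δ v q := by
  rw [op_iff_segment]
  exact ⟨fun h => h.2, fun h => ⟨z2_adj_iff.2 ⟨q, rfl⟩, h⟩⟩

lemma op_rev {v : ℤ × ℤ} {q : ZMod 4} : op D δ (v + dir q) (q + 2) ↔ op D δ v q := by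
  rw [← adj_dir, ← adj_dir, SimpleGraph.adj_comm, dir_add_two, add_neg_cancel_right]

lemma op.mem {v : ℤ × ℤ} {q : ZMod 4} (h : op D δ v q) : pt δ v ∈ D := by
  rw [← rp_zero v q]; exact h 0 le_rfl zero_le_one

lemma op.mem' {v : ℤ × ℤ} {q : ZMod 4} (h : op D δ v q) : pt δ (v + dir q) ∈ D := by
  rw [← rp_one v q]; exact h 1 zero_le_one le_rfl

/-! ### the first exit of an edge -/

/-- The parameter of the first point of the edge outside `D`. -/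
noncomputable def ex (D : Set ℂ) (δ : ℝ) (v : ℤ × ℤ) (q : ZMod 4) : ℝ :=
  sInf {s : ℝ | 0 ≤ s ∧ rp δ v q s 0 ∉ D}

/-- The first point of the edge outside `D`. -/
noncomputable def xb (D : Set ℂ) (δ : ℝ) (v : ℤ × ℤ) (q : ZMod 4) : ℂ := rp δ v q (ex D δ v q) 0

lemma ex_spec (hD : IsOpen D) {v : ℤ × ℤ} {q : ZMod 4} (hv : pt δ v ∈ D) (h : ¬op D δ v q) :
    0 < ex D δ v q ∧ ex D δ v q ≤ 1 ∧ xb D δ v q ∉ D ∧
      ∀ s, 0 ≤ s → s < ex D δ v q → rp δ v q s 0 ∈ D := by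
  set S : Set ℝ := {s : ℝ | 0 ≤ s ∧ rp δ v q s 0 ∉ D} with hS
  have hcl : IsClosed S := by
    refine (isClosed_le continuous_const continuous_id).inter ?_
    exact (hD.isClosed_compl).preimage (continuous_rp_left v q 0)
  have hbd : BddBelow S := ⟨0, fun s hs => hs.1⟩
  obtain ⟨s, hs⟩ : ∃ s, 0 ≤ s ∧ s ≤ 1 ∧ rp δ v q s 0 ∉ D := by
    by_contra hcon
    push Not at hcon
    exact h fun s h0 h1 => hcon s h0 h1
  have hne : S.Nonempty := ⟨s, hs.1, hs.2.2⟩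
  have hmem : sInf S ∈ S := hcl.csInf_mem hne hbd
  have hlt : ∀ s, 0 ≤ s → s < sInf S → rp δ v q s 0 ∈ D := by
    intro s h0 h1
    by_contra hcon
    exact absurd (csInf_le hbd (show s ∈ S from ⟨h0, hcon⟩)) (not_le.2 h1)
  refine ⟨?_, (csInf_le hbd (show s ∈ S from ⟨hs.1, hs.2.2⟩)).trans hs.2.1, hmem.2, hlt⟩
  rcases hmem.1.eq_or_lt with h1 | h1
  · exfalso
    have h2 := hmem.2
    rw [← h1, rp_zero] at h2
    exact h2 hv
  · exact h1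

lemma xb_mem_frontier (hD : IsOpen D) {v : ℤ × ℤ} {q : ZMod 4} (hv : pt δ v ∈ D)
    (h : ¬op D δ v q) : xb D δ v q ∈ frontier D := by
  obtain ⟨h0, -, h2, h3⟩ := ex_spec hD hv h
  rw [hD.frontier_eq]
  refine ⟨?_, h2⟩
  have h4 : Tendsto (fun s : ℝ => rp δ v q s 0) (𝓝[<] (ex D δ v q)) (𝓝 (xb D δ v q)) :=
    ((continuous_rp_left v q 0).tendsto _).mono_left nhdsWithin_le_nhds
  refine mem_closure_of_tendsto h4 ?_
  filter_upwards [Ioo_mem_nhdsLT h0] with s hs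
  exact h3 s hs.1.le hs.2

lemma norm_xb_sub (hD : IsOpen D) (hδ : 0 < δ) {v : ℤ × ℤ} {q : ZMod 4} (hv : pt δ v ∈ D)
    (h : ¬op D δ v q) : ‖xb D δ v q - pt δ v‖ ≤ δ := by
  obtain ⟨h0, h1, -, -⟩ := ex_spec hD hv h
  rw [← rp_zero v q, xb]
  refine (norm_rp_sub v q _ _ _ _).trans ?_
  rw [sub_zero, sub_zero, abs_zero, add_zero, abs_of_pos hδ, abs_of_pos h0]
  exact mul_le_of_le_one_right hδ.le h1

/-! ### arms -/

/-- The part of length `L v q` of the edge leaving `v` in direction `q`. -/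
def arm (δ : ℝ) (L : ℤ × ℤ → ZMod 4 → ℝ) (v : ℤ × ℤ) (q : ZMod 4) : Set ℂ :=
  (fun s => rp δ v q s 0) '' Icc 0 (L v q)

/-- Union of the arms at the vertices in `V`. -/
def web (δ : ℝ) (V : Set (ℤ × ℤ)) (L : ℤ × ℤ → ZMod 4 → ℝ) : Set ℂ :=
  ⋃ v ∈ V, ⋃ q : ZMod 4, arm δ L v q

lemma mem_web {V : Set (ℤ × ℤ)} {L : ℤ × ℤ → ZMod 4 → ℝ} {w : ℂ} :
    w ∈ web δ V L ↔ ∃ v ∈ V, ∃ q s, 0 ≤ s ∧ s ≤ L v q ∧ w = rp δ v q s 0 := by
  unfold web arm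
  simp only [mem_iUnion, mem_image, mem_Icc, exists_prop]
  constructor
  · rintro ⟨v, hv, q, s, ⟨h1, h2⟩, rfl⟩; exact ⟨v, hv, q, s, h1, h2, rfl⟩
  · rintro ⟨v, hv, q, s, h1, h2, rfl⟩; exact ⟨v, hv, q, s, ⟨h1, h2⟩, rfl⟩

lemma isCompact_web {V : Set (ℤ × ℤ)} (hV : V.Finite) (L : ℤ × ℤ → ZMod 4 → ℝ) :
    IsCompact (web δ V L) := by
  unfold web arm
  refine hV.isCompact_biUnion fun v _ => isCompact_iUnion fun q => ?_
  exact isCompact_Icc.image (continuous_rp_left v q 0)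

lemma isPreconnected_web {V : Set (ℤ × ℤ)} {E : Set (Sym2 (ℤ × ℤ))} {L : ℤ × ℤ → ZMod 4 → ℝ}
    (hc : IsComponent D δ V E)
    (conn : ∀ u ∈ V, ∀ v ∈ V, Relation.ReflTransGen (fun x y => s(x, y) ∈ E) u v)
    (hL : ∀ v q, 0 ≤ L v q) (hL1 : ∀ v q, op D δ v q → 1 ≤ L v q) :
    IsPreconnected (web δ V L) := by
  have hpt : ∀ v q, pt δ v ∈ arm δ L v q := fun v q =>
    ⟨0, ⟨le_rfl, hL v q⟩, rp_zero v q⟩
  refine IsPreconnected.biUnion_of_reflTransGen (fun v _ => ?_) fun u hu v hv => ?_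
  · refine isPreconnected_iUnion ⟨pt δ v, mem_iInter.2 fun q => hpt v q⟩ fun q => ?_
    exact isPreconnected_Icc.image _ (continuous_rp_left v q 0).continuousOn
  · refine Relation.ReflTransGen.mono (fun x y hxy => ?_) _ _ (conn u hu v hv)
    obtain ⟨h1, h2⟩ := (hc.edges x y).1 hxy
    obtain ⟨q, rfl, h3⟩ := adj_iff.1 h2
    refine ⟨⟨pt δ (x + dir q), ?_, ?_⟩, h1⟩
    · exact mem_iUnion.2 ⟨q, 1, ⟨zero_le_one, hL1 x q h3⟩, rp_one x q⟩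
    · exact mem_iUnion.2 ⟨q, hpt _ q⟩

/-- Points of an open edge on the web. -/
lemma mem_web_edge (hδ : δ ≠ 0) {V : Set (ℤ × ℤ)} {L : ℤ × ℤ → ZMod 4 → ℝ}
    (hL : ∀ v q, L v q ≤ 1) {v : ℤ × ℤ} {q : ZMod 4} {τ : ℝ} (h0 : 0 < τ) (h1 : τ < 1)
    (h : rp δ v q τ 0 ∈ web δ V L) :
    (v ∈ V ∧ τ ≤ L v q) ∨ (v + dir q ∈ V ∧ 1 - τ ≤ L (v + dir q) (q + 2)) := by
  obtain ⟨u, hu, p, σ, hσ, hσL, hw⟩ := mem_web.1 h
  rcases edge_unique hδ h0 h1 hσ (hσL.trans (hL u p)) hw with ⟨rfl, rfl, rfl⟩ | ⟨rfl, rfl, rfl⟩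
  · exact Or.inl ⟨hu, hσL⟩
  · exact Or.inr ⟨hu, hσL⟩

end Pool.Agent.H42.MJ
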