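import Pool.Agent.H42.MJ.Comp

set_option autoImplicit false
open Set Topology Filter
open Pool.Agent.H81.Q1

/-! # Faces: a connected set outside `D` is surrounded by faces joined off the domain -/

namespace Pool.Agent.H42.MJ

variable {D : Set ℂ} {δ : ℝ} {E : Set (Sym2 (ℤ × ℤ))}

/-- The closed square of the face `f`. -/
def Sq (δ : ℝ) (f : ℤ × ℤ) : Set ℂ :=
  {w | δ * f.1 ≤ w.re ∧ w.re ≤ δ * (f.1 + 1) ∧ δ * f.2 ≤ w.im ∧ w.im ≤ δ * (f.2 + 1)}

lemma vert_not_mem (hδ : 0 < δ) (hE : ∀ u v, s(u, v) ∈ E → (GD D δ).Adj u v) {w : ℂ} (hw : w ∉ D)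
    {m n : ℤ} (h1 : w.re = δ * m) (h2 : δ * n ≤ w.im) (h3 : w.im ≤ δ * (n + 1)) :
    s((m, n), (m, n + 1)) ∉ E := by
  intro h
  have h4 := hE _ _ h
  have h5 : ((m, n + 1) : ℤ × ℤ) = (m, n) + dir 1 := by rw [dir_1]; simp
  rw [h5, adj_dir] at h4
  refine hw ?_
  have h6 := h4 (w.im / δ - n) (by rw [sub_nonneg, le_div_iff₀ hδ]; linarith)
    (by rw [sub_le_iff_le_add, div_le_iff₀ hδ]; linarith)
  convert h6 using 1
  apply Complex.ext
  · simp [rp, dir_1, h1]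
  · simp only [rp, dir_1]; push_cast; field_simp; ring

lemma horiz_not_mem (hδ : 0 < δ) (hE : ∀ u v, s(u, v) ∈ E → (GD D δ).Adj u v) {w : ℂ}
    (hw : w ∉ D) {m n : ℤ} (h1 : w.im = δ * n) (h2 : δ * m ≤ w.re) (h3 : w.re ≤ δ * (m + 1)) :
    s((m, n), (m + 1, n)) ∉ E := by
  intro h
  have h4 := hE _ _ h
  have h5 : ((m + 1, n) : ℤ × ℤ) = (m, n) + dir 0 := by rw [dir_0]; simp
  rw [h5, adj_dir] at h4
  refine hw ?_
  have h6 := h4 (w.re / δ - m) (by rw [sub_nonneg, le_div_iff₀ hδ]; linarith)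
    (by rw [sub_le_iff_le_add, div_le_iff₀ hδ]; linarith)
  convert h6 using 1
  apply Complex.ext
  · simp only [rp, dir_0]; push_cast; field_simp; ring
  · simp [rp, dir_0, h1]

lemma int_close (hδ : 0 < δ) {x : ℝ} {m n : ℤ} (h1 : δ * m ≤ x) (h2 : x ≤ δ * (m + 1))
    (h3 : δ * n ≤ x) (h4 : x ≤ δ * (n + 1)) :
    n = m ∨ (n = m + 1 ∧ x = δ * (m + 1 : ℤ)) ∨ (n = m - 1 ∧ x = δ * m) := by
  have a1 : (n : ℝ) ≤ m + 1 := le_of_mul_le_mul_left (h3.trans h2) hδ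
  have a2 : (m : ℝ) ≤ n + 1 := le_of_mul_le_mul_left (h1.trans h4) hδ
  have a3 : n ≤ m + 1 := by exact_mod_cast a1
  have a4 : m ≤ n + 1 := by exact_mod_cast a2
  have a5 : n = m ∨ n = m + 1 ∨ n = m - 1 := by omega
  rcases a5 with h | h | h
  · exact Or.inl h
  · subst h
    right; left
    refine ⟨rfl, le_antisymm ?_ h3⟩
    push_cast; exact h2
  · subst h
    right; right
    refine ⟨rfl, le_antisymm ?_ h1⟩
    push_cast at h4; linarith

/-- Two squares which contain a point outside `D` are joined off the domain. -/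
lemma sq_join (hδ : 0 < δ) (hE : ∀ u v, s(u, v) ∈ E → (GD D δ).Adj u v) {w : ℂ} (hw : w ∉ D)
    {f g : ℤ × ℤ} (hf : w ∈ Sq δ f) (hg : w ∈ Sq δ g) :
    Relation.ReflTransGen (faceStep E) f g := by
  obtain ⟨f1, f2⟩ := f
  obtain ⟨g1, g2⟩ := g
  obtain ⟨a1, a2, a3, a4⟩ := hf
  obtain ⟨b1, b2, b3, b4⟩ := hg
  simp only at a1 a2 a3 a4 b1 b2 b3 b4
  have s1 : Relation.ReflTransGen (faceStep E) (f1, f2) (g1, f2) := by
    rcases int_close hδ a1 a2 b1 b2 with h | ⟨rfl, h⟩ | ⟨rfl, h⟩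
    · rw [h]
    · refine Relation.ReflTransGen.single (Or.inl ⟨rfl, ?_⟩)
      exact vert_not_mem hδ hE hw h a3 a4
    · refine Relation.ReflTransGen.single (Or.inr (Or.inl ⟨rfl, ?_⟩))
      exact vert_not_mem hδ hE hw h a3 a4
  have s2 : Relation.ReflTransGen (faceStep E) (g1, f2) (g1, g2) := by
    rcases int_close hδ a3 a4 b3 b4 with h | ⟨rfl, h⟩ | ⟨rfl, h⟩
    · rw [h]
    · refine Relation.ReflTransGen.single (Or.inr (Or.inr (Or.inl ⟨rfl, ?_⟩)))
      exact horiz_not_mem hδ hE hw h b1 b2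
    · refine Relation.ReflTransGen.single (Or.inr (Or.inr (Or.inr ⟨rfl, ?_⟩)))
      exact horiz_not_mem hδ hE hw h b1 b2
  exact s1.trans s2

lemma exists_sq (hδ : 0 < δ) (w : ℂ) : ∃ f, w ∈ Sq δ f := by
  refine ⟨(⌊w.re / δ⌋, ⌊w.im / δ⌋), ?_, ?_, ?_, ?_⟩
  · have := Int.floor_le (w.re / δ)
    rw [le_div_iff₀ hδ] at this; simp only; linarith
  · have := (Int.lt_floor_add_one (w.re / δ)).le
    rw [div_le_iff₀ hδ] at this; simp only; linarith
  · have := Int.floor_le (w.im / δ)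
    rw [le_div_iff₀ hδ] at this; simp only; linarith
  · have := (Int.lt_floor_add_one (w.im / δ)).le
    rw [div_le_iff₀ hδ] at this; simp only; linarith

lemma real_nhds (hδ : 0 < δ) (x : ℝ) : ∀ᶠ y in 𝓝 x, ∀ n : ℤ, δ * n ≤ y → y ≤ δ * (n + 1) →
    δ * n ≤ x ∧ x ≤ δ * (n + 1) := by
  have h1 : δ * (⌈x / δ⌉ - 1) < x := by
    have := Int.ceil_lt_add_one (x / δ)
    have h2 : (⌈x / δ⌉ : ℝ) - 1 < x / δ := by linarith
    rw [lt_div_iff₀ hδ] at h2; linarith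
  have h2 : x < δ * (⌊x / δ⌋ + 1) := by
    have h2 := Int.lt_floor_add_one (x / δ)
    rw [div_lt_iff₀ hδ] at h2; linarith
  filter_upwards [Ioo_mem_nhds h1 h2] with y hy n hn1 hn2
  constructor
  · have h3 : (n : ℝ) < ⌊x / δ⌋ + 1 := lt_of_mul_lt_mul_left (hn1.trans_lt hy.2) hδ.le
    have h4 : n ≤ ⌊x / δ⌋ := by
      have : n < ⌊x / δ⌋ + 1 := by exact_mod_cast h3
      omega
    have h5 : (n : ℝ) ≤ x / δ := Int.le_floor.1 h4
    rw [le_div_iff₀ hδ] at h5; linarith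
  · have h3 : (⌈x / δ⌉ : ℝ) - 1 < n + 1 := lt_of_mul_lt_mul_left (hy.1.trans_le hn2) hδ.le
    have h4 : ⌈x / δ⌉ ≤ n + 1 := by
      have : ⌈x / δ⌉ - 1 < n + 1 := by exact_mod_cast h3
      omega
    have h5 : x / δ ≤ ((n + 1 : ℤ) : ℝ) := Int.ceil_le.1 h4
    rw [div_le_iff₀ hδ] at h5; push_cast at h5; linarith

lemma sq_nhds (hδ : 0 < δ) (w : ℂ) : ∀ᶠ y in 𝓝 w, ∀ f, y ∈ Sq δ f → w ∈ Sq δ f := by
  filter_upwards [(Complex.continuous_re.tendsto w).eventually (real_nhds hδ w.re),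
    (Complex.continuous_im.tendsto w).eventually (real_nhds hδ w.im)] with y h1 h2 f hf
  obtain ⟨a1, a2, a3, a4⟩ := hf
  exact ⟨(h1 _ a1 a2).1, (h1 _ a1 a2).2, (h2 _ a3 a4).1, (h2 _ a3 a4).2⟩

/-- Faces which meet a connected set outside `D` are joined off the domain. -/
theorem face_conn (hδ : 0 < δ) (hE : ∀ u v, s(u, v) ∈ E → (GD D δ).Adj u v) {S : Set ℂ}
    (hS : IsPreconnected S) (hSD : ∀ w ∈ S, w ∉ D) {f g : ℤ × ℤ} {w w' : ℂ} (hw : w ∈ S)
    (hw' : w' ∈ S) (hf : w ∈ Sq δ f) (hg : w' ∈ Sq δ g) :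
    Relation.ReflTransGen (faceStep E) f g := by
  set U1 : Set ℂ := {y | ∀ h, y ∈ Sq δ h → Relation.ReflTransGen (faceStep E) f h} with hU1
  set U2 : Set ℂ := {y | ∀ h, y ∈ Sq δ h → ¬Relation.ReflTransGen (faceStep E) f h} with hU2
  have o1 : IsOpen U1 := by
    rw [isOpen_iff_mem_nhds]
    intro y hy
    filter_upwards [sq_nhds hδ y] with z hz h hh
    exact hy h (hz h hh)
  have o2 : IsOpen U2 := by
    rw [isOpen_iff_mem_nhds]
    intro y hy
    filter_upwards [sq_nhds hδ y] with z hz h hh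
    exact hy h (hz h hh)
  have hd : Disjoint U1 U2 := by
    rw [Set.disjoint_left]
    intro y h1 h2
    obtain ⟨h, hh⟩ := exists_sq hδ y
    exact h2 h hh (h1 h hh)
  have hsub : S ⊆ U1 ∪ U2 := by
    intro y hy
    obtain ⟨h, hh⟩ := exists_sq hδ y
    by_cases hc : Relation.ReflTransGen (faceStep E) f h
    · exact Or.inl fun h' hh' => hc.trans (sq_join hδ hE (hSD y hy) hh hh')
    · exact Or.inr fun h' hh' hc' => hc (hc'.trans (sq_join hδ hE (hSD y hy) hh' hh))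
  have hw1 : w ∈ U1 := fun h hh => sq_join hδ hE (hSD w hw) hf hh
  have := hS.subset_left_of_subset_union o1 o2 hd hsub ⟨w, hw, hw1⟩ hw'
  exact this g hg

/-- A face which contains a point outside `D` is joined to infinity off the domain. -/
theorem far_of_mem (hδ : 0 < δ) (hE : ∀ u v, s(u, v) ∈ E → (GD D δ).Adj u v)
    (hDc : IsPreconnected Dᶜ) (hb : Bornology.IsBounded D) {f : ℤ × ℤ} {w : ℂ} (hw : w ∉ D)
    (hf : w ∈ Sq δ f) (n : ℤ) :
    ∃ g, Relation.ReflTransGen (faceStep E) f g ∧ n ≤ |g.1| + |g.2| := by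
  obtain ⟨R, hR⟩ := hb.subset_ball 0
  obtain ⟨m, hm⟩ := exists_nat_gt (R / δ)
  set k : ℤ := max (m : ℤ) (|n|) with hk
  have hk1 : (m : ℝ) ≤ k := by exact_mod_cast le_max_left (m : ℤ) (|n|)
  have hk2 : |n| ≤ k := le_max_right _ _
  refine ⟨(k, 0), ?_, ?_⟩
  · refine face_conn hδ hE hDc (fun w hw => hw) (w' := ⟨δ * k, 0⟩) hw ?_ hf ?_
    · intro hcon
      have h1 := hR hcon
      rw [Metric.mem_ball, dist_zero_right] at h1
      have h2 : δ * k ≤ ‖(⟨δ * k, 0⟩ : ℂ)‖ := by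
        have := Complex.abs_re_le_norm (⟨δ * k, 0⟩ : ℂ)
        exact (le_abs_self _).trans this
      rw [div_lt_iff₀ hδ] at hm
      have h3 : (m : ℝ) * δ ≤ δ * k := by rw [mul_comm]; exact mul_le_mul_of_nonneg_left hk1 hδ.le
      linarith
    · refine ⟨le_rfl, ?_, ?_, ?_⟩
      · simp only; exact mul_le_mul_of_nonneg_left (by linarith) hδ.le
      · simp
      · simp only; push_cast; nlinarith
  · simp only [abs_zero, add_zero]
    exact (le_abs_self n).trans (hk2.trans (le_abs_self k))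

/-- All sides of the face `f` are contained in `D`. -/
def Inn (D : Set ℂ) (δ : ℝ) (f : ℤ × ℤ) : Prop :=
  op D δ f 0 ∧ op D δ (f + (1, 0)) 1 ∧ op D δ (f + (1, 1)) 2 ∧ op D δ (f + (0, 1)) 3

lemma inn_iff (v : ℤ × ℤ) (q : ZMod 4) : Inn D δ (Corner.face (v, q)) ↔
    op D δ v q ∧ op D δ (v + dir q) (q + 1) ∧ op D δ (v + dir q + dir (q + 1)) (q + 2) ∧
      op D δ (v + dir (q + 1)) (q + 3) := by
  obtain ⟨a, b⟩ := v
  have e1 : (1 + 1 : ZMod 4) = 2 := by decide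
  have e2 : (1 + 2 : ZMod 4) = 3 := by decide
  have e3 : (1 + 3 : ZMod 4) = 0 := by decide
  have e4 : (2 + 1 : ZMod 4) = 3 := by decide
  have e5 : (2 + 2 : ZMod 4) = 0 := by decide
  have e6 : (2 + 3 : ZMod 4) = 1 := by decide
  have e7 : (3 + 1 : ZMod 4) = 0 := by decide
  have e8 : (3 + 2 : ZMod 4) = 1 := by decide
  have e9 : (3 + 3 : ZMod 4) = 2 := by decide
  have d1 : (2 : ZMod 4) ≠ 0 := by decide
  have d2 : (2 : ZMod 4) ≠ 1 := by decide
  have d3 : (3 : ZMod 4) ≠ 0 := by decide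
  have d4 : (3 : ZMod 4) ≠ 1 := by decide
  have d5 : (3 : ZMod 4) ≠ 2 := by decide
  have d6 : (1 : ZMod 4) ≠ 0 := by decide
  unfold Inn
  rcases zmod4 q with rfl | rfl | rfl | rfl
  · simp [Corner.face, dir_0, dir_1]
  · simp only [Corner.face, d6, if_false, if_true, e1, e2, e3, dir_1, dir_2, Prod.mk_add_mk,
      sub_add_cancel, add_zero]
    have h1 : a + 0 + -1 = a - 1 := by ring
    have h2 : a + -1 = a - 1 := by ring
    simp only [add_zero, h2]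
    tauto
  · simp only [Corner.face, d1, d2, if_false, if_true, e4, e5, e6, dir_2, dir_3, Prod.mk_add_mk,
      sub_add_cancel, add_zero]
    have h1 : a + -1 = a - 1 := by ring
    have h2 : b + -1 = b - 1 := by ring
    simp only [h1, h2]
    tauto
  · simp only [Corner.face, d3, d4, d5, if_false, e7, e8, e9, dir_3, dir_0, Prod.mk_add_mk,
      sub_add_cancel, add_zero]
    have h2 : b + -1 = b - 1 := by ring
    simp only [h2, zero_add, add_zero]
    tauto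

end Pool.Agent.H42.MJ
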