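import Pool.Agent.H81.Q1.Exploration

set_option autoImplicit false
open Set Topology Filter
open Pool.Agent.H81.Q1

/-! # Geometry of the lattice `δℤ²` -/

namespace Pool.Agent.H42.MJ

lemma zmod4 (q : ZMod 4) : q = 0 ∨ q = 1 ∨ q = 2 ∨ q = 3 := by revert q; decide

lemma dir_add_one (q : ZMod 4) : dir (q + 1) = (-(dir q).2, (dir q).1) := by revert q; decide
lemma dir_add_two (q : ZMod 4) : dir (q + 2) = -dir q := by revert q; decide
lemma dir_sub_one (q : ZMod 4) : dir (q - 1) = ((dir q).2, -(dir q).1) := by revert q; decide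
lemma dir_cases (q : ZMod 4) : dir q = (1, 0) ∨ dir q = (0, 1) ∨ dir q = (-1, 0) ∨
    dir q = (0, -1) := by revert q; decide
lemma dir_injective {p q : ZMod 4} (h : dir p = dir q) : p = q := by revert p q; decide
lemma dir_ne_zero (q : ZMod 4) : dir q ≠ 0 := by revert q; decide

/-- The point `pt v + δ (s d_q + r d_{q+1})`. -/
noncomputable def rp (δ : ℝ) (v : ℤ × ℤ) (q : ZMod 4) (s r : ℝ) : ℂ :=
  ⟨δ * (v.1 + s * (dir q).1 - r * (dir q).2), δ * (v.2 + s * (dir q).2 + r * (dir q).1)⟩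

variable {δ : ℝ}

lemma rp_zero (v : ℤ × ℤ) (q : ZMod 4) : rp δ v q 0 0 = pt δ v := by
  simp [rp, pt]

lemma rp_one (v : ℤ × ℤ) (q : ZMod 4) : rp δ v q 1 0 = pt δ (v + dir q) := by
  simp [rp, pt]

lemma rp_next (v : ℤ × ℤ) (q : ZMod 4) (s r : ℝ) :
    rp δ (v + dir q) (q + 1) s r = rp δ v q (1 - r) s := by
  simp only [rp, dir_add_one, Complex.mk.injEq, Prod.fst_add, Prod.snd_add]
  push_cast
  constructor <;> ring

lemma rp_turn (v : ℤ × ℤ) (q : ZMod 4) (s r : ℝ) :
    rp δ v (q - 1) s r = rp δ v q r (-s) := by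
  simp only [rp, dir_sub_one, Complex.mk.injEq]
  push_cast
  constructor <;> ring

lemma rp_rev (v : ℤ × ℤ) (q : ZMod 4) (s r : ℝ) :
    rp δ (v + dir q) (q + 2) s r = rp δ v q (1 - s) (-r) := by
  simp only [rp, dir_add_two, Complex.mk.injEq, Prod.fst_add, Prod.snd_add, Prod.fst_neg,
    Prod.snd_neg]
  push_cast
  constructor <;> ring

lemma continuous_rp (v : ℤ × ℤ) (q : ZMod 4) : Continuous fun z : ℝ × ℝ => rp δ v q z.1 z.2 := by
  have : (fun z : ℝ × ℝ => rp δ v q z.1 z.2) = fun z : ℝ × ℝ =>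
      ((δ * (v.1 + z.1 * (dir q).1 - z.2 * (dir q).2) : ℝ) : ℂ) +
        ((δ * (v.2 + z.1 * (dir q).2 + z.2 * (dir q).1) : ℝ) : ℂ) * Complex.I := by
    ext z
    apply Complex.ext <;> simp [rp]
  rw [this]
  fun_prop

lemma continuous_rp_left (v : ℤ × ℤ) (q : ZMod 4) (r : ℝ) :
    Continuous fun s : ℝ => rp δ v q s r :=
  (continuous_rp v q).comp (by fun_prop : Continuous fun s : ℝ => (s, r))

lemma continuous_rp_right (v : ℤ × ℤ) (q : ZMod 4) (s : ℝ) :
    Continuous fun r : ℝ => rp δ v q s r :=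
  (continuous_rp v q).comp (by fun_prop : Continuous fun r : ℝ => (s, r))

lemma norm_rp_sub (v : ℤ × ℤ) (q : ZMod 4) (s r s' r' : ℝ) :
    ‖rp δ v q s r - rp δ v q s' r'‖ ≤ |δ| * (|s - s'| + |r - r'|) := by
  have h1 : rp δ v q s r - rp δ v q s' r' =
      ((δ * (s - s') : ℝ) : ℂ) * ⟨(dir q).1, (dir q).2⟩ +
      ((δ * (r - r') : ℝ) : ℂ) * ⟨-(dir q).2, (dir q).1⟩ := by
    apply Complex.ext
    · simp only [rp, Complex.sub_re, Complex.add_re, Complex.mul_re, Complex.ofReal_re,
        Complex.ofReal_im, zero_mul, sub_zero]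
      ring
    · simp only [rp, Complex.sub_im, Complex.add_im, Complex.mul_im, Complex.ofReal_re,
        Complex.ofReal_im, zero_mul, add_zero]
      ring
  have h2 : ‖(⟨(dir q).1, (dir q).2⟩ : ℂ)‖ = 1 := by
    rw [Complex.norm_def]
    rcases dir_cases q with h | h | h | h <;> simp [h, Complex.normSq_mk]
  have h3 : ‖(⟨-(dir q).2, (dir q).1⟩ : ℂ)‖ = 1 := by
    rw [Complex.norm_def]
    rcases dir_cases q with h | h | h | h <;> simp [h, Complex.normSq_mk]
  rw [h1]
  refine (norm_add_le _ _).trans ?_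
  rw [norm_mul, norm_mul, h2, h3, Complex.norm_real, Complex.norm_real, Real.norm_eq_abs,
    Real.norm_eq_abs, abs_mul, abs_mul]
  exact le_of_eq (by ring)

lemma not_int_of_Ioo {s : ℝ} (h0 : 0 < s) (h1 : s < 1) (n : ℤ) : s ≠ n := by
  rintro rfl
  have h2 : (0 : ℤ) < n := by exact_mod_cast h0
  have h3 : n < 1 := by exact_mod_cast h1
  omega

/-- A point of an open face is on no lattice edge. -/
lemma face_ne_edge (hδ : δ ≠ 0) {v u : ℤ × ℤ} {q p : ZMod 4} {s r σ : ℝ}
    (hs : ∀ n : ℤ, s ≠ n) (hr : ∀ n : ℤ, r ≠ n) : rp δ v q s r ≠ rp δ u p σ 0 := by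
  intro h
  simp only [rp, Complex.mk.injEq, mul_right_inj' hδ] at h
  obtain ⟨h1, h2⟩ := h
  have key : (∃ n : ℤ, s = n) ∨ ∃ n : ℤ, r = n := by
    rcases dir_cases q with hq | hq | hq | hq <;> rcases dir_cases p with hp | hp | hp | hp <;>
      rw [hq, hp] at h1 h2 <;> push_cast at h1 h2
    · right; exact ⟨u.2 - v.2, by push_cast; linarith⟩
    · left; exact ⟨u.1 - v.1, by push_cast; linarith⟩
    · right; exact ⟨u.2 - v.2, by push_cast; linarith⟩
    · left; exact ⟨u.1 - v.1, by push_cast; linarith⟩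
    · left; exact ⟨u.2 - v.2, by push_cast; linarith⟩
    · right; exact ⟨v.1 - u.1, by push_cast; linarith⟩
    · left; exact ⟨u.2 - v.2, by push_cast; linarith⟩
    · right; exact ⟨v.1 - u.1, by push_cast; linarith⟩
    · right; exact ⟨v.2 - u.2, by push_cast; linarith⟩
    · left; exact ⟨v.1 - u.1, by push_cast; linarith⟩
    · right; exact ⟨v.2 - u.2, by push_cast; linarith⟩
    · left; exact ⟨v.1 - u.1, by push_cast; linarith⟩
    · left; exact ⟨v.2 - u.2, by push_cast; linarith⟩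
    · right; exact ⟨u.1 - v.1, by push_cast; linarith⟩
    · left; exact ⟨v.2 - u.2, by push_cast; linarith⟩
    · right; exact ⟨u.1 - v.1, by push_cast; linarith⟩
  rcases key with ⟨n, hn⟩ | ⟨n, hn⟩
  · exact hs n hn
  · exact hr n hn

/-- An interior point of a lattice edge is on no other lattice edge. -/
lemma edge_unique (hδ : δ ≠ 0) {v u : ℤ × ℤ} {q p : ZMod 4} {τ σ : ℝ} (h0 : 0 < τ) (h1 : τ < 1)
    (hσ0 : 0 ≤ σ) (hσ1 : σ ≤ 1) (h : rp δ v q τ 0 = rp δ u p σ 0) :
    (u = v ∧ p = q ∧ σ = τ) ∨ (u = v + dir q ∧ p = q + 2 ∧ σ = 1 - τ) := by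
  simp only [rp, Complex.mk.injEq, mul_right_inj' hδ] at h
  obtain ⟨e1, e2⟩ := h
  have hi := not_int_of_Ioo h0 h1
  have cast : ∀ a b : ℤ, (a : ℝ) = b → a = b := fun a b h => by exact_mod_cast h
  have cast0 : ∀ a b : ℤ, (a : ℝ) < b + 1 → (b : ℝ) < a + 1 → a = b := fun a b h h' => by
    have h3 : a < b + 1 := by exact_mod_cast h
    have h4 : b < a + 1 := by exact_mod_cast h'
    omega
  have hpq : ∀ a b : ZMod 4, dir a = -dir b → a = b + 2 := by decide
  rcases dir_cases q with hq | hq | hq | hq <;> rcases dir_cases p with hp | hp | hp | hp <;>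
    rw [hq, hp] at e1 e2 <;> push_cast at e1 e2
  · left
    have h3 := cast0 u.1 v.1 (by linarith) (by linarith)
    have h4 := cast u.2 v.2 (by linarith)
    rw [h3] at e1
    exact ⟨Prod.ext h3 h4, dir_injective (hp.trans hq.symm), by linarith⟩
  · exact absurd (by push_cast; linarith) (hi (u.1 - v.1))
  · right
    have h3 := cast0 u.1 (v.1 + 1) (by push_cast; linarith) (by push_cast; linarith)
    have h4 := cast u.2 v.2 (by linarith)
    rw [h3] at e1
    push_cast at e1
    refine ⟨?_, hpq _ _ (by rw [hp, hq]; rfl), by linarith⟩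
    rw [hq]
    exact Prod.ext h3 (by simp [h4])
  · exact absurd (by push_cast; linarith) (hi (u.1 - v.1))
  · exact absurd (by push_cast; linarith) (hi (u.2 - v.2))
  · left
    have h3 := cast0 u.2 v.2 (by linarith) (by linarith)
    have h4 := cast u.1 v.1 (by linarith)
    rw [h3] at e2
    exact ⟨Prod.ext h4 h3, dir_injective (hp.trans hq.symm), by linarith⟩
  · exact absurd (by push_cast; linarith) (hi (u.2 - v.2))
  · right
    have h3 := cast0 u.2 (v.2 + 1) (by push_cast; linarith) (by push_cast; linarith)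
    have h4 := cast u.1 v.1 (by linarith)
    rw [h3] at e2
    push_cast at e2
    refine ⟨?_, hpq _ _ (by rw [hp, hq]; rfl), by linarith⟩
    rw [hq]
    exact Prod.ext (by simp [h4]) h3
  · right
    have h3 := cast0 u.1 (v.1 - 1) (by push_cast; linarith) (by push_cast; linarith)
    have h4 := cast u.2 v.2 (by linarith)
    rw [h3] at e1
    push_cast at e1
    refine ⟨?_, hpq _ _ (by rw [hp, hq]; rfl), by linarith⟩
    rw [hq]
    exact Prod.ext h3 (by simp [h4])
  · exact absurd (by push_cast; linarith) (hi (v.1 - u.1))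
  · left
    have h3 := cast0 u.1 v.1 (by linarith) (by linarith)
    have h4 := cast u.2 v.2 (by linarith)
    rw [h3] at e1
    exact ⟨Prod.ext h3 h4, dir_injective (hp.trans hq.symm), by linarith⟩
  · exact absurd (by push_cast; linarith) (hi (v.1 - u.1))
  · exact absurd (by push_cast; linarith) (hi (v.2 - u.2))
  · right
    have h3 := cast0 u.2 (v.2 - 1) (by push_cast; linarith) (by push_cast; linarith)
    have h4 := cast u.1 v.1 (by linarith)
    rw [h3] at e2
    push_cast at e2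
    refine ⟨?_, hpq _ _ (by rw [hp, hq]; rfl), by linarith⟩
    rw [hq]
    exact Prod.ext (by simp [h4]) h3
  · exact absurd (by push_cast; linarith) (hi (v.2 - u.2))
  · left
    have h3 := cast0 u.2 v.2 (by linarith) (by linarith)
    have h4 := cast u.1 v.1 (by linarith)
    rw [h3] at e2
    exact ⟨Prod.ext h4 h3, dir_injective (hp.trans hq.symm), by linarith⟩

lemma pt_injective (hδ : δ ≠ 0) {u v : ℤ × ℤ} (h : pt δ u = pt δ v) : u = v := by
  simp only [pt, Complex.mk.injEq, mul_right_inj' hδ] at h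
  exact Prod.ext (by exact_mod_cast h.1) (by exact_mod_cast h.2)

/-- A lattice point on a lattice edge is one of its ends. -/
lemma vertex_of_edge (hδ : δ ≠ 0) {v u : ℤ × ℤ} {q : ZMod 4} {σ : ℝ} (h0 : 0 ≤ σ) (h1 : σ ≤ 1)
    (h : pt δ u = rp δ v q σ 0) : (σ = 0 ∧ u = v) ∨ (σ = 1 ∧ u = v + dir q) := by
  rcases h0.eq_or_lt with h2 | h2
  · subst h2
    rw [rp_zero] at h
    exact Or.inl ⟨rfl, pt_injective hδ h⟩
  rcases h1.eq_or_lt with h3 | h3
  · subst h3
    rw [rp_one] at h
    exact Or.inr ⟨rfl, pt_injective hδ h⟩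
  exfalso
  have h4 : rp δ v q σ 0 = rp δ u 0 0 0 := by rw [rp_zero]; exact h.symm
  rcases edge_unique hδ h2 h3 le_rfl zero_le_one h4 with ⟨-, -, h5⟩ | ⟨-, -, h5⟩ <;> linarith

end Pool.Agent.H42.MJ
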